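import Pool.Agent.Q69.SM.Avg

/-!
The norm of `L²` for honest functions.
-/

set_option autoImplicit false

open MeasureTheory Filter Topology
open Q69.SM

namespace Q69.SX

variable {α : Type*} [MeasurableSpace α] {μ : Measure α} [SigmaFinite μ]

/-- the norm of `L²` -/
noncomputable def nrm (μ : Measure α) (f : α → ℝ) : ℝ := √(∫ x, f x ^ 2 ∂μ)

theorem nrm_nonneg (f : α → ℝ) : 0 ≤ nrm μ f := Real.sqrt_nonneg _

theorem nrm_sq (f : α → ℝ) : nrm μ f ^ 2 = ∫ x, f x ^ 2 ∂μ :=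
  Real.sq_sqrt (integral_nonneg fun x => sq_nonneg _)

theorem L2.int_mul {f g : α → ℝ} (hf : L2 μ f) (hg : L2 μ g) :
    Integrable (fun x => f x * g x) μ := by
  refine ((hf.2.add hg.2)).mono' (hf.1.mul hg.1).aestronglyMeasurable
    (Eventually.of_forall fun x => ?_)
  simp only [Pi.add_apply, Real.norm_eq_abs, abs_mul]
  nlinarith [sq_nonneg (|f x| - |g x|), sq_abs (f x), sq_abs (g x), sq_nonneg (f x),
    sq_nonneg (g x)]

theorem L2.add' {f g : α → ℝ} (hf : L2 μ f) (hg : L2 μ g) : L2 μ (fun x => f x + g x) := by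
  refine ⟨hf.1.add hg.1, ?_⟩
  have h := (hf.2.add hg.2).add ((L2.int_mul hf hg).const_mul 2)
  refine h.congr (Eventually.of_forall fun x => ?_)
  simp only [Pi.add_apply]
  ring

theorem L2.cmul {f : α → ℝ} (hf : L2 μ f) (c : ℝ) : L2 μ (fun x => c * f x) := by
  refine ⟨hf.1.const_mul c, ?_⟩
  have : (fun x => (c * f x) ^ 2) = fun x => c ^ 2 * f x ^ 2 := by funext x; ring
  rw [this]
  exact hf.2.const_mul _

theorem L2.bmul {f φ : α → ℝ} (hf : L2 μ f) (hφ : Measurable φ) {M : ℝ} (hM : ∀ x, |φ x| ≤ M) :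
    L2 μ (fun x => φ x * f x) := by
  refine ⟨hφ.mul hf.1, (hf.2.const_mul (M ^ 2)).mono'
    ((hφ.mul hf.1).pow_const 2).aestronglyMeasurable (Eventually.of_forall fun x => ?_)⟩
  rw [Real.norm_of_nonneg (sq_nonneg _), mul_pow]
  refine mul_le_mul_of_nonneg_right ?_ (sq_nonneg _)
  rw [← sq_abs (φ x)]
  exact pow_le_pow_left₀ (abs_nonneg _) (hM x) 2

theorem L2.sum {κ : Type*} (s : Finset κ) {f : κ → α → ℝ} (h : ∀ k ∈ s, L2 μ (f k)) :
    L2 μ (fun x => ∑ k ∈ s, f k x) := by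
  classical
  induction s using Finset.induction_on with
  | empty =>
    refine ⟨by simp, ?_⟩
    simp
  | insert a s ha ih =>
    have h1 := L2.add' (h a (Finset.mem_insert_self a s))
      (ih fun k hk => h k (Finset.mem_insert_of_mem hk))
    simp only [Finset.sum_insert ha]
    exact h1

/-- Cauchy–Schwarz -/
theorem cs_ineq {f g : α → ℝ} (hf : L2 μ f) (hg : L2 μ g) :
    |∫ x, f x * g x ∂μ| ≤ nrm μ f * nrm μ g := by
  obtain ⟨a, ha⟩ : ∃ a, a = ∫ x, f x ^ 2 ∂μ := ⟨_, rfl⟩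
  obtain ⟨b, hb⟩ : ∃ b, b = ∫ x, g x ^ 2 ∂μ := ⟨_, rfl⟩
  obtain ⟨m, hm⟩ : ∃ m, m = ∫ x, f x * g x ∂μ := ⟨_, rfl⟩
  have key : ∀ t : ℝ, 0 ≤ a * (t * t) + (2 * m) * t + b := by
    intro t
    have h1 : ∫ x, (t * f x + g x) ^ 2 ∂μ = a * (t * t) + (2 * m) * t + b := by
      have e : ∀ x, (t * f x + g x) ^ 2 = (t ^ 2 * f x ^ 2 + (2 * t) * (f x * g x)) + g x ^ 2 :=
        fun x => by ring
      simp only [e]
      have i1 : Integrable (fun x => t ^ 2 * f x ^ 2) μ := hf.2.const_mul _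
      have i2 : Integrable (fun x => (2 * t) * (f x * g x)) μ := (L2.int_mul hf hg).const_mul _
      have i3 : Integrable (fun x => t ^ 2 * f x ^ 2 + (2 * t) * (f x * g x)) μ := i1.add i2
      rw [integral_add i3 hg.2, integral_add i1 i2, integral_const_mul,
        integral_const_mul, ← ha, ← hb, ← hm]
      ring
    rw [← h1]
    exact integral_nonneg fun x => sq_nonneg _
  have hd := discrim_le_zero key
  unfold discrim at hd
  have h2 : m ^ 2 ≤ a * b := by nlinarith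
  unfold nrm
  rw [← ha, ← hb, ← hm, ← Real.sqrt_mul (by rw [ha]; exact integral_nonneg fun x => sq_nonneg _)]
  exact Real.abs_le_sqrt h2

theorem nrm_add_le {f g : α → ℝ} (hf : L2 μ f) (hg : L2 μ g) :
    nrm μ (fun x => f x + g x) ≤ nrm μ f + nrm μ g := by
  refine Real.sqrt_le_iff.2 ⟨add_nonneg (nrm_nonneg _) (nrm_nonneg _), ?_⟩
  have e : ∀ x, (f x + g x) ^ 2 = (f x ^ 2 + 2 * (f x * g x)) + g x ^ 2 := fun x => by ring
  simp only [e]
  have i2 : Integrable (fun x => 2 * (f x * g x)) μ := (L2.int_mul hf hg).const_mul _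
  have i3 : Integrable (fun x => f x ^ 2 + 2 * (f x * g x)) μ := hf.2.add i2
  rw [integral_add i3 hg.2, integral_add hf.2 i2, integral_const_mul, ← nrm_sq f, ← nrm_sq g]
  have h1 := (abs_le.1 (cs_ineq hf hg)).2
  nlinarith

theorem nrm_cmul (f : α → ℝ) (c : ℝ) : nrm μ (fun x => c * f x) = |c| * nrm μ f := by
  unfold nrm
  have : (fun x => (c * f x) ^ 2) = fun x => c ^ 2 * f x ^ 2 := by funext x; ring
  rw [this, integral_const_mul, Real.sqrt_mul (sq_nonneg c), Real.sqrt_sq_eq_abs]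

theorem nrm_neg (f : α → ℝ) : nrm μ (fun x => - f x) = nrm μ f := by
  unfold nrm
  simp only [neg_sq]

theorem nrm_sub_le {f g : α → ℝ} (hf : L2 μ f) (hg : L2 μ g) :
    nrm μ (fun x => f x - g x) ≤ nrm μ f + nrm μ g := by
  have h1 := nrm_add_le hf (L2.cmul hg (-1))
  rw [nrm_cmul] at h1
  have e : (fun x => f x - g x) = fun x => f x + (-1) * g x := by funext x; ring
  rw [e]
  simpa using h1

theorem nrm_bmul {f φ : α → ℝ} (hf : L2 μ f) (hφ : Measurable φ) {M : ℝ} (hM0 : 0 ≤ M)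
    (hM : ∀ x, |φ x| ≤ M) : nrm μ (fun x => φ x * f x) ≤ M * nrm μ f := by
  refine Real.sqrt_le_iff.2 ⟨mul_nonneg hM0 (nrm_nonneg _), ?_⟩
  rw [mul_pow, nrm_sq, ← integral_const_mul]
  refine integral_mono (L2.bmul hf hφ hM).2 (hf.2.const_mul _) fun x => ?_
  simp only [mul_pow]
  refine mul_le_mul_of_nonneg_right ?_ (sq_nonneg _)
  rw [← sq_abs (φ x)]
  exact pow_le_pow_left₀ (abs_nonneg _) (hM x) 2

theorem nrm_comp {f : α → ℝ} (hf : L2 μ f) {T : α → α} (hT : MeasurePreserving T μ μ) :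
    nrm μ (fun x => f (T x)) = nrm μ f := by
  unfold nrm
  rw [integral_sq_comp hf hT]

theorem nrm_sum_le {κ : Type*} (s : Finset κ) {f : κ → α → ℝ} (h : ∀ k ∈ s, L2 μ (f k)) :
    nrm μ (fun x => ∑ k ∈ s, f k x) ≤ ∑ k ∈ s, nrm μ (f k) := by
  classical
  induction s using Finset.induction_on with
  | empty => simp [nrm]
  | insert a s ha ih =>
    have h1 := nrm_add_le (h a (Finset.mem_insert_self a s))
      (L2.sum s fun k hk => h k (Finset.mem_insert_of_mem hk))
    simp only [Finset.sum_insert ha]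
    refine h1.trans ?_
    have := ih fun k hk => h k (Finset.mem_insert_of_mem hk)
    linarith

theorem int_comp {f : α → ℝ} (hf : Measurable f) {T : α → α} (hT : MeasurePreserving T μ μ) :
    ∫ x, f (T x) ∂μ = ∫ x, f x ∂μ := by
  conv_rhs => rw [← hT.map_eq]
  rw [integral_map hT.measurable.aemeasurable hf.aestronglyMeasurable]

/-- the norm of a difference along an orbit -/
theorem nrm_iter {f : α → ℝ} (hf : L2 μ f) {T : α → α} (hT : MeasurePreserving T μ μ) {κ : ℝ}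
    (h : nrm μ (fun x => f (T x) - f x) ≤ κ) (n : ℕ) :
    nrm μ (fun x => f (T^[n] x) - f x) ≤ n * κ := by
  induction n with
  | zero => simp [nrm]
  | succ n ih =>
    have hn := hT.iterate n
    have h1 : (fun x => f (T^[n+1] x) - f x) =
        fun x => (f (T^[n] (T x)) - f (T x)) + (f (T x) - f x) := by
      funext x
      rw [Function.iterate_succ_apply]
      ring
    have hd : L2 μ (fun x => f (T^[n] x) - f x) := L2.sub (L2.comp hf hn) hf
    have h2 := nrm_add_le (L2.comp hd hT) (L2.sub (L2.comp hf hT) hf)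
    have h3 := nrm_comp hd hT
    rw [h1]
    refine h2.trans ?_
    rw [h3]
    push_cast
    linarith

end Q69.SX
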