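import Pool.Agent.Q69.SX.Maps
import Pool.Agent.Q69.SX.Nrm

/-!
Decay of correlations along the shear, and its consequence for almost invariant functions.
-/

set_option autoImplicit false

open MeasureTheory Filter Topology Real
open scoped ContDiff
open Q69.SM

namespace Q69.SX

theorem Sm.L2 {d : Type*} [Fintype d] {G : X d → ℝ} (h : Sm G) :
    L2 (volume : Measure (X d)) G := by
  refine ⟨h.measurable, ?_⟩
  have h2 : Sm (fun q => G q ^ 2) := h.pow 2
  exact h2.integrable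

variable {κ : Type*} [Fintype κ] [DecidableEq κ]

omit [Fintype κ] [DecidableEq κ] in
theorem WX_iter (s : ℝ) (n : ℕ) : (WX (κ := κ) s)^[n] = WX (n * s) := by
  induction n with
  | zero =>
    funext q
    simp [WX_zero]
  | succ n ih =>
    rw [Function.iterate_succ', ih]
    funext q
    simp only [Function.comp, WX_WX]
    congr 1
    push_cast
    ring

/-- decay of the correlations of a derivative along the shear -/
theorem decay (i : κ) : ∃ K : ℝ, 0 < K ∧ (∀ q, |Th i q| ≤ K) ∧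
    ∀ (w : X (κ ⊕ κ) → ℝ) (C t : ℝ), Sm w → nrm volume w ≤ C →
      (∀ c, nrm volume (D c w) ≤ C) →
      |t| * |∫ q, (Th i q * D (Sum.inr i) w q) *
        (Th i (WX t q) * D (Sum.inr i) w (WX t q))| ≤ 3 * K * C ^ 2 := by
  obtain ⟨K1, hK1, hT1⟩ := (Sm_Th i).bound
  obtain ⟨K2, hK2, hT2⟩ := ((Sm_Th i).D (Sum.inl i)).bound
  refine ⟨K1 + K2 + 1, by positivity, fun q => (hT1 q).trans (by linarith), ?_⟩
  obtain ⟨K, hK⟩ : ∃ K, K = K1 + K2 + 1 := ⟨_, rfl⟩
  rw [← hK]
  have hK0 : 0 ≤ K := by rw [hK]; positivity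
  have hTK : ∀ q, |Th i q| ≤ K := fun q => (hT1 q).trans (by linarith)
  have hDK : ∀ q, |D (Sum.inl i) (Th i) q| ≤ K := fun q => (hT2 q).trans (by linarith)
  intro w C t hw hC hC'
  have hC0 : 0 ≤ C := (nrm_nonneg _).trans hC
  obtain ⟨g, hg⟩ : ∃ g, g = D (Sum.inr i) w := ⟨_, rfl⟩
  obtain ⟨v, hv⟩ : ∃ v, v = D (Sum.inl i) w := ⟨_, rfl⟩
  obtain ⟨wt, hwt⟩ : ∃ wt, wt = fun q => w (WX t q) := ⟨_, rfl⟩
  have hgS : Sm g := by rw [hg]; exact hw.D _
  have hvS : Sm v := by rw [hv]; exact hw.D _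
  have hwtS : Sm wt := by rw [hwt]; exact hw.compW t
  have hTS := Sm_Th i
  have hgC : nrm volume g ≤ C := by rw [hg]; exact hC' _
  have hvC : nrm volume v ≤ C := by rw [hv]; exact hC' _
  have hwtC : nrm volume wt ≤ C := by rw [hwt, nrm_comp hw.L2 (mp_WX t)]; exact hC
  have hgW : nrm volume (fun q => g (WX t q)) ≤ C := by rw [nrm_comp hgS.L2 (mp_WX t)]; exact hgC
  have hvW : nrm volume (fun q => v (WX t q)) ≤ C := by rw [nrm_comp hvS.L2 (mp_WX t)]; exact hvC
  have e1 : ∀ q, t * ((Th i q * g q) * (Th i (WX t q) * g (WX t q))) =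
      (Th i q * g q) * v (WX t q) - (Th i q * g q) * D (Sum.inl i) wt q := by
    intro q
    rw [hwt, D_W_x hw, ← hg, ← hv, Th_W]
    ring
  have hh : Sm (fun q => Th i q * g q) := hTS.mul hgS
  have i1 : Integrable (fun q => (Th i q * g q) * v (WX t q)) (volume : Measure (X (κ ⊕ κ))) :=
    (hh.mul (hvS.compW t)).integrable
  have i2 : Integrable (fun q => (Th i q * g q) * D (Sum.inl i) wt q)
      (volume : Measure (X (κ ⊕ κ))) := (hh.mul (hwtS.D _)).integrable
  have e2 : t * ∫ q, (Th i q * g q) * (Th i (WX t q) * g (WX t q)) =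
      (∫ q, (Th i q * g q) * v (WX t q)) - ∫ q, (Th i q * g q) * D (Sum.inl i) wt q := by
    rw [← integral_const_mul, ← integral_sub i1 i2]
    exact integral_congr_ae (Eventually.of_forall e1)
  have e3 : ∫ q, (Th i q * g q) * D (Sum.inl i) wt q =
      -(∫ q, wt q * (D (Sum.inl i) (Th i) q * g q)) + ∫ q, v q * (Th i q * g (WX t q)) := by
    have h1 : ∫ q, (Th i q * g q) * D (Sum.inl i) wt q =
        ∫ q, D (Sum.inl i) wt q * (Th i q * g q) := by
      congr 1; funext q; ring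
    rw [h1, ibp hwtS hh]
    have h2 : ∀ q, wt q * D (Sum.inl i) (fun q => Th i q * g q) q =
        wt q * (D (Sum.inl i) (Th i) q * g q) + D (Sum.inr i) v q * (Th i q * wt q) := by
      intro q
      rw [D_mul hTS hgS]
      have h3 : D (Sum.inl i) g q = D (Sum.inr i) v q := by
        rw [hg, hv]
        exact D_comm hw _ _ q
      rw [h3]
      ring
    simp only [h2]
    rw [integral_add (hwtS.mul ((hTS.D _).mul hgS)).integrable
      ((hvS.D _).mul (hTS.mul hwtS)).integrable, ibp hvS (hTS.mul hwtS)]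
    have h4 : ∀ q, v q * D (Sum.inr i) (fun q => Th i q * wt q) q =
        v q * (Th i q * g (WX t q)) := by
      intro q
      rw [D_mul hTS hwtS, D_Th_y, hwt, D_W_y hw, ← hg]
      ring
    simp only [h4]
    ring
  have b1 : |∫ q, (Th i q * g q) * v (WX t q)| ≤ K * C * C := by
    refine (cs_ineq hh.L2 (hvS.compW t).L2).trans ?_
    exact mul_le_mul ((nrm_bmul hgS.L2 hTS.measurable hK0 hTK).trans
      (mul_le_mul_of_nonneg_left hgC hK0)) hvW (nrm_nonneg _) (by positivity)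
  have b2 : |∫ q, wt q * (D (Sum.inl i) (Th i) q * g q)| ≤ C * (K * C) := by
    refine (cs_ineq hwtS.L2 ((hTS.D _).mul hgS).L2).trans ?_
    exact mul_le_mul hwtC ((nrm_bmul hgS.L2 (hTS.D _).measurable hK0 hDK).trans
      (mul_le_mul_of_nonneg_left hgC hK0)) (nrm_nonneg _) hC0
  have b3 : |∫ q, v q * (Th i q * g (WX t q))| ≤ C * (K * C) := by
    refine (cs_ineq hvS.L2 (hTS.mul (hgS.compW t)).L2).trans ?_
    exact mul_le_mul hvC ((nrm_bmul (hgS.compW t).L2 hTS.measurable hK0 hTK).trans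
      (mul_le_mul_of_nonneg_left hgW hK0)) (nrm_nonneg _) hC0
  rw [← abs_mul, ← hg, e2, e3]
  have b1' := abs_le.1 b1
  have b2' := abs_le.1 b2
  have b3' := abs_le.1 b3
  rw [abs_le]
  constructor <;> nlinarith [b1'.1, b1'.2, b2'.1, b2'.2, b3'.1, b3'.2]

/-- quantitative form for one almost invariant function -/
theorem avg_bound (i : κ) {K : ℝ} (hK0 : 0 < K) (hTK : ∀ q, |Th (κ := κ) i q| ≤ K)
    (hdec : ∀ (w : X (κ ⊕ κ) → ℝ) (C t : ℝ), Sm w → nrm volume w ≤ C →
      (∀ c, nrm volume (D c w) ≤ C) →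
      |t| * |∫ q, (Th i q * D (Sum.inr i) w q) *
        (Th i (WX t q) * D (Sum.inr i) w (WX t q))| ≤ 3 * K * C ^ 2)
    {f w : X (κ ⊕ κ) → ℝ} {C s δ : ℝ} (hf : L2 volume f) (hf1 : nrm volume f ≤ 1) (hw : Sm w)
    (hC : nrm volume w ≤ C) (hC' : ∀ c, nrm volume (D c w) ≤ C) (hs : s ≠ 0)
    (hδ : nrm volume (fun q => f (WX s q) - f q) ≤ δ) (M L : ℕ) (hM : 0 < M) (hL : 0 < L) :
    |∫ q, f q * (Th i q * D (Sum.inr i) w q)| ≤
      M * L * δ * (K * C) + √((K * C) ^ 2 / M + 3 * K * C ^ 2 / (L * |s|)) := by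
  have hC0 : 0 ≤ C := (nrm_nonneg _).trans hC
  have hδ0 : 0 ≤ δ := (nrm_nonneg _).trans hδ
  have hM' : (0:ℝ) < M := Nat.cast_pos.2 hM
  have hL' : (0:ℝ) < L := Nat.cast_pos.2 hL
  have hs' : 0 < |s| := abs_pos.2 hs
  obtain ⟨h, hh⟩ : ∃ h, h = fun q => Th i q * D (Sum.inr i) w q := ⟨_, rfl⟩
  have hhS : Sm h := by rw [hh]; exact (Sm_Th i).mul (hw.D _)
  have hhC : nrm volume h ≤ K * C := by
    rw [hh]
    exact (nrm_bmul (hw.D _).L2 (Sm_Th i).measurable hK0.le hTK).trans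
      (mul_le_mul_of_nonneg_left (hC' _) hK0.le)
  have hcorr : ∀ t : ℝ, |t| * |∫ q, h q * h (WX t q)| ≤ 3 * K * C ^ 2 := by
    intro t
    have := hdec w C t hw hC hC'
    rw [hh]
    exact this
  obtain ⟨T, hT⟩ : ∃ T : ℕ → X (κ ⊕ κ) → X (κ ⊕ κ), T = fun j => WX ((j * L : ℕ) * s) := ⟨_, rfl⟩
  have hTmp : ∀ j, MeasurePreserving (T j) (volume : Measure (X (κ ⊕ κ))) volume := fun j => by
    rw [hT]; exact mp_WX _
  have hTf : ∀ j < M, nrm volume (fun q => f (T j q) - f q) ≤ M * L * δ := by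
    intro j hj
    have h1 := nrm_iter hf (mp_WX s) hδ (j * L)
    rw [WX_iter] at h1
    rw [hT]
    refine h1.trans ?_
    push_cast
    have h2 : (j : ℝ) ≤ M := by exact_mod_cast hj.le
    exact mul_le_mul_of_nonneg_right (mul_le_mul_of_nonneg_right h2 hL'.le) hδ0
  have hone : ∀ j < M, |(∫ q, f q * h q) - ∫ q, f q * h (T j q)| ≤ M * L * δ * (K * C) := by
    intro j hj
    have h1 : ∫ q, f q * h q = ∫ q, f (T j q) * h (T j q) :=
      (int_comp (f := fun q => f q * h q) (hf.1.mul hhS.measurable) (hTmp j)).symm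
    have hfT := L2.comp hf (hTmp j)
    have hhT := L2.comp hhS.L2 (hTmp j)
    rw [h1, ← integral_sub (L2.int_mul hfT hhT) (L2.int_mul hf hhT)]
    have h2 : ∀ q, f (T j q) * h (T j q) - f q * h (T j q) = (f (T j q) - f q) * h (T j q) :=
      fun q => by ring
    simp only [h2]
    refine (cs_ineq (L2.sub hfT hf) hhT).trans ?_
    exact mul_le_mul (hTf j hj) (by rw [nrm_comp hhS.L2 (hTmp j)]; exact hhC) (nrm_nonneg _)
      (by positivity)
  obtain ⟨A, hA⟩ : ∃ A : X (κ ⊕ κ) → ℝ, A = fun q => ∑ j ∈ Finset.range M, h (T j q) := ⟨_, rfl⟩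
  have hAL : L2 volume A := by
    rw [hA]; exact L2.sum _ fun j _ => L2.comp hhS.L2 (hTmp j)
  have hAn : nrm volume A ^ 2 ≤ M * (K * C) ^ 2 + M ^ 2 * (3 * K * C ^ 2 / (L * |s|)) := by
    rw [nrm_sq]
    have e1 : ∀ q, A q ^ 2 = ∑ j ∈ Finset.range M, ∑ k ∈ Finset.range M,
        h (T j q) * h (T k q) := by
      intro q
      rw [hA, sq, Finset.sum_mul_sum]
    simp only [e1]
    have i0 : ∀ j k, Integrable (fun q => h (T j q) * h (T k q))
        (volume : Measure (X (κ ⊕ κ))) := fun j k =>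
      L2.int_mul (L2.comp hhS.L2 (hTmp j)) (L2.comp hhS.L2 (hTmp k))
    rw [integral_finsetSum _ fun j _ => integrable_finsetSum _ fun k _ => i0 j k]
    simp only [integral_finsetSum _ fun k (_ : k ∈ Finset.range M) => i0 _ k]
    have hjk : ∀ j ∈ Finset.range M, ∑ k ∈ Finset.range M, ∫ q, h (T j q) * h (T k q) ≤
        (K * C) ^ 2 + M * (3 * K * C ^ 2 / (L * |s|)) := by
      intro j hj
      have hterm : ∀ k ∈ Finset.range M, ∫ q, h (T j q) * h (T k q) ≤
          (if k = j then (K * C) ^ 2 else 0) + 3 * K * C ^ 2 / (L * |s|) := by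
        intro k _
        by_cases hkj : k = j
        · subst hkj
          rw [if_pos rfl]
          have h1 : ∫ q, h (T k q) * h (T k q) = nrm volume h ^ 2 := by
            rw [nrm_sq, ← integral_sq_comp hhS.L2 (hTmp k)]
            congr 1; funext q; ring
          rw [h1]
          have h2 : nrm volume h ^ 2 ≤ (K * C) ^ 2 := pow_le_pow_left₀ (nrm_nonneg _) hhC 2
          have h3 : 0 ≤ 3 * K * C ^ 2 / (L * |s|) := by positivity
          linarith
        · simp only [if_neg hkj, zero_add]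
          obtain ⟨t, ht⟩ : ∃ t : ℝ, t = ((k:ℝ) - j) * (L * s) := ⟨_, rfl⟩
          have h1 : ∫ q, h (T j q) * h (T k q) = ∫ q, h q * h (WX t q) := by
            rw [← int_comp (f := fun q => h q * h (WX t q))
              (hhS.measurable.mul (hhS.compW t).measurable) (hTmp j)]
            congr 1
            funext q
            congr 2
            rw [hT]
            simp only [WX_WX]
            congr 1
            rw [ht]
            push_cast
            ring
          rw [h1]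
          have h2 := hcorr t
          have h3 : (L:ℝ) * |s| ≤ |t| := by
            rw [ht, abs_mul, abs_mul, abs_of_pos hL']
            have h4 : (1:ℝ) ≤ |(k:ℝ) - j| := by
              have h5 : (1:ℤ) ≤ |(k:ℤ) - j| := by
                apply Int.one_le_abs
                omega
              have h6 : ((1:ℤ):ℝ) ≤ ((|(k:ℤ) - j| : ℤ) : ℝ) := by exact_mod_cast h5
              push_cast at h6
              exact h6
            have h5 : (0:ℝ) ≤ L * |s| := by positivity
            nlinarith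
          rw [le_div_iff₀ (by positivity)]
          have h6 := le_abs_self (∫ q, h q * h (WX t q))
          have h7 := abs_nonneg (∫ q, h q * h (WX t q))
          have h8 : (L:ℝ) * |s| * |∫ q, h q * h (WX t q)| ≤ |t| * |∫ q, h q * h (WX t q)| :=
            mul_le_mul_of_nonneg_right h3 h7
          have h9 : 0 ≤ (L:ℝ) * |s| := by positivity
          nlinarith
      refine (Finset.sum_le_sum hterm).trans ?_
      rw [Finset.sum_add_distrib, Finset.sum_ite_eq', if_pos hj, Finset.sum_const,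
        Finset.card_range, nsmul_eq_mul]
    refine (Finset.sum_le_sum hjk).trans ?_
    rw [Finset.sum_const, Finset.card_range, nsmul_eq_mul]
    apply le_of_eq
    ring
  have hsum : |(M:ℝ) * (∫ q, f q * h q) - ∫ q, f q * A q| ≤ M * (M * L * δ * (K * C)) := by
    have e1 : ∫ q, f q * A q = ∑ j ∈ Finset.range M, ∫ q, f q * h (T j q) := by
      rw [← integral_finsetSum _ fun j _ => L2.int_mul hf (L2.comp hhS.L2 (hTmp j))]
      congr 1
      funext q
      rw [hA, Finset.mul_sum]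
    have e2 : (M:ℝ) * (∫ q, f q * h q) = ∑ j ∈ Finset.range M, ∫ q, f q * h q := by
      rw [Finset.sum_const, Finset.card_range, nsmul_eq_mul]
    rw [e1, e2, ← Finset.sum_sub_distrib]
    refine (Finset.abs_sum_le_sum_abs _ _).trans ?_
    refine (Finset.sum_le_sum fun j hj => hone j (Finset.mem_range.1 hj)).trans ?_
    rw [Finset.sum_const, Finset.card_range, nsmul_eq_mul]
  have hfA : |∫ q, f q * A q| ≤ nrm volume A := by
    refine (cs_ineq hf hAL).trans ?_
    have := mul_le_mul_of_nonneg_right hf1 (nrm_nonneg (μ := volume) A)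
    linarith
  have hA2 : nrm volume A ≤ M * √((K * C) ^ 2 / M + 3 * K * C ^ 2 / (L * |s|)) := by
    have e1 : (M:ℝ) * √((K * C) ^ 2 / M + 3 * K * C ^ 2 / (L * |s|)) =
        √(M * (K * C) ^ 2 + M ^ 2 * (3 * K * C ^ 2 / (L * |s|))) := by
      rw [← Real.sqrt_sq hM'.le, ← Real.sqrt_mul (sq_nonneg _), Real.sqrt_sq hM'.le]
      congr 1
      field_simp
    rw [e1]
    exact Real.le_sqrt_of_sq_le hAn
  have e0 : ∫ q, f q * (Th i q * D (Sum.inr i) w q) = ∫ q, f q * h q := by rw [hh]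
  rw [e0]
  have h1 : (M:ℝ) * |∫ q, f q * h q| ≤ M * (M * L * δ * (K * C)) +
      M * √((K * C) ^ 2 / M + 3 * K * C ^ 2 / (L * |s|)) := by
    rw [← abs_of_pos hM', ← abs_mul, abs_of_pos hM']
    have h2 := abs_sub_abs_le_abs_sub ((M:ℝ) * (∫ q, f q * h q)) (∫ q, f q * A q)
    linarith
  have h2 : (M:ℝ) * |∫ q, f q * h q| ≤ M * (M * L * δ * (K * C) +
      √((K * C) ^ 2 / M + 3 * K * C ^ 2 / (L * |s|))) := by linarith
  exact le_of_mul_le_mul_left h2 hM'

/-- the sequence version -/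
theorem null_base (i : κ) {f : ℕ → X (κ ⊕ κ) → ℝ} {s : ℕ → ℝ} {t0 : ℝ} (ht0 : 0 < t0)
    (hs : ∀ n, t0 ≤ |s n|) (hf : ∀ n, L2 volume (f n)) (hf1 : ∀ n, nrm volume (f n) ≤ 1)
    (hinv : Tendsto (fun n => nrm volume (fun q => f n (WX (s n) q) - f n q)) atTop (𝓝 0))
    {w : ℕ → X (κ ⊕ κ) → ℝ} (hw : ∀ n, Sm (w n)) {C : ℝ} (hC : ∀ n, nrm volume (w n) ≤ C)
    (hC' : ∀ n c, nrm volume (D c (w n)) ≤ C) :
    Tendsto (fun n => ∫ q, f n q * (Th i q * D (Sum.inr i) (w n) q)) atTop (𝓝 0) := by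
  obtain ⟨K, hK0, hTK, hdec⟩ := decay i
  have hC0 : 0 ≤ C := (nrm_nonneg _).trans (hC 0)
  rw [Metric.tendsto_atTop]
  intro ε hε
  obtain ⟨M, hM⟩ := exists_nat_gt ((K * C) ^ 2 / (ε ^ 2 / 32))
  have hM0 : (0:ℝ) < M := lt_of_le_of_lt (by positivity) hM
  have hMn : 0 < M := Nat.cast_pos.1 hM0
  obtain ⟨L, hL⟩ := exists_nat_gt ((3 * K * C ^ 2 / t0) / (ε ^ 2 / 32))
  have hL0 : (0:ℝ) < L := lt_of_le_of_lt (by positivity) hL
  have hLn : 0 < L := Nat.cast_pos.1 hL0
  have hsq : ∀ n, √((K * C) ^ 2 / M + 3 * K * C ^ 2 / (L * |s n|)) ≤ ε / 4 := by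
    intro n
    apply Real.sqrt_le_iff.2
    refine ⟨by positivity, ?_⟩
    have h1 : (K * C) ^ 2 / M ≤ ε ^ 2 / 32 := by
      rw [div_lt_iff₀ (by positivity)] at hM
      rw [div_le_iff₀ hM0]
      linarith
    have h2 : 3 * K * C ^ 2 / (L * |s n|) ≤ ε ^ 2 / 32 := by
      have h3 : 3 * K * C ^ 2 / (L * |s n|) ≤ 3 * K * C ^ 2 / (L * t0) := by
        apply div_le_div_of_nonneg_left (by positivity) (by positivity)
        exact mul_le_mul_of_nonneg_left (hs n) hL0.le
      refine h3.trans ?_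
      rw [div_lt_iff₀ (by positivity), div_lt_iff₀ ht0] at hL
      rw [div_le_iff₀ (by positivity)]
      linarith
    have h3 : (ε / 4) ^ 2 = ε ^ 2 / 32 + ε ^ 2 / 32 := by ring
    linarith
  obtain ⟨B, hB⟩ : ∃ B : ℝ, B = M * L * (K * C) + 1 := ⟨_, rfl⟩
  have hB0 : 0 < B := by rw [hB]; positivity
  rw [Metric.tendsto_atTop] at hinv
  obtain ⟨N, hN⟩ := hinv (ε / (4 * B)) (by positivity)
  refine ⟨N, fun n hn => ?_⟩
  have h1 := hN n hn
  rw [Real.dist_eq, sub_zero, abs_of_nonneg (nrm_nonneg _)] at h1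
  have hsn : s n ≠ 0 := by
    intro h0
    have := hs n
    rw [h0, abs_zero] at this
    linarith
  have h2 := avg_bound i hK0 hTK hdec (hf n) (hf1 n) (hw n) (hC n) (hC' n) hsn h1.le M L hMn hLn
  rw [Real.dist_eq, sub_zero]
  refine lt_of_le_of_lt h2 ?_
  have h3 : (M:ℝ) * L * (ε / (4 * B)) * (K * C) ≤ ε / 4 := by
    have h4 : (M:ℝ) * L * (ε / (4 * B)) * (K * C) = (M * L * (K * C)) * ε / (4 * B) := by
      field_simp
    rw [h4, div_le_iff₀ (by positivity)]
    have h5 : (M:ℝ) * L * (K * C) ≤ B := by rw [hB]; linarith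
    nlinarith
  linarith [hsq n]

end Q69.SX
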