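import Mathlib

/-!
Parseval's formula on the torus, for the product of the Haar measures of the circle.
-/

set_option autoImplicit false

open MeasureTheory Filter Topology UnitAddTorus
open scoped ComplexConjugate

namespace Q69.SX

/-- product of Haar measures -/
noncomputable def mu0 (d : Type*) [Fintype d] : Measure (d → UnitAddCircle) :=
  Measure.pi (fun _ : d => (AddCircle.haarAddCircle : Measure UnitAddCircle))

variable {d : Type*} [Fintype d]

theorem parseval0 (g : (d → UnitAddCircle) → ℂ) (hg : MemLp g 2 (mu0 d)) :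
    HasSum (fun n : d → ℤ => ‖∫ q, mFourier (-n) q * g q ∂(mu0 d)‖ ^ 2)
      (∫ q, ‖g q‖ ^ 2 ∂(mu0 d)) := by
  obtain ⟨f, hf⟩ : ∃ f : Lp ℂ 2 (mu0 d), f = hg.toLp g := ⟨_, rfl⟩
  have hfg : (f : (d → UnitAddCircle) → ℂ) =ᵐ[mu0 d] g := by rw [hf]; exact hg.coeFn_toLp
  have h1 : HasSum (fun n : d → ℤ => ‖mFourierCoeff (f : (d → UnitAddCircle) → ℂ) n‖ ^ 2)
      (∫ q, ‖(f : (d → UnitAddCircle) → ℂ) q‖ ^ 2 ∂(mu0 d)) := hasSum_sq_mFourierCoeff f
  have h2 : ∫ q, ‖(f : (d → UnitAddCircle) → ℂ) q‖ ^ 2 ∂(mu0 d) = ∫ q, ‖g q‖ ^ 2 ∂(mu0 d) := by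
    refine integral_congr_ae ?_
    filter_upwards [hfg] with q hq
    rw [hq]
  have h3 : ∀ n : d → ℤ, mFourierCoeff (f : (d → UnitAddCircle) → ℂ) n =
      ∫ q, mFourier (-n) q * g q ∂(mu0 d) := by
    intro n
    have h4 : mFourierCoeff (f : (d → UnitAddCircle) → ℂ) n =
        ∫ q, mFourier (-n) q • (f : (d → UnitAddCircle) → ℂ) q ∂(mu0 d) := rfl
    rw [h4]
    refine integral_congr_ae ?_
    filter_upwards [hfg] with q hq
    rw [hq, smul_eq_mul]
  simp only [h3] at h1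
  rw [h2] at h1
  exact h1

theorem orth0 (m n : d → ℤ) :
    ∫ q, mFourier (-m) q * mFourier n q ∂(mu0 d) = if m = n then 1 else 0 := by
  have h1 := orthonormal_iff_ite.1 (orthonormal_mFourier (d := d)) m n
  simp only [mFourierLp, ContinuousMap.inner_toLp] at h1
  rw [← h1]
  refine integral_congr_ae (Eventually.of_forall fun q => ?_)
  simp only
  rw [mFourier_neg, mul_comm]

end Q69.SX
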