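import Pool.Agent.Q69.SX.Tor
import Pool.Agent.Q69.SX.Fou0
import Pool.Agent.Q69.SX.Decay

/-!
Trigonometric sums on the torus, and the representation of functions as sums of derivatives.
-/

set_option autoImplicit false

open MeasureTheory Filter Topology UnitAddTorus Real
open scoped ComplexConjugate ContDiff
open Q69.SM

namespace Q69.SX

variable {d : Type*} [Fintype d]

theorem vol_eq : (volume : Measure (X d)) = mu0 d := by
  unfold mu0
  rw [volume_pi]
  congr 1
  funext _
  rw [AddCircle.volume_eq_smul_haarAddCircle]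
  simp

theorem parseval (g : X d → ℂ) (hg : MemLp g 2 (volume : Measure (X d))) :
    HasSum (fun n : d → ℤ => ‖∫ q, mFourier (-n) q * g q‖ ^ 2) (∫ q, ‖g q‖ ^ 2) := by
  rw [vol_eq] at hg
  rw [vol_eq]
  exact parseval0 g hg

theorem orth (m n : d → ℤ) :
    ∫ q : X d, mFourier (-m) q * mFourier n q = if m = n then 1 else 0 := by
  rw [vol_eq]
  exact orth0 m n

/-- complex trigonometric sums -/
noncomputable def PS (F : Finset (d → ℤ)) (b : (d → ℤ) → ℂ) (q : X d) : ℂ :=
  ∑ n ∈ F, b n * mFourier n q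

/-- real parts of trigonometric sums -/
noncomputable def TS (F : Finset (d → ℤ)) (b : (d → ℤ) → ℂ) (q : X d) : ℝ := (PS F b q).re

theorem PS_cont (F : Finset (d → ℤ)) (b : (d → ℤ) → ℂ) : Continuous (PS F b) := by
  unfold PS
  exact continuous_finsetSum _ fun n _ => continuous_const.mul (mFourier n).continuous

theorem memLp_of_cont {g : X d → ℂ} (hg : Continuous g) : MemLp g 2 (volume : Measure (X d)) := by
  obtain ⟨M, hM⟩ := isCompact_univ.exists_bound_of_continuousOn hg.continuousOn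
  exact MemLp.of_bound hg.aestronglyMeasurable M (Eventually.of_forall fun q => hM q (Set.mem_univ q))

theorem int_PS (F : Finset (d → ℤ)) (b : (d → ℤ) → ℂ) (m : d → ℤ) :
    ∫ q : X d, mFourier (-m) q * PS F b q = if m ∈ F then b m else 0 := by
  classical
  have e : ∀ q : X d, mFourier (-m) q * PS F b q =
      ∑ n ∈ F, b n * (mFourier (-m) q * mFourier n q) := by
    intro q
    unfold PS
    rw [Finset.mul_sum]
    refine Finset.sum_congr rfl fun n _ => ?_
    ring
  have hint : ∀ n, Integrable (fun q : X d => b n * (mFourier (-m) q * mFourier n q)) := by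
    intro n
    have hc : Continuous (fun q : X d => b n * (mFourier (-m) q * mFourier n q)) :=
      continuous_const.mul ((mFourier (-m)).continuous.mul (mFourier n).continuous)
    exact (memLp_of_cont hc).integrable (by norm_num)
  simp only [e]
  rw [integral_finsetSum _ fun n _ => hint n]
  simp only [integral_const_mul, orth]
  simp

theorem int_norm_PS (F : Finset (d → ℤ)) (b : (d → ℤ) → ℂ) :
    ∫ q : X d, ‖PS F b q‖ ^ 2 = ∑ n ∈ F, ‖b n‖ ^ 2 := by
  classical
  have h1 := parseval (PS F b) (memLp_of_cont (PS_cont F b))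
  simp only [int_PS] at h1
  have h2 : HasSum (fun n : d → ℤ => ‖if n ∈ F then b n else 0‖ ^ 2)
      (∑ n ∈ F, ‖if n ∈ F then b n else 0‖ ^ 2) := by
    apply hasSum_sum_of_ne_finset_zero
    intro n hn
    simp [hn]
  rw [h1.unique h2]
  refine Finset.sum_congr rfl fun n hn => ?_
  rw [if_pos hn]

theorem re_sq_le (z : ℂ) : z.re ^ 2 ≤ ‖z‖ ^ 2 := by
  rw [← sq_abs z.re]
  exact pow_le_pow_left₀ (abs_nonneg _) (Complex.abs_re_le_norm z) 2

theorem TS_meas (F : Finset (d → ℤ)) (b : (d → ℤ) → ℂ) : Measurable (TS F b) :=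
  (Complex.continuous_re.comp (PS_cont F b)).measurable

theorem nrm_TS (F : Finset (d → ℤ)) (b : (d → ℤ) → ℂ) :
    nrm volume (TS F b) ^ 2 ≤ ∑ n ∈ F, ‖b n‖ ^ 2 := by
  rw [nrm_sq, ← int_norm_PS]
  have hi : Integrable (fun q : X d => ‖PS F b q‖ ^ 2) :=
    (memLp_of_cont (PS_cont F b)).integrable_norm_pow (by norm_num)
  refine integral_mono_of_nonneg (Eventually.of_forall fun q => sq_nonneg _) hi
    (Eventually.of_forall fun q => ?_)
  exact re_sq_le _

/-- Fourier coefficients of a real function -/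
noncomputable def fc (f : X d → ℝ) (n : d → ℤ) : ℂ := ∫ q, mFourier (-n) q * (f q : ℂ)

theorem memLp_of_L2 {f : X d → ℝ} (hf : L2 volume f) :
    MemLp (fun q => (f q : ℂ)) 2 (volume : Measure (X d)) := by
  have h1 : MemLp f 2 (volume : Measure (X d)) :=
    (memLp_two_iff_integrable_sq hf.1.aestronglyMeasurable).2 hf.2
  exact h1.ofReal

theorem parseval_real {f : X d → ℝ} (hf : L2 volume f) :
    HasSum (fun n : d → ℤ => ‖fc f n‖ ^ 2) (∫ q, f q ^ 2) := by
  have h1 := parseval _ (memLp_of_L2 hf)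
  have e : (fun q : X d => ‖(f q : ℂ)‖ ^ 2) = fun q => f q ^ 2 := by
    funext q
    rw [Complex.norm_real, Real.norm_eq_abs, sq_abs]
  rw [e] at h1
  exact h1

theorem bessel {f : X d → ℝ} (hf : L2 volume f) (F : Finset (d → ℤ)) :
    ∑ n ∈ F, ‖fc f n‖ ^ 2 ≤ nrm volume f ^ 2 := by
  rw [nrm_sq]
  exact sum_le_hasSum F (fun n _ => sq_nonneg _) (parseval_real hf)

theorem approx_TS {f : X d → ℝ} (hf : L2 volume f) {ε : ℝ} (hε : 0 < ε) :
    ∃ F : Finset (d → ℤ), nrm volume (fun q => f q - TS F (fc f) q) ≤ ε := by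
  classical
  have h1 := parseval_real hf
  obtain ⟨F, hF⟩ := (h1.eventually_const_lt (u := (∫ q, f q ^ 2) - ε ^ 2)
    (by nlinarith)).exists
  refine ⟨F, ?_⟩
  obtain ⟨g, hg⟩ : ∃ g : X d → ℂ, g = fun q => (f q : ℂ) - PS F (fc f) q := ⟨_, rfl⟩
  have hgm : MemLp g 2 (volume : Measure (X d)) := by
    rw [hg]; exact (memLp_of_L2 hf).sub (memLp_of_cont (PS_cont _ _))
  have h2 := parseval g hgm
  have hcoef : ∀ n : d → ℤ, ∫ q, mFourier (-n) q * g q = if n ∈ F then 0 else fc f n := by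
    intro n
    have i1 : Integrable (fun q : X d => mFourier (-n) q * (f q : ℂ)) := by
      have h3 : Integrable (fun q : X d => (f q : ℂ)) := (memLp_of_L2 hf).integrable (by norm_num)
      refine h3.bdd_mul (c := 1) (mFourier (-n)).continuous.aestronglyMeasurable
        (Eventually.of_forall fun q => ?_)
      have := (mFourier (-n)).norm_coe_le_norm q
      rwa [mFourier_norm] at this
    have i2 : Integrable (fun q : X d => mFourier (-n) q * PS F (fc f) q) :=
      (memLp_of_cont ((mFourier (-n)).continuous.mul (PS_cont F (fc f)))).integrable (by norm_num)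
    have e : ∀ q : X d, mFourier (-n) q * g q =
        mFourier (-n) q * (f q : ℂ) - mFourier (-n) q * PS F (fc f) q := by
      intro q
      rw [hg]
      ring
    simp only [e]
    rw [integral_sub i1 i2, int_PS]
    by_cases hn : n ∈ F
    · rw [if_pos hn, if_pos hn]
      unfold fc
      exact sub_self _
    · rw [if_neg hn, if_neg hn, sub_zero]
      rfl
  simp only [hcoef] at h2
  have h3 : HasSum (fun n : d → ℤ => ‖if n ∈ F then 0 else fc f n‖ ^ 2)
      ((∫ q, f q ^ 2) - ∑ n ∈ F, ‖fc f n‖ ^ 2) := by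
    have h4 : HasSum (fun n : d → ℤ => if n ∈ F then ‖fc f n‖ ^ 2 else 0)
        (∑ n ∈ F, if n ∈ F then ‖fc f n‖ ^ 2 else 0) := by
      apply hasSum_sum_of_ne_finset_zero
      intro n hn
      simp [hn]
    have h5 := h1.sub h4
    have e2 : ∑ n ∈ F, (if n ∈ F then ‖fc f n‖ ^ 2 else 0) = ∑ n ∈ F, ‖fc f n‖ ^ 2 :=
      Finset.sum_congr rfl fun n hn => if_pos hn
    rw [e2] at h5
    refine h5.congr_fun fun n => ?_
    by_cases hn : n ∈ F <;> simp [hn]
  have h4 : ∫ q, ‖g q‖ ^ 2 ≤ ε ^ 2 := by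
    rw [h2.unique h3]
    linarith
  refine Real.sqrt_le_iff.2 ⟨hε.le, le_trans ?_ h4⟩
  refine integral_mono_of_nonneg (Eventually.of_forall fun q => sq_nonneg _)
    (hgm.integrable_norm_pow (by norm_num)) (Eventually.of_forall fun q => ?_)
  have e : f q - TS F (fc f) q = (g q).re := by
    rw [hg]
    simp [TS]
  simp only
  rw [e]
  exact re_sq_le _

section deriv
variable [DecidableEq d]

theorem mF_sh (n : d → ℤ) (c : d) (t : ℝ) (q : X d) :
    mFourier n (sh c t q) = mFourier n q * Complex.exp (2 * π * Complex.I * n c * t) := by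
  have h1 : mFourier n (sh c t q) = ∏ e, fourier (n e) (sh c t q e) := rfl
  have h2 : mFourier n q = ∏ e, fourier (n e) (q e) := rfl
  have h3 : ∀ e, (fourier (n e) (sh c t q e) : ℂ) =
      fourier (n e) (q e) * fourier (n e) ((Pi.single c (t : UnitAddCircle) : X d) e) := by
    intro e
    unfold sh
    rw [Pi.add_apply, fourier_apply, fourier_apply, fourier_apply, smul_add,
      AddCircle.toCircle_add, Circle.coe_mul]
  rw [h1, h2]
  simp only [h3]
  rw [Finset.prod_mul_distrib]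
  congr 1
  rw [Finset.prod_eq_single c]
  · rw [Pi.single_eq_same, fourier_coe_apply]
    congr 1
    push_cast
    ring
  · intro e _ he
    rw [Pi.single_eq_of_ne he, fourier_eval_zero]
  · intro h
    exact absurd (Finset.mem_univ c) h

theorem mF_cov (n : d → ℤ) (p : d → ℝ) :
    mFourier n (cov p) = ∏ e, Complex.exp (2 * π * Complex.I * n e * p e) := by
  have h1 : mFourier n (cov p) = ∏ e, fourier (n e) (cov p e) := rfl
  rw [h1]
  refine Finset.prod_congr rfl fun e _ => ?_
  unfold cov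
  rw [fourier_coe_apply]
  congr 1
  push_cast
  ring

theorem Sm_TS (F : Finset (d → ℤ)) (b : (d → ℤ) → ℂ) : Sm (TS F b) := by
  unfold Sm TS PS
  simp only [mF_cov]
  have h1 : ContDiff ℝ ∞ (fun p : d → ℝ => ∑ n ∈ F, b n * ∏ e,
      Complex.exp (2 * π * Complex.I * n e * p e)) := by
    refine ContDiff.sum fun n _ => contDiff_const.mul (contDiff_prod fun e _ => ?_)
    have h2 : ContDiff ℝ ∞ (fun p : d → ℝ => ((p e : ℝ) : ℂ)) :=
      Complex.ofRealCLM.contDiff.comp (contDiff_apply ℝ ℝ e)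
    exact (contDiff_const.mul h2).cexp
  exact Complex.reCLM.contDiff.comp h1

theorem D_TS (F : Finset (d → ℤ)) (b : (d → ℤ) → ℂ) (c : d) (q : X d) :
    D c (TS F b) q = TS F (fun n => b n * (2 * π * Complex.I * n c)) q := by
  have h1 : HasDerivAt (fun t : ℝ => ∑ n ∈ F, b n * (mFourier n q *
      Complex.exp (2 * π * Complex.I * n c * t)))
      (∑ n ∈ F, b n * (2 * π * Complex.I * n c) * mFourier n q) 0 := by
    refine HasDerivAt.fun_sum fun n _ => ?_
    have h2 : HasDerivAt (fun t : ℝ => (2 * π * Complex.I * n c * (t : ℂ)))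
        (2 * π * Complex.I * n c) 0 := by
      have := (Complex.ofRealCLM.hasDerivAt (x := (0:ℝ))).const_mul (2 * π * Complex.I * n c)
      simpa using this
    have h3 := h2.cexp
    have h4 := (h3.const_mul (mFourier n q)).const_mul (b n)
    refine h4.congr_deriv ?_
    simp only [Complex.ofReal_zero, mul_zero, Complex.exp_zero, one_mul]
    ring
  have h2 : HasDerivAt (fun t : ℝ => (∑ n ∈ F, b n * (mFourier n q *
      Complex.exp (2 * π * Complex.I * n c * t))).re)
      (∑ n ∈ F, b n * (2 * π * Complex.I * n c) * mFourier n q).re 0 :=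
    Complex.reCLM.hasFDerivAt.comp_hasDerivAt (0:ℝ) h1
  have h3 : (fun t : ℝ => TS F b (sh c t q)) = fun t : ℝ => (∑ n ∈ F, b n * (mFourier n q *
      Complex.exp (2 * π * Complex.I * n c * t))).re := by
    funext t
    unfold TS PS
    simp only [mF_sh]
  unfold D
  rw [h3, h2.deriv]
  rfl

/-- squared length of a frequency -/
noncomputable def sz (n : d → ℤ) : ℝ := ∑ c, (n c : ℝ) ^ 2

omit [DecidableEq d] in
theorem sz_nonneg (n : d → ℤ) : 0 ≤ sz n := Finset.sum_nonneg fun _ _ => sq_nonneg _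

omit [DecidableEq d] in
theorem le_sz (n : d → ℤ) (c : d) : (n c : ℝ) ^ 2 ≤ sz n :=
  Finset.single_le_sum (f := fun c => (n c : ℝ) ^ 2) (fun _ _ => sq_nonneg _) (Finset.mem_univ c)

omit [DecidableEq d] in
theorem one_le_sz {n : d → ℤ} (hn : n ≠ 0) : 1 ≤ sz n := by
  obtain ⟨c, hc⟩ := Function.ne_iff.1 hn
  have h1 : (1:ℝ) ≤ (n c : ℝ) ^ 2 := by
    have h2 : 1 ≤ (n c) ^ 2 := by
      have : n c ≠ 0 := hc
      nlinarith [sq_nonneg (n c), Int.one_le_abs this, sq_abs (n c), abs_nonneg (n c)]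
    exact_mod_cast h2
  exact h1.trans (le_sz n c)

/-- the potentials -/
noncomputable def pot (b : (d → ℤ) → ℂ) (c : d) (n : d → ℤ) : ℂ :=
  b n * ((n c : ℂ) / (2 * π * Complex.I * (sz n : ℂ)))

theorem sum_D_pot (F : Finset (d → ℤ)) (h0 : (0 : d → ℤ) ∉ F) (b : (d → ℤ) → ℂ) (q : X d) :
    ∑ c, D c (TS F (pot b c)) q = TS F b q := by
  simp only [D_TS]
  unfold TS PS
  rw [← Complex.re_sum, Finset.sum_comm]
  congr 1
  refine Finset.sum_congr rfl fun n hn => ?_
  have hn0 : n ≠ 0 := fun h => h0 (h ▸ hn)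
  have h1 : (sz n : ℂ) ≠ 0 := by
    have := one_le_sz hn0
    exact Complex.ofReal_ne_zero.2 (ne_of_gt (by linarith))
  have h2 : (2 * π * Complex.I : ℂ) ≠ 0 := by
    simp [Real.pi_ne_zero]
  have h3 : ∀ c, pot b c n * (2 * π * Complex.I * n c) * mFourier n q =
      (b n * mFourier n q / (sz n : ℂ)) * ((n c : ℂ) ^ 2) := by
    intro c
    unfold pot
    field_simp
  simp only [h3]
  rw [← Finset.mul_sum]
  have h4 : ∑ c, (n c : ℂ) ^ 2 = (sz n : ℂ) := by
    unfold sz
    push_cast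
    rfl
  rw [h4]
  field_simp

omit [DecidableEq d] in
theorem norm_pot {n : d → ℤ} (hn : n ≠ 0) (b : (d → ℤ) → ℂ) (c : d) :
    ‖pot b c n‖ ^ 2 ≤ ‖b n‖ ^ 2 / sz n := by
  have h1 := one_le_sz hn
  have h2 := le_sz n c
  have e : ‖(n c : ℂ) / (2 * π * Complex.I * (sz n : ℂ))‖ = |(n c : ℝ)| / (2 * π * sz n) := by
    rw [norm_div, norm_mul, norm_mul, norm_mul, Complex.norm_I, Complex.norm_real,
      Complex.norm_real, Complex.norm_intCast, Real.norm_of_nonneg (sz_nonneg n),
      Real.norm_of_nonneg Real.pi_pos.le]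
    norm_num
  have key : ‖(n c : ℂ) / (2 * π * Complex.I * (sz n : ℂ))‖ ^ 2 ≤ 1 / sz n := by
    rw [e, div_pow, sq_abs, div_le_div_iff₀ (by positivity) (by linarith)]
    have h3 : 1 ≤ (2 * π) ^ 2 := by nlinarith [Real.pi_gt_three]
    rw [mul_pow, one_mul]
    have h4 : (n c : ℝ) ^ 2 * sz n ≤ sz n * sz n := mul_le_mul_of_nonneg_right h2 (sz_nonneg n)
    nlinarith [sq_nonneg (sz n)]
  unfold pot
  rw [norm_mul, mul_pow, div_eq_mul_one_div (‖b n‖ ^ 2)]
  exact mul_le_mul_of_nonneg_left key (sq_nonneg _)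

omit [DecidableEq d] in
theorem norm_pot_D {n : d → ℤ} (hn : n ≠ 0) (b : (d → ℤ) → ℂ) (c e : d) :
    ‖pot b c n * (2 * π * Complex.I * n e)‖ ^ 2 ≤ ‖b n‖ ^ 2 := by
  have h1 := one_le_sz hn
  have h2 := le_sz n c
  have h3 := le_sz n e
  have hz : (sz n : ℂ) ≠ 0 := Complex.ofReal_ne_zero.2 (ne_of_gt (by linarith))
  have hpi : (2 * π * Complex.I : ℂ) ≠ 0 := by
    simp [Real.pi_ne_zero]
  have e1 : pot b c n * (2 * π * Complex.I * n e) = b n * (((n c * n e : ℝ) / sz n : ℝ) : ℂ) := by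
    unfold pot
    push_cast
    field_simp
  rw [e1, norm_mul, Complex.norm_real, mul_pow, Real.norm_eq_abs, sq_abs, div_pow, mul_pow]
  have h4 : (n c : ℝ) ^ 2 * (n e : ℝ) ^ 2 ≤ sz n ^ 2 := by
    rw [sq (sz n)]
    exact mul_le_mul h2 h3 (sq_nonneg _) (sz_nonneg n)
  have h5 : (n c : ℝ) ^ 2 * (n e : ℝ) ^ 2 / sz n ^ 2 ≤ 1 := by
    rw [div_le_one (by positivity)]
    exact h4
  have h6 := mul_le_mul_of_nonneg_left h5 (sq_nonneg ‖b n‖)
  linarith

end deriv

end Q69.SX
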