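import Pool.Agent.Q69.SX.Null
import Pool.Agent.Q69.SM.NoMean2

/-!
The vector fields obtained from the shear, and the function in front of all derivatives.
-/

set_option autoImplicit false

open MeasureTheory Filter Topology Real
open scoped ContDiff
open Q69.SM

namespace Q69.SX

variable {κ : Type*} [Fintype κ] [DecidableEq κ]

/-- coefficients of the vector fields -/
noncomputable def AB (a : ℝ) (i : κ) : ℕ → (X (κ ⊕ κ) → ℝ) × (X (κ ⊕ κ) → ℝ)
  | 0 => (fun _ => 0, Th i)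
  | j + 1 => (fun q => (AB a i j).2 (SX a q),
      fun q => -(AB a i j).1 (SX a q) + (2 + a * Th i q) * (AB a i j).2 (SX a q))

theorem BS_AB {a : ℕ → ℝ} {R : ℝ} (ha : ∀ n, |a n| ≤ R) (i : κ) (j : ℕ) :
    BS (fun n => (AB (a n) i j).1) ∧ BS (fun n => (AB (a n) i j).2) := by
  induction j with
  | zero => exact ⟨BS.of_sm (Sm.const 0), BS.of_sm (Sm_Th i)⟩
  | succ j ih =>
    refine ⟨ih.2.compS ha, ?_⟩
    exact (ih.1.compS ha).neg.add
      (((BS.of_sm (Sm.const 2)).add ((BS.of_sm (Sm_Th i)).cmul ha)).mul (ih.2.compS ha))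

theorem Nul_chain {ψ : ℕ → ℕ → X (κ ⊕ κ) → ℝ} {N : ℕ} {a s : ℕ → ℝ} {R t0 : ℝ}
    (ha : ∀ n, |a n| ≤ R) (ht0 : 0 < t0) (hs : ∀ n, t0 ≤ |s n|)
    (hψ : ∀ k n, L2 volume (ψ k n)) (hψ1 : ∀ k n, nrm volume (ψ k n) ≤ 1)
    (hstep : ∀ k < N, Tendsto (fun n => nrm volume (fun q => ψ (k + 1) n q - ψ k n (SX (a n) q)))
      atTop (𝓝 0))
    (hW : ∀ k, 1 ≤ k → k ≤ N → Tendsto (fun n => nrm volume (fun q => ψ k n (WX (s n) q) - ψ k n q))
      atTop (𝓝 0)) (i : κ) (j k : ℕ) (hjk : j + 1 ≤ k) (hkN : k ≤ N) :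
    Nul (ψ k) i (fun n => (AB (a n) i j).1) (fun n => (AB (a n) i j).2) := by
  induction j generalizing k with
  | zero =>
    intro w C hw hC hw0
    obtain ⟨b, hb0, hb⟩ := bdd_of_tendsto hw0
    have hC0 : 0 ≤ C := (nrm_nonneg _).trans (hC 0 (Sum.inl i))
    have h1 := null_base i ht0 hs (hψ k) (hψ1 k) (hW k hjk hkN) hw (C := C + b)
      (fun n => by linarith [hb n]) (fun n c => by linarith [hC n c])
    refine h1.congr fun n => ?_
    congr 1
    funext q
    simp only [AB]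
    ring
  | succ j ih =>
    obtain ⟨k, rfl⟩ : ∃ k', k = k' + 1 := ⟨k - 1, by omega⟩
    have h1 := ih k (by omega) (by omega)
    have hB := BS_AB ha i j
    exact Nul.transport ha (hψ k) (hψ (k + 1)) h1 hB.1 hB.2 (hstep k (by omega))

/-- determinants of two of the vector fields -/
noncomputable def Dl (a : ℝ) (i : κ) (j k : ℕ) (q : X (κ ⊕ κ)) : ℝ :=
  (AB a i j).1 q * (AB a i k).2 q - (AB a i k).1 q * (AB a i j).2 q

omit [Fintype κ] [DecidableEq κ] in
theorem Dl_succ (a : ℝ) (i : κ) (j k : ℕ) (q : X (κ ⊕ κ)) :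
    Dl a i (j + 1) (k + 1) q = Dl a i j k (SX a q) := by
  simp only [Dl, AB]
  ring

omit [Fintype κ] [DecidableEq κ] in
theorem Dl_iter (a : ℝ) (i : κ) (j m : ℕ) (q : X (κ ⊕ κ)) :
    Dl a i j (j + m) q = Dl a i 0 m ((SX a)^[j] q) := by
  induction j generalizing q with
  | zero => simp
  | succ j ih =>
    rw [show j + 1 + m = (j + m) + 1 by ring, Dl_succ, ih, Function.iterate_succ_apply]

/-- the function in front of the derivatives at the `i`-th point -/
noncomputable def Ph (a : ℝ) (i : κ) (q : X (κ ⊕ κ)) : ℝ :=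
  ∑ j ∈ Finset.range 3, ∑ m ∈ Finset.range 3, Dl a i j (j + (m + 1)) q ^ 2

/-- the function in front of all derivatives -/
noncomputable def Pt (a : ℝ) (q : X (κ ⊕ κ)) : ℝ := ∏ i, Ph a i q

theorem BS_Ph {a : ℕ → ℝ} {R : ℝ} (ha : ∀ n, |a n| ≤ R) (i : κ) : BS (fun n => Ph (a n) i) := by
  unfold Ph
  refine BS.sum _ fun j _ => BS.sum _ fun m _ => ?_
  have h1 := BS_AB ha i j
  have h2 := BS_AB ha i (j + (m + 1))
  have h3 : BS (fun n q => Dl (a n) i j (j + (m + 1)) q) := (h1.1.mul h2.2).sub (h2.1.mul h1.2)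
  have h4 := h3.mul h3
  simpa only [sq] using h4

theorem Nul.sum {f : ℕ → X (κ ⊕ κ) → ℝ} {i : κ} {τ : Type*} (s : Finset τ)
    {A B : τ → ℕ → X (κ ⊕ κ) → ℝ} (hf : ∀ n, L2 volume (f n)) (h : ∀ k ∈ s, Nul f i (A k) (B k))
    (hA : ∀ k ∈ s, BS (A k)) (hB : ∀ k ∈ s, BS (B k)) :
    Nul f i (fun n q => ∑ k ∈ s, A k n q) (fun n q => ∑ k ∈ s, B k n q) := by
  classical
  induction s using Finset.induction_on with
  | empty =>
    intro w C _ _ _
    simp
  | insert b s hb ih =>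
    simp only [Finset.sum_insert hb]
    exact Nul.add hf (h b (Finset.mem_insert_self b s))
      (ih (fun k hk => h k (Finset.mem_insert_of_mem hk))
        (fun k hk => hA k (Finset.mem_insert_of_mem hk))
        (fun k hk => hB k (Finset.mem_insert_of_mem hk)))
      (hA b (Finset.mem_insert_self b s)) (hB b (Finset.mem_insert_self b s))
      (BS.sum s fun k hk => hA k (Finset.mem_insert_of_mem hk))
      (BS.sum s fun k hk => hB k (Finset.mem_insert_of_mem hk))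

theorem Nul_Ph {f : ℕ → X (κ ⊕ κ) → ℝ} {a : ℕ → ℝ} {R : ℝ} (ha : ∀ n, |a n| ≤ R) (i : κ)
    (hf : ∀ n, L2 volume (f n)) (hf1 : ∀ n, nrm volume (f n) ≤ 1)
    (h : ∀ j ≤ 5, Nul f i (fun n => (AB (a n) i j).1) (fun n => (AB (a n) i j).2)) :
    Nul f i (fun n => Ph (a n) i) (fun _ _ => 0) ∧
    Nul f i (fun _ _ => 0) (fun n => Ph (a n) i) := by
  have hz : BS (fun (_ : ℕ) (_ : X (κ ⊕ κ)) => (0:ℝ)) := BS.of_sm (Sm.const 0)
  have key : ∀ j ∈ Finset.range 3, ∀ m ∈ Finset.range 3,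
      Nul f i (fun n q => Dl (a n) i j (j + (m + 1)) q ^ 2) (fun _ _ => 0) ∧
      Nul f i (fun _ _ => 0) (fun n q => Dl (a n) i j (j + (m + 1)) q ^ 2) := by
    intro j hj m hm
    have hj' := Finset.mem_range.1 hj
    have hm' := Finset.mem_range.1 hm
    have h1 := BS_AB ha i j
    have h2 := BS_AB ha i (j + (m + 1))
    exact Nul.cramer hf hf1 (h j (by omega)) (h (j + (m + 1)) (by omega)) h1.1 h1.2 h2.1 h2.2
  have hb : ∀ j m, BS (fun n q => Dl (a n) i j (j + (m + 1)) q ^ 2) := by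
    intro j m
    have h1 := BS_AB ha i j
    have h2 := BS_AB ha i (j + (m + 1))
    have h3 : BS (fun n q => Dl (a n) i j (j + (m + 1)) q) := (h1.1.mul h2.2).sub (h2.1.mul h1.2)
    have h4 := h3.mul h3
    simpa only [sq] using h4
  constructor
  · have h1 : ∀ j ∈ Finset.range 3, Nul f i
        (fun n q => ∑ m ∈ Finset.range 3, Dl (a n) i j (j + (m + 1)) q ^ 2)
        (fun n q => ∑ m ∈ Finset.range 3, (0:ℝ)) := fun j hj =>
      Nul.sum (Finset.range 3) (A := fun m n q => Dl (a n) i j (j + (m + 1)) q ^ 2)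
        (B := fun _ _ _ => 0) hf (fun m hm => (key j hj m hm).1) (fun m _ => hb j m)
        (fun _ _ => hz)
    have h2 := Nul.sum (Finset.range 3)
      (A := fun j n q => ∑ m ∈ Finset.range 3, Dl (a n) i j (j + (m + 1)) q ^ 2)
      (B := fun _ _ _ => ∑ _m ∈ Finset.range 3, (0:ℝ)) hf h1
      (fun j _ => BS.sum _ fun m _ => hb j m) (fun _ _ => BS.sum _ fun _ _ => hz)
    exact h2.congr (fun n q => rfl) (fun n q => by simp)
  · have h1 : ∀ j ∈ Finset.range 3, Nul f i (fun n q => ∑ m ∈ Finset.range 3, (0:ℝ))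
        (fun n q => ∑ m ∈ Finset.range 3, Dl (a n) i j (j + (m + 1)) q ^ 2) := fun j hj =>
      Nul.sum (Finset.range 3) (B := fun m n q => Dl (a n) i j (j + (m + 1)) q ^ 2)
        (A := fun _ _ _ => 0) hf (fun m hm => (key j hj m hm).2) (fun _ _ => hz)
        (fun m _ => hb j m)
    have h2 := Nul.sum (Finset.range 3)
      (B := fun j n q => ∑ m ∈ Finset.range 3, Dl (a n) i j (j + (m + 1)) q ^ 2)
      (A := fun _ _ _ => ∑ _m ∈ Finset.range 3, (0:ℝ)) hf h1
      (fun _ _ => BS.sum _ fun _ _ => hz) (fun j _ => BS.sum _ fun m _ => hb j m)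
    exact h2.congr (fun n q => by simp) (fun n q => rfl)

/-- all derivatives, with the common factor -/
theorem null_all {f : ℕ → X (κ ⊕ κ) → ℝ} {a : ℕ → ℝ} {R : ℝ} (ha : ∀ n, |a n| ≤ R)
    (hf : ∀ n, L2 volume (f n)) (hf1 : ∀ n, nrm volume (f n) ≤ 1)
    (h : ∀ i : κ, ∀ j ≤ 5, Nul f i (fun n => (AB (a n) i j).1) (fun n => (AB (a n) i j).2))
    (c : κ ⊕ κ) {w : ℕ → X (κ ⊕ κ) → ℝ} {C : ℝ} (hw : ∀ n, Sm (w n))
    (hC : ∀ n c, nrm volume (D c (w n)) ≤ C)
    (hw0 : Tendsto (fun n => nrm volume (w n)) atTop (𝓝 0)) :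
    Tendsto (fun n => ∫ q, f n q * (Pt (a n) q * D c (w n) q)) atTop (𝓝 0) := by
  have hz : BS (fun (_ : ℕ) (_ : X (κ ⊕ κ)) => (0:ℝ)) := BS.of_sm (Sm.const 0)
  have hrest : ∀ i : κ, BS (fun n q => ∏ j ∈ Finset.univ.erase i, Ph (a n) j q) := fun i =>
    BS.prod _ fun j _ => BS_Ph ha j
  have hPt : ∀ (i : κ) n q, (∏ j ∈ Finset.univ.erase i, Ph (a n) j q) * Ph (a n) i q =
      Pt (a n) q := by
    intro i n q
    unfold Pt
    rw [mul_comm]
    exact Finset.mul_prod_erase Finset.univ (fun j => Ph (a n) j q) (Finset.mem_univ i)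
  rcases c with i | i
  · have h1 := (Nul_Ph ha i hf hf1 (h i)).1
    have h2 := Nul.mul hf hf1 h1 (BS_Ph ha i) hz (hrest i)
    have h3 := h2 w C hw hC hw0
    refine h3.congr fun n => ?_
    congr 1
    funext q
    simp only [mul_zero, zero_mul, add_zero]
    rw [hPt]
  · have h1 := (Nul_Ph ha i hf hf1 (h i)).2
    have h2 := Nul.mul hf hf1 h1 hz (BS_Ph ha i) (hrest i)
    have h3 := h2 w C hw hC hw0
    refine h3.congr fun n => ?_
    congr 1
    funext q
    simp only [mul_zero, zero_mul, zero_add]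
    rw [hPt]

/-- three consecutive zeros of the cosine are impossible -/
theorem no_three {a : ℝ} (ha : sin (2 * π * a) ≠ 0) {x y : UnitAddCircle} (h1 : cs x = 0)
    (h2 : cs y = 0) (h3 : cs (x + x - y + ((a * sn x : ℝ) : UnitAddCircle)) = 0) : False := by
  obtain ⟨R, hR⟩ : ∃ R, R = |a| := ⟨_, rfl⟩
  have hR0 : 0 ≤ R := by rw [hR]; exact abs_nonneg _
  obtain ⟨σ, hσ⟩ : ∃ σ, σ = |sin (2 * π * a)| := ⟨_, rfl⟩
  have hσ0 : 0 < σ := by rw [hσ]; exact abs_pos.2 ha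
  obtain ⟨η, hη⟩ : ∃ η : ℝ, η = min (1 / (20 * (1 + R))) (σ / 20) := ⟨_, rfl⟩
  have hη0 : 0 < η := by rw [hη]; positivity
  have hη1 : η ≤ 1 / (20 * (1 + R)) := by rw [hη]; exact min_le_left _ _
  have hη2 : η ≤ σ / 20 := by rw [hη]; exact min_le_right _ _
  have hη3 : η * (20 * (1 + R)) ≤ 1 := by rwa [le_div_iff₀ (by positivity)] at hη1
  have hRη0 : 0 ≤ R * η := by positivity
  have hη4 : η ≤ 1 / 20 := by nlinarith
  have hRη : R * η ≤ 1 / 20 := by nlinarith
  have hπ := Real.pi_lt_four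
  have hπ0 := Real.pi_pos
  have hη5 : 2 * π * R * η ≤ 1 := by
    have : 2 * π * R * η = 2 * π * (R * η) := by ring
    rw [this]
    nlinarith
  exact trig (a := a) (R := R) (η := η) hR.ge hη0 hη4 hη5 hσ.le (by linarith)
    (by rw [h1, abs_zero]; exact hη0) (by rw [h2, abs_zero]; exact hη0)
    (by rw [h3, abs_zero]; exact hη0)

omit [Fintype κ] [DecidableEq κ] in
theorem no_three' {a : ℝ} (ha : sin (2 * π * a) ≠ 0) (i : κ) (q : X (κ ⊕ κ)) :
    Th i q ≠ 0 ∨ Th i (SX a q) ≠ 0 ∨ Th i (SX a (SX a q)) ≠ 0 := by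
  by_contra hcon
  push Not at hcon
  obtain ⟨h1, h2, h3⟩ := hcon
  have hz : ∀ x, th x = 0 → cs x = 0 := by
    intro x hx
    unfold th at hx
    have hp : (2 * π : ℝ) ≠ 0 := by positivity
    exact (mul_eq_zero.1 hx).resolve_left hp
  have g1 := hz _ h1
  have g2 := hz _ h2
  have g3 := hz _ h3
  exact no_three ha g2 g1 g3

omit [Fintype κ] [DecidableEq κ] in
theorem exists_Dl {a : ℝ} (ha : sin (2 * π * a) ≠ 0) (i : κ) (q : X (κ ⊕ κ)) (hq : Th i q ≠ 0) :
    ∃ m < 3, Dl a i 0 (m + 1) q ≠ 0 := by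
  by_cases h1 : Th i (SX a q) = 0
  · by_cases h2 : Th i (SX a (SX a q)) = 0
    · refine ⟨2, by norm_num, ?_⟩
      have h3 : Th i (SX a (SX a (SX a q))) ≠ 0 := by
        rcases no_three' ha i (SX a q) with h | h | h
        · exact absurd h1 h
        · exact absurd h2 h
        · exact h
      have e : Dl a i 0 (2 + 1) q = -3 * (Th i q * Th i (SX a (SX a (SX a q)))) := by
        simp only [Dl, AB]
        rw [h1, h2]
        ring
      rw [e]
      exact mul_ne_zero (by norm_num) (mul_ne_zero hq h3)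
    · refine ⟨1, by norm_num, ?_⟩
      have e : Dl a i 0 (1 + 1) q = -2 * (Th i q * Th i (SX a (SX a q))) := by
        simp only [Dl, AB]
        rw [h1]
        ring
      rw [e]
      exact mul_ne_zero (by norm_num) (mul_ne_zero hq h2)
  · refine ⟨0, by norm_num, ?_⟩
    have e : Dl a i 0 (0 + 1) q = -1 * (Th i q * Th i (SX a q)) := by
      simp only [Dl, AB]
      ring
    rw [e]
    exact mul_ne_zero (by norm_num) (mul_ne_zero hq h1)

omit [Fintype κ] [DecidableEq κ] in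
theorem Ph_pos {a : ℝ} (ha : sin (2 * π * a) ≠ 0) (i : κ) (q : X (κ ⊕ κ)) : 0 < Ph a i q := by
  have key : ∀ j < 3, Th i ((SX a)^[j] q) ≠ 0 → 0 < Ph a i q := by
    intro j hj hT
    obtain ⟨m, hm, hD⟩ := exists_Dl ha i _ hT
    rw [← Dl_iter] at hD
    have h1 : 0 < Dl a i j (j + (m + 1)) q ^ 2 := by positivity
    have h2 : Dl a i j (j + (m + 1)) q ^ 2 ≤
        ∑ m ∈ Finset.range 3, Dl a i j (j + (m + 1)) q ^ 2 :=
      Finset.single_le_sum (f := fun m => Dl a i j (j + (m + 1)) q ^ 2)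
        (fun _ _ => sq_nonneg _) (Finset.mem_range.2 hm)
    have h3 : ∑ m ∈ Finset.range 3, Dl a i j (j + (m + 1)) q ^ 2 ≤ Ph a i q :=
      Finset.single_le_sum (f := fun j => ∑ m ∈ Finset.range 3, Dl a i j (j + (m + 1)) q ^ 2)
        (fun _ _ => Finset.sum_nonneg fun _ _ => sq_nonneg _) (Finset.mem_range.2 hj)
    linarith
  rcases no_three' ha i q with h | h | h
  · exact key 0 (by norm_num) h
  · exact key 1 (by norm_num) h
  · exact key 2 (by norm_num) h

omit [Fintype κ] [DecidableEq κ] in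
theorem cont_SX : Continuous (fun z : ℝ × X (κ ⊕ κ) => SX z.1 z.2) := by
  refine continuous_pi ?_
  have hpr : ∀ i : κ, Continuous (fun z : ℝ × X (κ ⊕ κ) => S z.1 (pr i z.2)) := by
    intro i
    have h1 : Continuous (fun z : ℝ × X (κ ⊕ κ) => (z.1, pr i z.2)) := by
      unfold pr
      fun_prop
    exact continuous_S.comp h1
  rintro (i | i)
  · exact continuous_fst.comp (hpr i)
  · exact continuous_snd.comp (hpr i)

omit [Fintype κ] [DecidableEq κ] in
theorem cont_Th (i : κ) : Continuous (fun z : ℝ × X (κ ⊕ κ) => Th i z.2) := by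
  unfold Th th
  exact continuous_const.mul (continuous_cs.comp (by fun_prop))

omit [Fintype κ] [DecidableEq κ] in
theorem cont_AB (i : κ) (j : ℕ) : Continuous (fun z : ℝ × X (κ ⊕ κ) => (AB z.1 i j).1 z.2) ∧
    Continuous (fun z : ℝ × X (κ ⊕ κ) => (AB z.1 i j).2 z.2) := by
  induction j with
  | zero => exact ⟨continuous_const, cont_Th i⟩
  | succ j ih =>
    have hS : Continuous (fun z : ℝ × X (κ ⊕ κ) => (z.1, SX z.1 z.2)) :=
      continuous_fst.prodMk cont_SX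
    have h1 : Continuous (fun z : ℝ × X (κ ⊕ κ) => (AB z.1 i j).1 (SX z.1 z.2)) := ih.1.comp hS
    have h2 : Continuous (fun z : ℝ × X (κ ⊕ κ) => (AB z.1 i j).2 (SX z.1 z.2)) := ih.2.comp hS
    refine ⟨h2, ?_⟩
    have h3 := cont_Th (κ := κ) i
    exact h1.neg.add ((continuous_const.add (continuous_fst.mul h3)).mul h2)

omit [Fintype κ] [DecidableEq κ] in
theorem cont_Ph (i : κ) : Continuous (fun z : ℝ × X (κ ⊕ κ) => Ph z.1 i z.2) := by
  unfold Ph Dl
  refine continuous_finsetSum _ fun j _ => continuous_finsetSum _ fun m _ => ?_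
  exact (((cont_AB i j).1.mul (cont_AB i _).2).sub ((cont_AB i _).1.mul (cont_AB i j).2)).pow 2

omit [DecidableEq κ] in
/-- uniform lower bound -/
theorem Pt_lower (R σ : ℝ) (hσ : 0 < σ) : ∃ c : ℝ, 0 < c ∧ ∀ a : ℝ, |a| ≤ R →
    σ ≤ |sin (2 * π * a)| → ∀ q : X (κ ⊕ κ), c ≤ Pt a q := by
  obtain ⟨K, hK⟩ : ∃ K : Set ℝ, K = Metric.closedBall 0 R ∩ {a | σ ≤ |sin (2 * π * a)|} := ⟨_, rfl⟩
  have hKc : IsCompact K := by
    rw [hK]
    refine (isCompact_closedBall 0 R).inter_right ?_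
    exact isClosed_le continuous_const (by fun_prop)
  have hKX : IsCompact (K ×ˢ (Set.univ : Set (X (κ ⊕ κ)))) := hKc.prod isCompact_univ
  have hKsin : ∀ a ∈ K, sin (2 * π * a) ≠ 0 := by
    intro a ha h0
    rw [hK] at ha
    have h1 : σ ≤ |sin (2 * π * a)| := ha.2
    rw [h0, abs_zero] at h1
    linarith
  have hone : ∀ i : κ, ∃ c : ℝ, 0 < c ∧ ∀ a ∈ K, ∀ q : X (κ ⊕ κ), c ≤ Ph a i q := by
    intro i
    obtain ⟨F, hF⟩ : ∃ F : ℝ × X (κ ⊕ κ) → ℝ, F = fun z => Ph z.1 i z.2 := ⟨_, rfl⟩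
    have hFc : Continuous F := by rw [hF]; exact cont_Ph i
    have hFe : ∀ a q, F (a, q) = Ph a i q := fun a q => by rw [hF]
    clear hF
    by_cases hne : (K ×ˢ (Set.univ : Set (X (κ ⊕ κ)))).Nonempty
    · obtain ⟨z, hz, hmin⟩ := hKX.exists_isMinOn hne hFc.continuousOn
      have hmin' := isMinOn_iff.1 hmin
      obtain ⟨a0, q0⟩ := z
      have hz1 : a0 ∈ K := (Set.mem_prod.1 hz).1
      refine ⟨Ph a0 i q0, Ph_pos (hKsin a0 hz1) i q0, fun a ha q => ?_⟩
      have h2 := hmin' (a, q) (Set.mk_mem_prod ha (Set.mem_univ q))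
      rw [hFe, hFe] at h2
      exact h2
    · refine ⟨1, one_pos, fun a ha q => ?_⟩
      exact absurd ⟨(a, q), Set.mk_mem_prod ha (Set.mem_univ q)⟩ hne
  choose c hc0 hc using hone
  refine ⟨∏ i, c i, Finset.prod_pos fun i _ => hc0 i, fun a ha hsin q => ?_⟩
  have haK : a ∈ K := by
    rw [hK]
    refine ⟨?_, hsin⟩
    rw [Metric.mem_closedBall, Real.dist_eq, sub_zero]
    exact ha
  exact Finset.prod_le_prod (fun i _ => (hc0 i).le) fun i _ => hc i a haK q

end Q69.SX
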