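import Pool.Agent.Q69.SX.Low
import Pool.Agent.Q69.SX.Phi
import Pool.Agent.Q69.SM.Gap

/-!
The gap for mean zero functions of many points.
-/

set_option autoImplicit false

open MeasureTheory Filter Topology Real
open scoped ContDiff
open Q69.SM

namespace Q69.SX

variable {κ : Type*} [Fintype κ] [DecidableEq κ]

theorem seq_contra {ψ : ℕ → ℕ → X (κ ⊕ κ) → ℝ} {a s : ℕ → ℝ} {R t0 σ : ℝ}
    (hσ : 0 < σ) (ht0 : 0 < t0)
    (ha : ∀ n, |a n| ≤ R) (hsin : ∀ n, σ ≤ |sin (2 * π * a n)|) (hs : ∀ n, t0 ≤ |s n|)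
    (hψ : ∀ k n, L2 volume (ψ k n)) (hψ1 : ∀ k n, nrm volume (ψ k n) ≤ 1)
    (h0 : ∀ k n, fc (ψ k n) 0 = 0)
    (hstep : ∀ k < 6, Tendsto (fun n => nrm volume (fun q => ψ (k + 1) n q - ψ k n (SX (a n) q)))
      atTop (𝓝 0))
    (hW : ∀ k, 1 ≤ k → k ≤ 6 → Tendsto (fun n => nrm volume (fun q => ψ k n (WX (s n) q) - ψ k n q))
      atTop (𝓝 0))
    (hlb : ∀ n, 1 / 2 ≤ nrm volume (ψ 6 n)) : False := by
  have hN : ∀ i : κ, ∀ j ≤ 5, Nul (ψ 6) i (fun n => (AB (a n) i j).1) (fun n => (AB (a n) i j).2) :=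
    fun i j hj => Nul_chain (N := 6) ha ht0 hs hψ hψ1 hstep hW i j 6 (by omega) le_rfl
  have hA : ∀ k, 1 ≤ k → k ≤ 6 → ∀ (m : κ ⊕ κ → ℤ) (i : κ), m (Sum.inr i) ≠ 0 → ∀ b : ℂ,
      Tendsto (fun n => ∫ q, ψ k n q * ch m b q) atTop (𝓝 0) := fun k h1 h6 m i hm b =>
    lowA i ht0 hs (hψ k) (hψ1 k) (hW k h1 h6) m hm b
  have hlow : ∀ m : κ ⊕ κ → ℤ, m ≠ 0 → Tendsto (fun n => fc (ψ 6 n) m) atTop (𝓝 0) := by
    intro m hm
    refine fc_tendsto (hψ 6) m fun b => ?_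
    by_cases hr : ∃ i, (-m) (Sum.inr i) ≠ 0
    · obtain ⟨i, hi⟩ := hr
      exact hA 6 (by norm_num) le_rfl (-m) i hi b
    · push Not at hr
      obtain ⟨i, hi⟩ : ∃ i, (-m) (Sum.inl i) ≠ 0 := by
        by_contra hcon
        push Not at hcon
        apply hm
        have : -m = 0 := by
          funext e
          rcases e with i | i
          · exact hcon i
          · exact hr i
        exact neg_eq_zero.1 this
      exact lowB (hψ 5) (hψ 6) (hstep 5 (by norm_num)) (hA 5 (by norm_num) (by norm_num))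
        (-m) hr i hi b
  obtain ⟨u, huS, hu1, hu0, hus⟩ := riesz (hψ 6) (hψ1 6) (h0 6) hlow
  have hBS : BS (fun n q => ∏ i : κ, Ph (a n) i q) := BS.prod _ fun i _ => BS_Ph ha i
  obtain ⟨hPS, M, hM0, hM, -⟩ := hBS
  change ∀ n, Sm (Pt (a n)) at hPS
  change ∀ n q, |Pt (a n) q| ≤ M at hM
  obtain ⟨c0, hc0, hlow0⟩ := Pt_lower (κ := κ) R σ hσ
  have hT1 : Tendsto (fun n => ∑ c, ∫ q, ψ 6 n q * (Pt (a n) q * D c (u c n) q)) atTop (𝓝 0) := by
    have h1 : Tendsto (fun n => ∑ c, ∫ q, ψ 6 n q * (Pt (a n) q * D c (u c n) q)) atTop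
        (𝓝 (∑ _c : κ ⊕ κ, (0:ℝ))) := tendsto_finset_sum _ fun c _ =>
      null_all ha (hψ 6) (hψ1 6) hN c (C := 1) (huS c) (fun n e => hu1 c n e) (hu0 c)
    simpa using h1
  have hLsum : ∀ n, L2 volume (fun q => ∑ c, D c (u c n) q) := fun n =>
    L2.sum _ fun c _ => ((huS c n).D c).L2
  have hLd : ∀ n, L2 volume (fun q => ψ 6 n q - ∑ c, D c (u c n) q) := fun n =>
    L2.sub (hψ 6 n) (hLsum n)
  have hT2 : Tendsto (fun n => ∫ q, ψ 6 n q * (Pt (a n) q * (ψ 6 n q - ∑ c, D c (u c n) q))) atTop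
      (𝓝 0) := by
    have hM' := hus.const_mul M
    rw [mul_zero] at hM'
    refine squeeze_zero_norm (fun n => ?_) hM'
    rw [Real.norm_eq_abs]
    have hb := L2.bmul (hLd n) (hPS n).measurable (hM n)
    refine (cs_ineq (hψ 6 n) hb).trans ?_
    have h1 := nrm_bmul (hLd n) (hPS n).measurable hM0 (hM n)
    have h2 := mul_le_mul (hψ1 6 n) h1 (nrm_nonneg _) zero_le_one
    rw [one_mul] at h2
    exact h2
  have e : ∀ n, ∫ q, ψ 6 n q * (Pt (a n) q * ψ 6 n q) =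
      (∑ c, ∫ q, ψ 6 n q * (Pt (a n) q * D c (u c n) q)) +
        ∫ q, ψ 6 n q * (Pt (a n) q * (ψ 6 n q - ∑ c, D c (u c n) q)) := by
    intro n
    have i1 : ∀ c : κ ⊕ κ, Integrable (fun q => ψ 6 n q * (Pt (a n) q * D c (u c n) q)) :=
      fun c => L2.int_mul (hψ 6 n) (L2.bmul ((huS c n).D c).L2 (hPS n).measurable (hM n))
    have i2 : Integrable (fun q => ψ 6 n q * (Pt (a n) q * (ψ 6 n q - ∑ c, D c (u c n) q))) :=
      L2.int_mul (hψ 6 n) (L2.bmul (hLd n) (hPS n).measurable (hM n))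
    rw [← integral_finsetSum _ fun c _ => i1 c, ← integral_add (integrable_finsetSum _ fun c _ =>
      i1 c) i2]
    congr 1
    funext q
    rw [← Finset.mul_sum, ← Finset.mul_sum]
    ring
  have hT3 := hT1.add hT2
  rw [add_zero] at hT3
  have hT4 : Tendsto (fun n => ∫ q, ψ 6 n q * (Pt (a n) q * ψ 6 n q)) atTop (𝓝 0) :=
    hT3.congr fun n => (e n).symm
  have hge : ∀ n, c0 / 4 ≤ ∫ q, ψ 6 n q * (Pt (a n) q * ψ 6 n q) := by
    intro n
    have i1 : Integrable (fun q => ψ 6 n q * (Pt (a n) q * ψ 6 n q)) :=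
      L2.int_mul (hψ 6 n) (L2.bmul (hψ 6 n) (hPS n).measurable (hM n))
    have h1 : ∫ q, c0 * ψ 6 n q ^ 2 ≤ ∫ q, ψ 6 n q * (Pt (a n) q * ψ 6 n q) := by
      refine integral_mono ((hψ 6 n).2.const_mul c0) i1 fun q => ?_
      simp only
      have h2 := hlow0 (a n) (ha n) (hsin n) q
      have h3 := mul_le_mul_of_nonneg_right h2 (sq_nonneg (ψ 6 n q))
      calc _ ≤ _ := h3
        _ = _ := by ring
    rw [integral_const_mul, ← nrm_sq] at h1
    have h4 := hlb n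
    have h5 : 1 / 4 ≤ nrm volume (ψ 6 n) ^ 2 := by nlinarith
    have h6 := mul_le_mul_of_nonneg_left h5 hc0.le
    linarith
  have := ge_of_tendsto' hT4 hge
  linarith

theorem W_of_pair {f g : X (κ ⊕ κ) → ℝ} (hf : L2 volume f) (hg : L2 volume g) (a b : ℝ) :
    nrm volume (fun q => g (WX (b - a) q) - g q) ≤
      nrm volume (fun q => g q - f (SX a q)) + nrm volume (fun q => g q - f (SX b q)) := by
  have h1 := L2.sub hg (L2.comp hf (mp_SX a))
  have h2 := L2.sub hg (L2.comp hf (mp_SX b))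
  rw [← nrm_comp h1 (mp_WX (b - a))]
  have h3 := nrm_sub_le (L2.comp h1 (mp_WX (b - a))) h2
  refine le_trans (le_of_eq ?_) h3
  congr 1
  funext q
  rw [SX_WX]
  ring

omit [DecidableEq κ] in
theorem fc_zero {f : X (κ ⊕ κ) → ℝ} (h : ∫ q, f q = 0) : fc f 0 = 0 := by
  unfold fc
  have : ∀ q : X (κ ⊕ κ), UnitAddTorus.mFourier (-0) q * (f q : ℂ) = (f q : ℂ) := by
    intro q
    rw [neg_zero, UnitAddTorus.mFourier_zero]
    simp
  simp only [this]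
  have e : ∫ q : X (κ ⊕ κ), ((f q : ℝ) : ℂ) = ((∫ q, f q : ℝ) : ℂ) := integral_ofReal
  rw [h, Complex.ofReal_zero] at e
  exact e

/-- two maps: uniform separation -/
theorem pair_gap (R t0 σ : ℝ) (ht0 : 0 < t0) (hσ : 0 < σ) :
    ∃ ε : ℝ, 0 < ε ∧ ∀ a b : ℝ, |a| ≤ R → σ ≤ |sin (2 * π * a)| → t0 ≤ |b - a| →
      ∀ f : X (κ ⊕ κ) → ℝ, L2 volume f → ∫ q, f q = 0 →
        ε * nrm volume f ≤ nrm volume (fun q => f (SX a q) - f q) +
          nrm volume (fun q => f (SX b q) - f q) := by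
  by_contra hcon
  push Not at hcon
  have hc : ∀ n : ℕ, ∃ a b : ℝ, |a| ≤ R ∧ σ ≤ |sin (2 * π * a)| ∧ t0 ≤ |b - a| ∧
      ∃ f : X (κ ⊕ κ) → ℝ, L2 volume f ∧ ∫ q, f q = 0 ∧ nrm volume f = 1 ∧
        nrm volume (fun q => f q - f (SX a q)) + nrm volume (fun q => f q - f (SX b q)) <
          1 / ((n:ℝ) + 1) := by
    intro n
    obtain ⟨a, b, h1, h2, h3, f, hf, hf0, hlt⟩ := hcon (1 / ((n:ℝ) + 1)) (by positivity)
    refine ⟨a, b, h1, h2, h3, ?_⟩
    have hpos : 0 < nrm volume f := by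
      by_contra h0
      have h4 : nrm volume f = 0 := le_antisymm (not_lt.1 h0) (nrm_nonneg _)
      rw [h4, mul_zero] at hlt
      have h5 := nrm_nonneg (μ := volume) (fun q => f (SX a q) - f q)
      have h6 := nrm_nonneg (μ := volume) (fun q => f (SX b q) - f q)
      linarith
    obtain ⟨r, hr⟩ : ∃ r, r = (nrm volume f)⁻¹ := ⟨_, rfl⟩
    have hr0 : 0 < r := by rw [hr]; positivity
    refine ⟨fun q => r * f q, L2.cmul hf r, ?_, ?_, ?_⟩
    · rw [integral_const_mul, hf0, mul_zero]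
    · rw [nrm_cmul, abs_of_pos hr0, hr]
      field_simp
    · have e : ∀ a : ℝ, nrm volume (fun q => r * f q - r * f (SX a q)) =
          r * nrm volume (fun q => f (SX a q) - f q) := by
        intro a
        have e1 : (fun q => r * f q - r * f (SX a q)) = fun q => (-r) * (f (SX a q) - f q) := by
          funext q; ring
        rw [e1, nrm_cmul, abs_neg, abs_of_pos hr0]
      rw [e, e, ← mul_add]
      have h7 := mul_lt_mul_of_pos_left hlt hr0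
      have h8 : r * (1 / ((n:ℝ) + 1) * nrm volume f) = 1 / ((n:ℝ) + 1) := by
        rw [hr]; field_simp
      linarith
  choose a b h1 h2 h3 f hf hf0 hf1 hlt using hc
  have hlim : Tendsto (fun n : ℕ => 1 / ((n:ℝ) + 1)) atTop (𝓝 0) :=
    tendsto_one_div_add_atTop_nhds_zero_nat
  refine seq_contra (ψ := fun _ n => f n) (s := fun n => b n - a n) hσ ht0 h1 h2 h3
    (fun _ n => hf n) (fun _ n => (hf1 n).le) (fun _ n => fc_zero (hf0 n)) (fun k _ => ?_)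
    (fun k _ _ => ?_) (fun n => by rw [hf1]; norm_num)
  · refine squeeze_zero (fun n => nrm_nonneg _) (fun n => ?_) hlim
    have h5 := nrm_nonneg (μ := volume) (fun q => f n q - f n (SX (b n) q))
    linarith [hlt n]
  · refine squeeze_zero (fun n => nrm_nonneg _) (fun n => ?_) hlim
    exact (W_of_pair (hf n) (hf n) (a n) (b n)).trans (hlt n).le

section avgs
variable {Ω Y : Type*} [MeasurableSpace Ω] [MeasurableSpace Y]
variable {P : Measure Ω} [IsProbabilityMeasure P] {μ : Measure Y} [IsProbabilityMeasure μ]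
  {f : Ω → Y → Y}

theorem avg_int (hf : Measurable (Function.uncurry f)) (hmp : ∀ o, MeasurePreserving (f o) μ μ)
    {φ : Y → ℝ} (h : L2 μ φ) : ∫ x, avg P f φ x ∂μ = ∫ x, φ x ∂μ := by
  have hp := mp_phi (P := P) (μ := μ) hf hmp
  have hi : Integrable φ μ := (var_one (P := μ) φ h.1 h.2).1
  have h1 : Integrable (fun z : Ω × Y => φ (f z.1 z.2)) (P.prod μ) :=
    (hp.integrable_comp (g := φ) hi.aestronglyMeasurable).2 hi
  have h1s : Integrable (fun z : Y × Ω => φ (f z.2 z.1)) (μ.prod P) := h1.swap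
  have e1 : ∫ x, avg P f φ x ∂μ = ∫ z : Ω × Y, φ (f z.1 z.2) ∂(P.prod μ) := by
    unfold avg
    rw [← integral_prod _ h1s, ← integral_prod_swap]
    rfl
  rw [e1]
  conv_rhs => rw [← hp.map_eq]
  rw [integral_map hp.measurable.aemeasurable]
  rw [hp.map_eq]
  exact hi.aestronglyMeasurable

theorem iter_int (hf : Measurable (Function.uncurry f)) (hmp : ∀ o, MeasurePreserving (f o) μ μ)
    {φ : Y → ℝ} (h : L2 μ φ) (n : ℕ) : ∫ x, (avg P f)^[n] φ x ∂μ = ∫ x, φ x ∂μ := by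
  induction n with
  | zero => rfl
  | succ n ih =>
    rw [Function.iterate_succ_apply', avg_int hf hmp (iter_L2 hf hmp h n), ih]

theorem exp_decay0 (hf : Measurable (Function.uncurry f))
    (hmp : ∀ o, MeasurePreserving (f o) μ μ) {N : ℕ} {η : ℝ} (hη : 0 < η) (hη1 : η ≤ 1)
    (hgap : ∀ φ : Y → ℝ, L2 μ φ → ∫ x, φ x ∂μ = 0 →
      ∫ x, (avg P f)^[N] φ x ^ 2 ∂μ ≤ (1 - η) * ∫ x, φ x ^ 2 ∂μ)
    {φ : Y → ℝ} (h : L2 μ φ) (h0 : ∫ x, φ x ∂μ = 0) (n : ℕ) :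
    ∫ x, (avg P f)^[n] φ x ^ 2 ∂μ ≤
      exp 1 * exp (-(η / (N + 1)) * n) * ∫ x, φ x ^ 2 ∂μ := by
  have hgap' : ∀ φ : Y → ℝ, L2 μ φ → ∫ x, φ x ∂μ = 0 →
      ∫ x, (avg P f)^[N+1] φ x ^ 2 ∂μ ≤ (1 - η) * ∫ x, φ x ^ 2 ∂μ := by
    intro φ hφ hφ0
    rw [Function.iterate_succ_apply']
    exact (avg_le (P := P) hf hmp (iter_L2 hf hmp hφ N)).trans (hgap φ hφ hφ0)
  have hk : ∀ k : ℕ, ∫ x, (avg P f)^[(N+1) * k] φ x ^ 2 ∂μ ≤
      (1 - η) ^ k * ∫ x, φ x ^ 2 ∂μ := by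
    intro k
    induction k with
    | zero => simp
    | succ k ih =>
      have e : (N + 1) * (k + 1) = (N + 1) + (N + 1) * k := by ring
      rw [e, Function.iterate_add_apply]
      refine (hgap' _ (iter_L2 hf hmp h _) (by rw [iter_int hf hmp h, h0])).trans ?_
      rw [pow_succ]
      have := mul_le_mul_of_nonneg_left ih (by linarith : 0 ≤ 1 - η)
      linarith
  have hI : 0 ≤ ∫ x, φ x ^ 2 ∂μ := integral_nonneg fun x => sq_nonneg _
  have e1 : n = n % (N + 1) + (N + 1) * (n / (N + 1)) := (Nat.mod_add_div _ _).symm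
  have h1 : ∫ x, (avg P f)^[n] φ x ^ 2 ∂μ ≤ (1 - η) ^ (n / (N + 1)) * ∫ x, φ x ^ 2 ∂μ := by
    conv_lhs => rw [e1, Function.iterate_add_apply]
    exact (iter_le (P := P) hf hmp (iter_L2 hf hmp h _) _).trans (hk _)
  refine h1.trans (mul_le_mul_of_nonneg_right ?_ hI)
  have h2 : (1 - η) ^ (n / (N + 1)) ≤ exp (-η) ^ (n / (N + 1)) := by
    refine pow_le_pow_left₀ (by linarith) ?_ _
    have := Real.add_one_le_exp (-η)
    linarith
  refine h2.trans ?_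
  rw [← Real.exp_nat_mul, ← Real.exp_add]
  apply Real.exp_le_exp.2
  have hN : (0 : ℝ) < (N : ℝ) + 1 := by positivity
  have h3 : (n : ℝ) < ((n / (N + 1) : ℕ) + 1 : ℝ) * (N + 1) := by
    have h4 : n < (n / (N + 1) + 1) * (N + 1) := by
      have := Nat.lt_div_mul_add (a := n) (Nat.succ_pos N)
      calc n < n / (N + 1) * (N + 1) + (N + 1) := this
        _ = _ := by ring
    exact_mod_cast h4
  have h5 : (n : ℝ) / (N + 1) ≤ (n / (N + 1) : ℕ) + 1 := by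
    rw [div_le_iff₀ hN]; exact h3.le
  have h6 : -(η / (N + 1)) * n = -(η * (n / (N + 1))) := by ring
  rw [h6]
  have h7 := mul_le_mul_of_nonneg_left h5 hη.le
  nlinarith

end avgs

theorem markov (ν : Measure ℝ) [IsProbabilityMeasure ν] {D : Set ℝ} (hD : 0 < ν D)
    {E : ℝ → ℝ} (hE : Integrable E ν) (h0 : ∀ a, 0 ≤ E a) :
    ∃ a ∈ D, E a ≤ (ν.real D)⁻¹ * ∫ a, E a ∂ν := by
  obtain ⟨a, haD, ha⟩ := exists_le_setAverage hD.ne' (measure_ne_top ν D) hE.integrableOn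
  refine ⟨a, haD, ha.trans ?_⟩
  rw [setAverage_eq, smul_eq_mul]
  refine mul_le_mul_of_nonneg_left ?_ (by positivity)
  exact setIntegral_le_integral hE (Eventually.of_forall h0)

theorem meas_SX : Measurable (Function.uncurry (SX (κ := κ))) :=
  (cont_SX (κ := κ)).measurable

instance : IsProbabilityMeasure (volume : Measure UnitAddCircle) := ⟨by simp⟩

instance : IsProbabilityMeasure (volume : Measure (X (κ ⊕ κ))) := by
  unfold X
  infer_instance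

/-- the gap -/
theorem gapx (ν : Measure ℝ) [IsProbabilityMeasure ν] (h1 : ∀ a, ν {a} ≠ 1)
    (h2 : ν {a | sin (2 * π * a) ≠ 0} ≠ 0) :
    ∃ η : ℝ, 0 < η ∧ η ≤ 1 ∧ ∀ φ : X (κ ⊕ κ) → ℝ, L2 volume φ → ∫ q, φ q = 0 →
      ∫ x, (avg ν SX)^[6] φ x ^ 2 ≤ (1 - η) * ∫ x, φ x ^ 2 := by
  by_contra hcon
  push Not at hcon
  obtain ⟨R, t0, σ, hR, ht0, hσ, D1, D2, hD1m, hD2m, hD1, hD2, hp1, hp2, hp3⟩ :=
    exists_pair ν h1 h2
  have hr1 : 0 < ν.real D1 := ENNReal.toReal_pos hD1.ne' (measure_ne_top _ _)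
  have hr2 : 0 < ν.real D2 := ENNReal.toReal_pos hD2.ne' (measure_ne_top _ _)
  have hm := meas_SX (κ := κ)
  have hmp := mp_SX (κ := κ)
  -- the sum of the errors
  have hE : ∀ φ : X (κ ⊕ κ) → ℝ, L2 volume φ →
      Integrable (fun a => ∑ k ∈ Finset.range 6,
        ∫ x, ((avg ν SX)^[k] φ (SX a x) - (avg ν SX)^[k+1] φ x) ^ 2) ν ∧
      ∫ a, (∑ k ∈ Finset.range 6,
        ∫ x, ((avg ν SX)^[k] φ (SX a x) - (avg ν SX)^[k+1] φ x) ^ 2) ∂ν =
        (∫ x, φ x ^ 2) - ∫ x, (avg ν SX)^[6] φ x ^ 2 := by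
    intro φ hφ
    have hk := fun k => err_avg (P := ν) hm hmp (iter_L2 (P := ν) hm hmp hφ k)
    have hk' : ∀ k, Integrable (fun a =>
        ∫ x, ((avg ν SX)^[k] φ (SX a x) - (avg ν SX)^[k+1] φ x) ^ 2) ν := by
      intro k
      have := (hk k).1
      simp only [← Function.iterate_succ_apply' (avg ν SX) k φ] at this
      exact this
    refine ⟨integrable_finsetSum _ fun k _ => hk' k, ?_⟩
    rw [integral_finsetSum _ fun k _ => hk' k]
    have e : ∀ k, ∫ a, (∫ x, ((avg ν SX)^[k] φ (SX a x) - (avg ν SX)^[k+1] φ x) ^ 2) ∂ν =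
        (∫ x, (avg ν SX)^[k] φ x ^ 2) - ∫ x, (avg ν SX)^[k+1] φ x ^ 2 := by
      intro k
      have := (hk k).2
      simp only [← Function.iterate_succ_apply' (avg ν SX) k φ] at this
      exact this
    simp only [e]
    rw [Finset.sum_range_sub' (fun k => ∫ x, (avg ν SX)^[k] φ x ^ 2) 6]
    rfl
  have hc : ∀ n : ℕ, ∃ φ : X (κ ⊕ κ) → ℝ, L2 volume φ ∧ ∫ q, φ q = 0 ∧ 0 < ∫ q, φ q ^ 2 ∧
      (1 - 1 / ((n:ℝ) + 2)) * ∫ q, φ q ^ 2 ≤ ∫ x, (avg ν SX)^[6] φ x ^ 2 ∧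
      ∃ a ∈ D1, ∃ b ∈ D2,
        (∑ k ∈ Finset.range 6, ∫ x, ((avg ν SX)^[k] φ (SX a x) - (avg ν SX)^[k+1] φ x) ^ 2) ≤
          (ν.real D1)⁻¹ * (1 / ((n:ℝ) + 2) * ∫ q, φ q ^ 2) ∧
        (∑ k ∈ Finset.range 6, ∫ x, ((avg ν SX)^[k] φ (SX b x) - (avg ν SX)^[k+1] φ x) ^ 2) ≤
          (ν.real D2)⁻¹ * (1 / ((n:ℝ) + 2) * ∫ q, φ q ^ 2) := by
    intro n
    have hn1 : 1 / ((n:ℝ) + 2) ≤ 1 := by
      rw [div_le_one (by positivity)]
      have : (0:ℝ) ≤ n := Nat.cast_nonneg n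
      linarith
    obtain ⟨φ, hφ, hφ0, hlt⟩ := hcon (1 / ((n:ℝ) + 2)) (by positivity) hn1
    have hle := iter_le (P := ν) hm hmp hφ 6
    have h0 : 0 ≤ ∫ x, φ x ^ 2 := integral_nonneg fun x => sq_nonneg _
    have hpos : 0 < ∫ x, φ x ^ 2 := by
      rcases h0.lt_or_eq with h | h
      · exact h
      · rw [← h, mul_zero] at hlt
        rw [← h] at hle
        linarith
    obtain ⟨hi, he⟩ := hE φ hφ
    have hnn : ∀ a, 0 ≤ ∑ k ∈ Finset.range 6,
        ∫ x, ((avg ν SX)^[k] φ (SX a x) - (avg ν SX)^[k+1] φ x) ^ 2 := fun a =>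
      Finset.sum_nonneg fun k _ => integral_nonneg fun x => sq_nonneg _
    obtain ⟨a, ha, ha2⟩ := markov ν hD1 hi hnn
    obtain ⟨b, hb, hb2⟩ := markov ν hD2 hi hnn
    rw [he] at ha2 hb2
    have hd : (∫ x, φ x ^ 2) - ∫ x, (avg ν SX)^[6] φ x ^ 2 ≤ 1 / ((n:ℝ) + 2) * ∫ q, φ q ^ 2 := by
      linarith
    refine ⟨φ, hφ, hφ0, hpos, hlt.le, a, ha, b, hb, ha2.trans ?_, hb2.trans ?_⟩
    · exact mul_le_mul_of_nonneg_left hd (by positivity)
    · exact mul_le_mul_of_nonneg_left hd (by positivity)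
  choose φ hφ hφ0 hpos hlow a ha b hb hEa hEb using hc
  obtain ⟨r, hr⟩ : ∃ r : ℕ → ℝ, r = fun n => (√(∫ q, φ n q ^ 2))⁻¹ := ⟨_, rfl⟩
  have hr0 : ∀ n, 0 < r n := fun n => by
    rw [hr]
    exact inv_pos.2 (Real.sqrt_pos.2 (hpos n))
  have hr2' : ∀ n, r n ^ 2 * ∫ q, φ n q ^ 2 = 1 := by
    intro n
    rw [hr]
    simp only
    rw [inv_pow, Real.sq_sqrt (hpos n).le, inv_mul_cancel₀ (hpos n).ne']
  have hlim0 : Tendsto (fun n : ℕ => 1 / ((n:ℝ) + 2)) atTop (𝓝 0) := by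
    have h3 : Tendsto (fun n : ℕ => 1 / (((n + 1 : ℕ):ℝ) + 1)) atTop (𝓝 0) :=
      (tendsto_add_atTop_iff_nat 1).2 (tendsto_one_div_add_atTop_nhds_zero_nat (𝕜 := ℝ))
    refine h3.congr fun n => ?_
    push_cast
    ring
  have hsq : ∀ D : Set ℝ, Tendsto (fun n : ℕ => √((ν.real D)⁻¹ * (1 / ((n:ℝ) + 2)))) atTop
      (𝓝 0) := by
    intro D
    have h3 := (Real.continuous_sqrt.tendsto 0).comp
      (by simpa using hlim0.const_mul (ν.real D)⁻¹ :
        Tendsto (fun n : ℕ => (ν.real D)⁻¹ * (1 / ((n:ℝ) + 2))) atTop (𝓝 0))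
    simpa [Function.comp_def] using h3
  -- the steps
  have hst : ∀ (D : Set ℝ) (e : ℕ → ℝ), (∀ n, (∑ k ∈ Finset.range 6,
      ∫ x, ((avg ν SX)^[k] (φ n) (SX (e n) x) - (avg ν SX)^[k+1] (φ n) x) ^ 2) ≤
          (ν.real D)⁻¹ * (1 / ((n:ℝ) + 2) * ∫ q, φ n q ^ 2)) → ∀ k < 6, ∀ n,
      nrm volume (fun q => r n * (avg ν SX)^[k+1] (φ n) q -
        r n * (avg ν SX)^[k] (φ n) (SX (e n) q)) ≤ √((ν.real D)⁻¹ * (1 / ((n:ℝ) + 2))) := by
    intro D e he k hk n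
    apply Real.le_sqrt_of_sq_le
    rw [nrm_sq]
    have e1 : ∀ q, (r n * (avg ν SX)^[k+1] (φ n) q -
        r n * (avg ν SX)^[k] (φ n) (SX (e n) q)) ^ 2 =
        r n ^ 2 * ((avg ν SX)^[k] (φ n) (SX (e n) q) - (avg ν SX)^[k+1] (φ n) q) ^ 2 :=
      fun q => by ring
    simp only [e1]
    rw [integral_const_mul]
    have h3 : ∫ x, ((avg ν SX)^[k] (φ n) (SX (e n) x) - (avg ν SX)^[k+1] (φ n) x) ^ 2 ≤
        ∑ k ∈ Finset.range 6,
          ∫ x, ((avg ν SX)^[k] (φ n) (SX (e n) x) - (avg ν SX)^[k+1] (φ n) x) ^ 2 :=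
      Finset.single_le_sum (f := fun k =>
        ∫ x, ((avg ν SX)^[k] (φ n) (SX (e n) x) - (avg ν SX)^[k+1] (φ n) x) ^ 2)
        (fun k _ => integral_nonneg fun x => sq_nonneg _) (Finset.mem_range.2 hk)
    have h4 := mul_le_mul_of_nonneg_left (h3.trans (he n)) (sq_nonneg (r n))
    refine h4.trans (le_of_eq ?_)
    have h5 := hr2' n
    calc r n ^ 2 * ((ν.real D)⁻¹ * (1 / ((n:ℝ) + 2) * ∫ q, φ n q ^ 2))
        = (ν.real D)⁻¹ * (1 / ((n:ℝ) + 2)) * (r n ^ 2 * ∫ q, φ n q ^ 2) := by ring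
      _ = _ := by rw [h5, mul_one]
  have hL : ∀ k n, L2 volume ((avg ν SX)^[k] (φ n)) := fun k n => iter_L2 (P := ν) hm hmp (hφ n) k
  refine seq_contra (ψ := fun k n q => r n * (avg ν SX)^[k] (φ n) q) (a := a)
    (s := fun n => b n - a n) hσ ht0 (fun n => (hp1 _ (ha n)).1) (fun n => (hp1 _ (ha n)).2)
    (fun n => hp3 _ (ha n) _ (hb n)) (fun k n => L2.cmul (hL k n) _) (fun k n => ?_)
    (fun k n => fc_zero ?_) (fun k hk => ?_) (fun k h1k hk6 => ?_) (fun n => ?_)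
  · -- norm
    have h3 : nrm volume (fun q => r n * (avg ν SX)^[k] (φ n) q) ^ 2 ≤ 1 := by
      rw [nrm_sq]
      simp only [mul_pow]
      rw [integral_const_mul]
      have h4 := mul_le_mul_of_nonneg_left (iter_le (P := ν) hm hmp (hφ n) k) (sq_nonneg (r n))
      have h5 := hr2' n
      linarith
    exact (sq_le_one_iff₀ (nrm_nonneg _)).1 h3
  · rw [integral_const_mul, iter_int (P := ν) hm hmp (hφ n), hφ0, mul_zero]
  · exact squeeze_zero (fun n => nrm_nonneg _) (hst D1 a hEa k hk) (hsq D1)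
  · obtain ⟨k, rfl⟩ : ∃ k', k = k' + 1 := ⟨k - 1, by omega⟩
    have h3 := (hsq D1).add (hsq D2)
    rw [add_zero] at h3
    refine squeeze_zero (fun n => nrm_nonneg _) (fun n => ?_) h3
    refine (W_of_pair (f := fun q => r n * (avg ν SX)^[k] (φ n) q)
      (g := fun q => r n * (avg ν SX)^[k+1] (φ n) q) (L2.cmul (hL k n) _)
      (L2.cmul (hL (k+1) n) _) (a n) (b n)).trans ?_
    exact add_le_add (hst D1 a hEa k (by omega) n) (hst D2 b hEb k (by omega) n)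
  · have h3 : 1 / 4 ≤ nrm volume (fun q => r n * (avg ν SX)^[6] (φ n) q) ^ 2 := by
      rw [nrm_sq]
      simp only [mul_pow]
      rw [integral_const_mul]
      have h4 := mul_le_mul_of_nonneg_left (hlow n) (sq_nonneg (r n))
      have h5 : r n ^ 2 * ((1 - 1 / ((n:ℝ) + 2)) * ∫ q, φ n q ^ 2) = 1 - 1 / ((n:ℝ) + 2) := by
        have h6 := hr2' n
        calc _ = (1 - 1 / ((n:ℝ) + 2)) * (r n ^ 2 * ∫ q, φ n q ^ 2) := by ring
          _ = _ := by rw [h6, mul_one]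
      have h7 : 1 / ((n:ℝ) + 2) ≤ 1 / 2 := by
        apply div_le_div_of_nonneg_left zero_le_one two_pos
        have : (0:ℝ) ≤ n := Nat.cast_nonneg n
        linarith
      linarith
    have h4 := nrm_nonneg (μ := volume) (fun q => r n * (avg ν SX)^[6] (φ n) q)
    nlinarith

end Q69.SX
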