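import Pool.Agent.Q69.SX.Gapx
import Pool.Agent.Q69.SM.Seq

/-!
Motions of several points under independent kicks.
-/

set_option autoImplicit false

open MeasureTheory Filter Topology Real
open Q69.SM

namespace Q69.SX

section abs
variable {Y : Type*} [MeasurableSpace Y] {μ : Measure Y} [IsProbabilityMeasure μ]
  {f : ℝ → Y → Y}

/-- the random orbit -/
def orbY (f : ℝ → Y → Y) (w : ℕ → ℝ) : ℕ → Y → Y
  | 0 => fun y => y
  | n + 1 => fun y => f (w n) (orbY f w n y)

omit [MeasurableSpace Y] in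
theorem orbY_cons (a : ℝ) (w : ℕ → ℝ) (n : ℕ) (y : Y) :
    orbY f (cons (a, w)) (n + 1) y = orbY f w n (f a y) := by
  induction n with
  | zero => rfl
  | succ n ih =>
    change f (cons (a, w) (n + 1)) (orbY f (cons (a, w)) (n + 1) y) = f (w n) (orbY f w n (f a y))
    rw [ih]
    rfl

theorem meas_orbY (hf : Measurable (Function.uncurry f)) (n : ℕ) :
    Measurable (fun q : (ℕ → ℝ) × Y => orbY f q.1 n q.2) := by
  induction n with
  | zero => exact measurable_snd
  | succ n ih =>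
    have h1 : Measurable (fun q : (ℕ → ℝ) × Y => (q.1 n, orbY f q.1 n q.2)) :=
      ((measurable_pi_apply n).comp measurable_fst).prodMk ih
    exact hf.comp h1

theorem mp_orbY_w (hmp : ∀ a, MeasurePreserving (f a) μ μ) (w : ℕ → ℝ) (n : ℕ) :
    MeasurePreserving (orbY f w n) μ μ := by
  induction n with
  | zero => exact MeasurePreserving.id μ
  | succ n ih => exact (hmp (w n)).comp ih

variable (ν : Measure ℝ) [IsProbabilityMeasure ν]

theorem mp_orbY (hf : Measurable (Function.uncurry f)) (hmp : ∀ a, MeasurePreserving (f a) μ μ)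
    (n : ℕ) : MeasurePreserving (fun q : (ℕ → ℝ) × Y => orbY f q.1 n q.2) ((law ν).prod μ) μ :=
  mp_phi (P := law ν) (f := fun w => orbY f w n) (meas_orbY hf n) fun w => mp_orbY_w hmp w n

theorem avg_iter_ae (hf : Measurable (Function.uncurry f))
    (hmp : ∀ a, MeasurePreserving (f a) μ μ) {φ : Y → ℝ} (h : L2 μ φ) (n : ℕ) :
    ∀ᵐ y ∂μ, (avg ν f)^[n] φ y = ∫ w, φ (orbY f w n y) ∂(law ν) := by
  have hi : Integrable φ μ := (var_one (P := μ) φ h.1 h.2).1
  induction n with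
  | zero =>
    refine Eventually.of_forall fun y => ?_
    simp [orbY]
  | succ n ih =>
    have hG := ((mp_orbY ν hf hmp (n + 1)).integrable_comp (g := φ) hi.aestronglyMeasurable).2 hi
    have hGs : Integrable (fun z : Y × (ℕ → ℝ) => φ (orbY f z.2 (n + 1) z.1)) (μ.prod (law ν)) :=
      hG.swap
    have hae : ∀ᵐ y ∂μ, Integrable (fun w => φ (orbY f w (n + 1) y)) (law ν) := hGs.prod_right_ae
    have hgood : ∀ᵐ y ∂μ, ∀ᵐ a ∂ν, (avg ν f)^[n] φ (f a y) =
        ∫ w, φ (orbY f w n (f a y)) ∂(law ν) := by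
      have h1 := (mp_phi (P := ν) hf hmp).quasiMeasurePreserving.ae ih
      have h2 : ∀ᵐ z ∂(μ.prod ν), (avg ν f)^[n] φ (f z.2 z.1) =
          ∫ w, φ (orbY f w n (f z.2 z.1)) ∂(law ν) :=
        (Measure.measurePreserving_swap (μ := μ) (ν := ν)).quasiMeasurePreserving.ae h1
      exact Measure.ae_ae_of_ae_prod h2
    filter_upwards [hae, hgood] with y hy hy2
    rw [Function.iterate_succ_apply']
    change ∫ a, (avg ν f)^[n] φ (f a y) ∂ν = _
    rw [integral_congr_ae hy2]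
    have hy' : Integrable (fun q : ℝ × (ℕ → ℝ) => φ (orbY f q.2 n (f q.1 y))) (ν.prod (law ν)) := by
      have h3 := ((mp_cons ν).integrable_comp (g := fun w => φ (orbY f w (n + 1) y))
        hy.aestronglyMeasurable).2 hy
      refine h3.congr (Eventually.of_forall fun q => ?_)
      simp only [Function.comp]
      obtain ⟨a, w⟩ := q
      rw [orbY_cons]
    have e1 : ∫ w, φ (orbY f w (n + 1) y) ∂(law ν) =
        ∫ q : ℝ × (ℕ → ℝ), φ (orbY f q.2 n (f q.1 y)) ∂(ν.prod (law ν)) := by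
      conv_lhs => rw [← (mp_cons ν).map_eq]
      rw [integral_map meas_cons.aemeasurable (by rw [(mp_cons ν).map_eq]; exact
        hy.aestronglyMeasurable)]
      refine integral_congr_ae (Eventually.of_forall fun q => ?_)
      obtain ⟨a, w⟩ := q
      simp only
      rw [orbY_cons]
    rw [e1, integral_prod _ hy']

end abs

section km
variable {κ : Type*} [Fintype κ]

/-- the motion of the points labelled by `κ` -/
noncomputable def KM (κ : Type*) (a : ℝ) (q : κ → Tor) : κ → Tor := fun i => S a (q i)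

theorem mp_KM (a : ℝ) : MeasurePreserving (KM κ a) (volume : Measure (κ → Tor)) volume :=
  measurePreserving_pi _ _ (fun _ => mp_S a)

theorem meas_KM : Measurable (Function.uncurry (KM κ)) := by
  refine measurable_pi_lambda _ fun i => ?_
  exact continuous_S.measurable.comp (measurable_fst.prodMk
    ((measurable_pi_apply i).comp measurable_snd))

theorem orb_KM (w : ℕ → ℝ) (n : ℕ) (q : κ → Tor) (i : κ) :
    orbY (KM κ) w n q i = orbY S w n (q i) := by
  induction n with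
  | zero => rfl
  | succ n ih =>
    change S (w n) (orbY (KM κ) w n q i) = S (w n) (orbY S w n (q i))
    rw [ih]

instance : IsProbabilityMeasure (volume : Measure Tor) := by
  refine ⟨?_⟩
  rw [Measure.volume_eq_prod, ← Set.univ_prod_univ, Measure.prod_prod]
  simp

theorem int_EX (φ : (κ → Tor) → ℝ) : ∫ q, φ (EX κ q) = ∫ Q, φ Q :=
  (mp_EX (κ := κ)).integral_comp (EX κ).measurableEmbedding φ

theorem L2_EX {φ : (κ → Tor) → ℝ} (h : L2 volume φ) : L2 volume (fun q => φ (EX κ q)) := by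
  refine ⟨h.1.comp (EX κ).measurable, ?_⟩
  have := (mp_EX (κ := κ)).integrable_comp (g := fun Q => φ Q ^ 2) h.2.aestronglyMeasurable
  exact this.2 h.2

theorem avg_EX (ν : Measure ℝ) (φ : (κ → Tor) → ℝ) (n : ℕ) (q : X (κ ⊕ κ)) :
    (avg ν (KM κ))^[n] φ (EX κ q) = (avg ν SX)^[n] (fun q => φ (EX κ q)) q := by
  induction n generalizing q with
  | zero => rfl
  | succ n ih =>
    rw [Function.iterate_succ_apply', Function.iterate_succ_apply']
    change ∫ a, (avg ν (KM κ))^[n] φ (KM κ a (EX κ q)) ∂ν =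
      ∫ a, (avg ν SX)^[n] (fun q => φ (EX κ q)) (SX a q) ∂ν
    congr 1
    funext a
    rw [← ih]
    rfl

variable [DecidableEq κ]

theorem gap_KM (ν : Measure ℝ) [IsProbabilityMeasure ν] (h1 : ∀ a, ν {a} ≠ 1)
    (h2 : ν {a | sin (2 * π * a) ≠ 0} ≠ 0) :
    ∃ η : ℝ, 0 < η ∧ η ≤ 1 ∧ ∀ φ : (κ → Tor) → ℝ, L2 volume φ → ∫ q, φ q = 0 →
      ∫ x, (avg ν (KM κ))^[6] φ x ^ 2 ≤ (1 - η) * ∫ x, φ x ^ 2 := by
  obtain ⟨η, hη, hη1, h⟩ := gapx (κ := κ) ν h1 h2
  refine ⟨η, hη, hη1, fun φ hφ h0 => ?_⟩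
  have h3 := h (fun q => φ (EX κ q)) (L2_EX hφ) (by rw [int_EX]; exact h0)
  rw [← int_EX, ← int_EX (fun Q => φ Q ^ 2)]
  simp only [avg_EX]
  exact h3

/-- annealed exponential mixing of the motions of several points -/
theorem annealed (ν : Measure ℝ) [IsProbabilityMeasure ν] (h1 : ∀ a, ν {a} ≠ 1)
    (h2 : ν {a | sin (2 * π * a) ≠ 0} ≠ 0) :
    ∃ c : ℝ, 0 < c ∧ ∀ φ : (κ → Tor) → ℝ, L2 volume φ → ∫ q, φ q = 0 → ∀ n : ℕ,
      ∫ q : κ → Tor, (∫ w, φ (fun i => orbY S w n (q i)) ∂(law ν)) ^ 2 ≤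
        3 * exp (-(c * n)) * ∫ q, φ q ^ 2 := by
  obtain ⟨η, hη, hη1, h⟩ := gap_KM (κ := κ) ν h1 h2
  refine ⟨η / ((6 : ℕ) + 1), by positivity, fun φ hφ h0 n => ?_⟩
  have h3 := exp_decay0 (P := ν) meas_KM mp_KM hη hη1 h hφ h0 n
  have h4 := avg_iter_ae ν meas_KM mp_KM hφ n
  have e1 : ∫ q : κ → Tor, (∫ w, φ (fun i => orbY S w n (q i)) ∂(law ν)) ^ 2 =
      ∫ x, (avg ν (KM κ))^[n] φ x ^ 2 := by
    refine integral_congr_ae ?_
    filter_upwards [h4] with q hq
    rw [hq]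
    have e2 : ∀ w, orbY (KM κ) w n q = fun i => orbY S w n (q i) := fun w => by
      funext i
      exact orb_KM w n q i
    simp only [e2]
  rw [e1]
  refine h3.trans ?_
  have hI : 0 ≤ ∫ q, φ q ^ 2 := integral_nonneg fun x => sq_nonneg _
  refine mul_le_mul_of_nonneg_right ?_ hI
  rw [neg_mul]
  refine mul_le_mul_of_nonneg_right ?_ (exp_pos _).le
  have := Real.exp_one_lt_d9
  linarith

end km

/-- second moments of correlations -/
theorem second_moment (ν : Measure ℝ) [IsProbabilityMeasure ν] (h1 : ∀ a, ν {a} ≠ 1)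
    (h2 : ν {a | sin (2 * π * a) ≠ 0} ≠ 0) :
    ∃ c : ℝ, 0 < c ∧ ∀ φ ψ : Tor → ℝ, L2 volume φ → L2 volume ψ → ∫ p, φ p = 0 → ∀ n : ℕ,
      ∫ w, (∫ p, φ (orbY S w n p) * ψ p) ^ 2 ∂(law ν) ≤
        2 * exp (-(c * n)) * ((∫ p, φ p ^ 2) * ∫ p, ψ p ^ 2) := by
  obtain ⟨c, hc, h⟩ := annealed (κ := Fin 2) ν h1 h2
  refine ⟨c / 2, by positivity, fun φ ψ hφ hψ h0 n => ?_⟩
  have hten : ∀ g : Tor → ℝ, L2 volume g → L2 volume (fun q : Fin 2 → Tor => ∏ i, g (q i)) ∧
      ∫ q : Fin 2 → Tor, (∏ i, g (q i)) ^ 2 = (∫ p, g p ^ 2) ^ 2 := by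
    intro g hg
    have hm : Measurable (fun q : Fin 2 → Tor => ∏ i, g (q i)) :=
      Finset.measurable_prod _ fun i _ => hg.1.comp (measurable_pi_apply i)
    have e : ∀ q : Fin 2 → Tor, (∏ i, g (q i)) ^ 2 = ∏ i, g (q i) ^ 2 := fun q =>
      (Finset.prod_pow _ _ _).symm
    refine ⟨⟨hm, ?_⟩, ?_⟩
    · simp only [e]
      exact Integrable.fintype_prod (f := fun (_ : Fin 2) p => g p ^ 2)
        (μ := fun _ : Fin 2 => (volume : Measure Tor)) fun _ => hg.2
    · simp only [e]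
      rw [integral_fintype_prod_volume_eq_pow (fun p : Tor => g p ^ 2)]
      rfl
  obtain ⟨F, hF⟩ : ∃ F : (Fin 2 → Tor) → ℝ, F = fun q => ∏ i, φ (q i) := ⟨_, rfl⟩
  obtain ⟨G, hG⟩ : ∃ G : (Fin 2 → Tor) → ℝ, G = fun q => ∏ i, ψ (q i) := ⟨_, rfl⟩
  have hFL : L2 volume F := by rw [hF]; exact (hten φ hφ).1
  have hGL : L2 volume G := by rw [hG]; exact (hten ψ hψ).1
  have hF2 : ∫ q, F q ^ 2 = (∫ p, φ p ^ 2) ^ 2 := by rw [hF]; exact (hten φ hφ).2
  have hG2 : ∫ q, G q ^ 2 = (∫ p, ψ p ^ 2) ^ 2 := by rw [hG]; exact (hten ψ hψ).2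
  have hF0 : ∫ q, F q = 0 := by
    rw [hF]
    rw [integral_fintype_prod_volume_eq_pow φ, h0]
    simp
  have e1 : ∀ w, (∫ p, φ (orbY S w n p) * ψ p) ^ 2 =
      ∫ q : Fin 2 → Tor, F (fun i => orbY S w n (q i)) * G q := by
    intro w
    have e2 := integral_fintype_prod_volume_eq_pow (ι := Fin 2)
      (fun p : Tor => φ (orbY S w n p) * ψ p)
    rw [Fintype.card_fin] at e2
    rw [← e2, hF, hG]
    congr 1
    funext q
    exact Finset.prod_mul_distrib
  simp only [e1]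
  have hmp := mp_orbY ν (meas_KM (κ := Fin 2)) mp_KM n
  have hFo : L2 ((law ν).prod volume) (fun z : (ℕ → ℝ) × (Fin 2 → Tor) =>
      F (fun i => orbY S z.1 n (z.2 i))) := by
    have e3 : (fun z : (ℕ → ℝ) × (Fin 2 → Tor) => F (fun i => orbY S z.1 n (z.2 i))) =
        fun z => F (orbY (KM (Fin 2)) z.1 n z.2) := by
      funext z
      congr 1
      funext i
      exact (orb_KM z.1 n z.2 i).symm
    rw [e3]
    refine ⟨hFL.1.comp hmp.measurable, ?_⟩
    exact (hmp.integrable_comp (g := fun q => F q ^ 2) hFL.2.aestronglyMeasurable).2 hFL.2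
  have hGo : L2 ((law ν).prod volume) (fun z : (ℕ → ℝ) × (Fin 2 → Tor) => G z.2) := by
    refine ⟨hGL.1.comp measurable_snd, ?_⟩
    exact hGL.2.comp_snd (law ν)
  have hint := L2.int_mul hFo hGo
  rw [integral_integral_swap hint]
  have e4 : ∀ q : Fin 2 → Tor, ∫ w, F (fun i => orbY S w n (q i)) * G q ∂(law ν) =
      (∫ w, F (fun i => orbY S w n (q i)) ∂(law ν)) * G q := fun q => integral_mul_const _ _
  simp only [e4]
  -- the averaged function
  obtain ⟨H, hH⟩ : ∃ H : (Fin 2 → Tor) → ℝ,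
    H = fun q => ∫ w, F (fun i => orbY S w n (q i)) ∂(law ν) := ⟨_, rfl⟩
  have hHL : L2 volume H := by
    have h5 := iter_L2 (P := ν) (meas_KM (κ := Fin 2)) mp_KM hFL n
    have h6 := avg_iter_ae ν (meas_KM (κ := Fin 2)) mp_KM hFL n
    have e5 : (avg ν (KM (Fin 2)))^[n] F =ᵐ[volume] H := by
      filter_upwards [h6] with q hq
      rw [hq, hH]
      have e6 : ∀ w, orbY (KM (Fin 2)) w n q = fun i => orbY S w n (q i) := fun w => by
        funext i
        exact orb_KM w n q i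
      simp only [e6]
    refine ⟨?_, h5.2.congr (e5.mono fun q hq => by simp only [hq])⟩
    rw [hH]
    have hsm : StronglyMeasurable (fun z : (Fin 2 → Tor) × (ℕ → ℝ) =>
        F (fun i => orbY S z.2 n (z.1 i))) := (hFo.1.comp measurable_swap).stronglyMeasurable
    exact (hsm.integral_prod_right (ν := law ν)).measurable
  have h7 := h F hFL hF0 n
  have h8 : |∫ q, H q * G q| ≤ nrm volume H * nrm volume G := cs_ineq hHL hGL
  rw [hH] at h8
  simp only at h8
  refine (le_abs_self _).trans (h8.trans ?_)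
  rw [← hH]
  have h9 : nrm volume H ≤ 2 * exp (-(c / 2 * n)) * ∫ p, φ p ^ 2 := by
    have hI : 0 ≤ ∫ p, φ p ^ 2 := integral_nonneg fun p => sq_nonneg _
    refine Real.sqrt_le_iff.2 ⟨by positivity, ?_⟩
    rw [hH]
    refine h7.trans ?_
    rw [hF2]
    have e7 : (2 * exp (-(c / 2 * n)) * ∫ p, φ p ^ 2) ^ 2 =
        4 * exp (-(c * n)) * (∫ p, φ p ^ 2) ^ 2 := by
      rw [mul_pow, mul_pow, ← Real.exp_nat_mul]
      congr 2
      · norm_num
      · congr 1
        push_cast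
        ring
    rw [e7]
    refine mul_le_mul_of_nonneg_right ?_ (sq_nonneg _)
    have := (exp_pos (-(c * n))).le
    linarith
  have h10 : nrm volume G = ∫ p, ψ p ^ 2 := by
    unfold nrm
    rw [hG2, Real.sqrt_sq (integral_nonneg fun p => sq_nonneg _)]
  rw [h10]
  have h11 := mul_le_mul_of_nonneg_right h9
    (integral_nonneg fun p => sq_nonneg (ψ p) : 0 ≤ ∫ p, ψ p ^ 2)
  refine h11.trans (le_of_eq ?_)
  ring

/-- decay of correlations -/
theorem quenched (ν : Measure ℝ) [IsProbabilityMeasure ν] (h1 : ∀ a, ν {a} ≠ 1)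
    (h2 : ν {a | sin (2 * π * a) ≠ 0} ≠ 0) :
    ∃ c : ℝ, 0 < c ∧ ∀ φ ψ : Tor → ℝ, L2 volume φ → L2 volume ψ →
      (∀ n : ℕ, ∫ w, ((∫ p, φ (orbY S w n p) * ψ p) - (∫ p, φ p) * ∫ p, ψ p) ^ 2 ∂(law ν) ≤
        2 * exp (-(c * n)) * ((∫ p, φ p ^ 2) * ∫ p, ψ p ^ 2)) ∧
      ∀ᵐ w ∂(law ν), ∀ᶠ n : ℕ in atTop,
        |(∫ p, φ (orbY S w n p) * ψ p) - (∫ p, φ p) * ∫ p, ψ p| ≤ exp (-(c * n)) := by
  obtain ⟨c, hc, h⟩ := second_moment ν h1 h2
  have key : ∀ φ ψ : Tor → ℝ, L2 volume φ → L2 volume ψ →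
      ∀ n : ℕ, ∫ w, ((∫ p, φ (orbY S w n p) * ψ p) - (∫ p, φ p) * ∫ p, ψ p) ^ 2 ∂(law ν) ≤
        2 * exp (-(c * n)) * ((∫ p, φ p ^ 2) * ∫ p, ψ p ^ 2) := by
    intro φ ψ hφ hψ n
    obtain ⟨m, hm⟩ : ∃ m, m = ∫ p, φ p := ⟨_, rfl⟩
    have hcst : L2 volume (fun _ : Tor => m) := ⟨measurable_const, integrable_const _⟩
    have hφm : L2 volume (fun p => φ p - m) := L2.sub hφ hcst
    have hiφ : Integrable φ := (var_one (P := volume) φ hφ.1 hφ.2).1
    have hiψ : Integrable ψ := (var_one (P := volume) ψ hψ.1 hψ.2).1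
    have h0 : ∫ p, (φ p - m) = 0 := by
      rw [integral_sub hiφ (integrable_const _), ← hm]
      simp
    have h3 := h (fun p => φ p - m) ψ hφm hψ h0 n
    have e1 : ∀ w, ∫ p, (φ (orbY S w n p) - m) * ψ p =
        (∫ p, φ (orbY S w n p) * ψ p) - m * ∫ p, ψ p := by
      intro w
      have hc := L2.comp hφ (mp_orbY_w mp_S w n)
      rw [← integral_const_mul, ← integral_sub (L2.int_mul hc hψ) (hiψ.const_mul m)]
      congr 1
      funext p
      ring
    simp only [e1] at h3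
    rw [← hm]
    refine h3.trans ?_
    have h4 : ∫ p, (φ p - m) ^ 2 ≤ ∫ p, φ p ^ 2 := by
      have := (var_one (P := volume) φ hφ.1 hφ.2).2
      rw [← hm] at this
      rw [this]
      nlinarith [sq_nonneg m]
    have h5 : 0 ≤ ∫ p, ψ p ^ 2 := integral_nonneg fun p => sq_nonneg _
    exact mul_le_mul_of_nonneg_left (mul_le_mul_of_nonneg_right h4 h5) (by positivity)
  refine ⟨c / 4, by positivity, fun φ ψ hφ hψ => ⟨fun n => ?_, ?_⟩⟩
  · refine (key φ ψ hφ hψ n).trans ?_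
    have hA : 0 ≤ (∫ p, φ p ^ 2) * ∫ p, ψ p ^ 2 :=
      mul_nonneg (integral_nonneg fun p => sq_nonneg _) (integral_nonneg fun p => sq_nonneg _)
    refine mul_le_mul_of_nonneg_right ?_ hA
    refine mul_le_mul_of_nonneg_left (exp_le_exp.2 ?_) two_pos.le
    have : (0:ℝ) ≤ n := Nat.cast_nonneg n
    nlinarith
  · obtain ⟨A, hA⟩ : ∃ A, A = (∫ p, φ p ^ 2) * ∫ p, ψ p ^ 2 := ⟨_, rfl⟩
    have hA0 : 0 ≤ A := by
      rw [hA]
      exact mul_nonneg (integral_nonneg fun p => sq_nonneg _)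
        (integral_nonneg fun p => sq_nonneg _)
    obtain ⟨Z, hZ⟩ : ∃ Z : ℕ → (ℕ → ℝ) → ℝ, Z = fun n w =>
      (∫ p, φ (orbY S w n p) * ψ p) - (∫ p, φ p) * ∫ p, ψ p := ⟨_, rfl⟩
    have hZb : ∀ n w, |Z n w| ≤ nrm volume φ * nrm volume ψ +
        |(∫ p, φ p) * ∫ p, ψ p| := by
      intro n w
      rw [hZ]
      refine (abs_sub _ _).trans (add_le_add ?_ le_rfl)
      have h3 := cs_ineq (L2.comp hφ (mp_orbY_w mp_S w n)) hψ
      rwa [nrm_comp hφ (mp_orbY_w mp_S w n)] at h3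
    have hS : Measurable (Function.uncurry S) := continuous_S.measurable
    have hZm : ∀ n, Measurable (Z n) := by
      intro n
      rw [hZ]
      have hsm : StronglyMeasurable (fun z : (ℕ → ℝ) × Tor => φ (orbY S z.1 n z.2) * ψ z.2) :=
        ((hφ.1.comp (meas_orbY hS n)).mul (hψ.1.comp measurable_snd)).stronglyMeasurable
      exact (hsm.integral_prod_right (ν := volume)).measurable.sub_const _
    have hZi : ∀ n, Integrable (fun w => Z n w ^ 2) (law ν) := by
      intro n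
      refine (integrable_const ((nrm volume φ * nrm volume ψ +
        |(∫ p, φ p) * ∫ p, ψ p|) ^ 2)).mono' ((hZm n).pow_const 2).aestronglyMeasurable
        (Eventually.of_forall fun w => ?_)
      rw [Real.norm_of_nonneg (sq_nonneg _), ← sq_abs]
      exact pow_le_pow_left₀ (abs_nonneg _) (hZb n w) 2
    have hb : ∀ n : ℕ, (law ν) {w | exp (-(c / 4 * n)) < |Z n w|} ≤
        ENNReal.ofReal (2 * A * exp (-(c / 2 * n))) := by
      intro n
      obtain ⟨t, ht⟩ : ∃ t, t = exp (-(c / 4 * n)) ^ 2 := ⟨_, rfl⟩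
      have ht0 : 0 < t := by rw [ht]; positivity
      have h3 := mul_meas_ge_le_integral_of_nonneg (μ := law ν)
        (Eventually.of_forall fun w => sq_nonneg (Z n w)) (hZi n) t
      have h4 := key φ ψ hφ hψ n
      rw [← hA] at h4
      have h5 : (law ν).real {w | t ≤ Z n w ^ 2} ≤ 2 * A * exp (-(c / 2 * n)) := by
        have h6 : t * (law ν).real {w | t ≤ Z n w ^ 2} ≤ 2 * exp (-(c * n)) * A := by
          refine h3.trans ?_
          rw [hZ]
          exact h4
        have h7 : 2 * exp (-(c * n)) * A = t * (2 * A * exp (-(c / 2 * n))) := by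
          have : exp (-(c * n)) = t * exp (-(c / 2 * n)) := by
            rw [ht, ← Real.exp_nat_mul, ← Real.exp_add]
            congr 1
            push_cast
            ring
          rw [this]
          ring
        rw [h7] at h6
        exact le_of_mul_le_mul_left h6 ht0
      have h8 : {w | exp (-(c / 4 * n)) < |Z n w|} ⊆ {w | t ≤ Z n w ^ 2} := by
        intro w hw
        simp only [Set.mem_setOf_eq] at hw ⊢
        rw [ht, ← sq_abs (Z n w)]
        exact pow_le_pow_left₀ (exp_pos _).le hw.le 2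
      refine (measure_mono h8).trans ?_
      rw [← ofReal_measureReal (measure_ne_top _ _)]
      exact ENNReal.ofReal_le_ofReal h5
    have hsum : ∑' n : ℕ, ENNReal.ofReal (2 * A * exp (-(c / 2 * n))) ≠ ⊤ := by
      have hs : Summable (fun n : ℕ => 2 * A * exp (-(c / 2 * n))) := by
        refine Summable.mul_left (2 * A) ?_
        have e : (fun n : ℕ => exp (-(c / 2 * n))) = fun n : ℕ => (exp (-(c / 2))) ^ n := by
          funext n
          rw [← exp_nat_mul]
          congr 1; ring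
        rw [e]
        exact summable_geometric_of_lt_one (exp_pos _).le (by
          rw [exp_lt_one_iff]; linarith)
      rw [← ENNReal.ofReal_tsum_of_nonneg (fun n => by positivity) hs]
      exact ENNReal.ofReal_ne_top
    have hbc := ae_eventually_notMem (μ := law ν)
      (ne_top_of_le_ne_top hsum (ENNReal.tsum_le_tsum hb))
    filter_upwards [hbc] with w hw
    filter_upwards [hw] with n hn
    rw [hZ] at hn
    exact not_lt.1 hn

end Q69.SX
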