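import Pool.Agent.Q69.SX.Fou

/-!
Low frequencies of almost invariant functions, and representation by derivatives of small functions.
-/

set_option autoImplicit false

open MeasureTheory Filter Topology UnitAddTorus Real
open scoped ComplexConjugate ContDiff
open Q69.SM

namespace Q69.SX

section riesz
variable {d : Type*} [Fintype d] [DecidableEq d]

theorem TS_erase (F : Finset (d → ℤ)) (b : (d → ℤ) → ℂ) (hb : b 0 = 0) :
    TS (F.erase 0) b = TS F b := by
  funext q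
  unfold TS PS
  congr 1
  apply Finset.sum_erase
  rw [hb, zero_mul]

theorem sum_split (G : Finset (d → ℤ)) (h0 : (0 : d → ℤ) ∉ G) (x : (d → ℤ) → ℝ)
    (hx : ∀ m, 0 ≤ x m) (ρ : ℕ) (hρ : 1 ≤ ρ) :
    ∑ m ∈ G, x m / sz m ≤
      (∑ m ∈ (Fintype.piFinset (fun _ : d => Finset.Icc (-(ρ:ℤ)) ρ)).erase 0, x m) +
        (1 / (ρ : ℝ)) * ∑ m ∈ G, x m := by
  have hρ' : (1:ℝ) ≤ ρ := by exact_mod_cast hρ
  obtain ⟨B, hB⟩ : ∃ B : Finset (d → ℤ),
    B = (Fintype.piFinset (fun _ : d => Finset.Icc (-(ρ:ℤ)) ρ)).erase 0 := ⟨_, rfl⟩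
  rw [← hB, Finset.mul_sum, ← Finset.sum_filter_add_sum_filter_not G (fun m => m ∈ B)
    (fun m => x m / sz m)]
  refine add_le_add ?_ ?_
  · have h1 : ∑ m ∈ G with m ∈ B, x m / sz m ≤ ∑ m ∈ G with m ∈ B, x m := by
      refine Finset.sum_le_sum fun m hm => ?_
      have hm0 : m ≠ 0 := fun h => h0 (h ▸ (Finset.mem_filter.1 hm).1)
      exact div_le_self (hx m) (one_le_sz hm0)
    refine h1.trans (Finset.sum_le_sum_of_subset_of_nonneg (fun m hm => (Finset.mem_filter.1 hm).2)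
      fun m _ _ => hx m)
  · have h1 : ∑ m ∈ G with m ∉ B, x m / sz m ≤ ∑ m ∈ G with m ∉ B, 1 / (ρ:ℝ) * x m := by
      refine Finset.sum_le_sum fun m hm => ?_
      have hm0 : m ≠ 0 := fun h => h0 (h ▸ (Finset.mem_filter.1 hm).1)
      have hmB := (Finset.mem_filter.1 hm).2
      have h2 : ∃ c, ¬ (m c ∈ Finset.Icc (-(ρ:ℤ)) ρ) := by
        by_contra hcon
        push Not at hcon
        apply hmB
        rw [hB]
        exact Finset.mem_erase.2 ⟨hm0, Fintype.mem_piFinset.2 hcon⟩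
      obtain ⟨c, hc⟩ := h2
      have h3 : (ρ:ℝ) ≤ sz m := by
        have h4 : (ρ:ℤ) < |m c| := by
          rw [Finset.mem_Icc, ← abs_le] at hc
          exact not_le.1 hc
        have h5 : (ρ:ℝ) < |(m c : ℝ)| := by exact_mod_cast h4
        have h6 := le_sz m c
        rw [← sq_abs] at h6
        nlinarith
      have h7 : 1 / sz m ≤ 1 / (ρ:ℝ) := div_le_div_of_nonneg_left zero_le_one (by linarith) h3
      have h8 := mul_le_mul_of_nonneg_right h7 (hx m)
      rw [div_eq_mul_one_div, mul_comm]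
      exact h8
    refine h1.trans (Finset.sum_le_sum_of_subset_of_nonneg (Finset.filter_subset _ _)
      fun m _ _ => ?_)
    have := hx m
    positivity

theorem riesz {f : ℕ → X d → ℝ} (hf : ∀ n, L2 volume (f n)) (hf1 : ∀ n, nrm volume (f n) ≤ 1)
    (h0 : ∀ n, fc (f n) 0 = 0)
    (hlow : ∀ m : d → ℤ, m ≠ 0 → Tendsto (fun n => fc (f n) m) atTop (𝓝 0)) :
    ∃ u : d → ℕ → X d → ℝ, (∀ c n, Sm (u c n)) ∧ (∀ c n e, nrm volume (D e (u c n)) ≤ 1) ∧
      (∀ c, Tendsto (fun n => nrm volume (u c n)) atTop (𝓝 0)) ∧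
      Tendsto (fun n => nrm volume (fun q => f n q - ∑ c, D c (u c n) q)) atTop (𝓝 0) := by
  have hF : ∀ n : ℕ, ∃ F : Finset (d → ℤ),
      nrm volume (fun q => f n q - TS F (fc (f n)) q) ≤ 1 / ((n:ℝ) + 1) := fun n =>
    approx_TS (hf n) (by positivity)
  choose F hF using hF
  have hG0 : ∀ n, (0 : d → ℤ) ∉ (F n).erase 0 := fun n => Finset.notMem_erase 0 (F n)
  have hne : ∀ n, ∀ m ∈ (F n).erase 0, m ≠ 0 := fun n m hm => (Finset.mem_erase.1 hm).1
  have hbes : ∀ n, ∑ m ∈ (F n).erase 0, ‖fc (f n) m‖ ^ 2 ≤ 1 := by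
    intro n
    refine (bessel (hf n) _).trans ?_
    have := pow_le_pow_left₀ (nrm_nonneg _) (hf1 n) 2
    simpa using this
  refine ⟨fun c n => TS ((F n).erase 0) (pot (fc (f n)) c), fun c n => Sm_TS _ _, ?_, ?_, ?_⟩
  · intro c n e
    have h1 : D e (TS ((F n).erase 0) (pot (fc (f n)) c)) =
        TS ((F n).erase 0) (fun m => pot (fc (f n)) c m * (2 * π * Complex.I * m e)) := by
      funext q
      exact D_TS _ _ _ _
    rw [h1]
    have h2 := nrm_TS ((F n).erase 0) (fun m => pot (fc (f n)) c m * (2 * π * Complex.I * m e))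
    have h3 : ∑ m ∈ (F n).erase 0, ‖pot (fc (f n)) c m * (2 * π * Complex.I * m e)‖ ^ 2 ≤
        ∑ m ∈ (F n).erase 0, ‖fc (f n) m‖ ^ 2 :=
      Finset.sum_le_sum fun m hm => norm_pot_D (hne n m hm) _ _ _
    have h4 := (h2.trans h3).trans (hbes n)
    exact (sq_le_one_iff₀ (nrm_nonneg _)).1 h4
  · intro c
    have key : Tendsto (fun n => ∑ m ∈ (F n).erase 0, ‖fc (f n) m‖ ^ 2 / sz m) atTop (𝓝 0) := by
      rw [Metric.tendsto_atTop]
      intro ε hε
      obtain ⟨ρ, hρ⟩ := exists_nat_gt (2 / ε)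
      have hρ0 : (0:ℝ) < ρ := lt_trans (by positivity) hρ
      have hρ1 : 1 ≤ ρ := Nat.succ_le_of_lt (Nat.cast_pos.1 hρ0)
      have hfin : Tendsto (fun n => ∑ m ∈ (Fintype.piFinset
          (fun _ : d => Finset.Icc (-(ρ:ℤ)) ρ)).erase 0, ‖fc (f n) m‖ ^ 2) atTop (𝓝 0) := by
        have h1 : Tendsto (fun n => ∑ m ∈ (Fintype.piFinset
            (fun _ : d => Finset.Icc (-(ρ:ℤ)) ρ)).erase 0, ‖fc (f n) m‖ ^ 2) atTop
            (𝓝 (∑ m ∈ (Fintype.piFinset (fun _ : d => Finset.Icc (-(ρ:ℤ)) ρ)).erase 0, 0)) := by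
          refine tendsto_finset_sum _ fun m hm => ?_
          have h2 := (hlow m (Finset.mem_erase.1 hm).1).norm.pow 2
          simpa using h2
        simpa using h1
      rw [Metric.tendsto_atTop] at hfin
      obtain ⟨N, hN⟩ := hfin (ε / 2) (by positivity)
      refine ⟨N, fun n hn => ?_⟩
      have h1 := hN n hn
      rw [Real.dist_eq, sub_zero, abs_of_nonneg (Finset.sum_nonneg fun _ _ => sq_nonneg _)] at h1
      have h2 := sum_split _ (hG0 n) (fun m => ‖fc (f n) m‖ ^ 2) (fun _ => sq_nonneg _) ρ hρ1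
      have h3 : (1 / (ρ : ℝ)) * ∑ m ∈ (F n).erase 0, ‖fc (f n) m‖ ^ 2 ≤ ε / 2 := by
        have h4 : 1 / (ρ:ℝ) ≤ ε / 2 := by
          rw [div_le_iff₀ hρ0]
          rw [div_lt_iff₀ hε] at hρ
          linarith
        have h5 := mul_le_mul h4 (hbes n) (Finset.sum_nonneg fun _ _ => sq_nonneg _)
          (by positivity)
        linarith
      rw [Real.dist_eq, sub_zero, abs_of_nonneg (Finset.sum_nonneg fun m _ =>
        div_nonneg (sq_nonneg _) (sz_nonneg m))]
      linarith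
    have h2 : Tendsto (fun n => √(∑ m ∈ (F n).erase 0, ‖fc (f n) m‖ ^ 2 / sz m)) atTop (𝓝 0) := by
      have := (Real.continuous_sqrt.tendsto 0).comp key
      simpa [Function.comp_def] using this
    refine squeeze_zero (fun n => nrm_nonneg _) (fun n => ?_) h2
    apply Real.le_sqrt_of_sq_le
    refine (nrm_TS _ _).trans (Finset.sum_le_sum fun m hm => norm_pot (hne n m hm) _ _)
  · have h1 : ∀ n, (fun q => f n q - ∑ c, D c (TS ((F n).erase 0) (pot (fc (f n)) c)) q) =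
        fun q => f n q - TS (F n) (fc (f n)) q := by
      intro n
      funext q
      rw [sum_D_pot _ (hG0 n), TS_erase _ _ (h0 n)]
    simp only [h1]
    exact squeeze_zero (fun n => nrm_nonneg _) hF tendsto_one_div_add_atTop_nhds_zero_nat

end riesz

section low
variable {κ : Type*} [Fintype κ] [DecidableEq κ]

/-- a real character -/
noncomputable def ch (m : κ ⊕ κ → ℤ) (b : ℂ) : X (κ ⊕ κ) → ℝ := TS {m} (fun _ => b)

omit [DecidableEq κ] in
theorem ch_apply (m : κ ⊕ κ → ℤ) (b : ℂ) (q : X (κ ⊕ κ)) : ch m b q = (b * mFourier m q).re := by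
  unfold ch TS PS
  simp

omit [DecidableEq κ] in
theorem ch_le (m : κ ⊕ κ → ℤ) (b : ℂ) (q : X (κ ⊕ κ)) : |ch m b q| ≤ ‖b‖ := by
  rw [ch_apply]
  refine (Complex.abs_re_le_norm _).trans ?_
  rw [norm_mul]
  have := (mFourier m).norm_coe_le_norm q
  rw [mFourier_norm] at this
  have := mul_le_mul_of_nonneg_left this (norm_nonneg b)
  linarith

theorem Sm_ch (m : κ ⊕ κ → ℤ) (b : ℂ) : Sm (ch m b) := Sm_TS _ _

omit [DecidableEq κ] in
/-- the weights near the critical lines are small in the mean -/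
theorem small_weight (i : κ) {ε : ℝ} (hε : 0 < ε) :
    ∃ δ : ℝ, 0 < δ ∧ nrm volume (fun q : X (κ ⊕ κ) => δ / (Th i q ^ 2 + δ)) ≤ ε := by
  have hnull : ∀ᵐ q : X (κ ⊕ κ), Th i q ≠ 0 := by
    have h1 : (volume : Measure UnitAddCircle) {x | cs x = 0} = 0 := by
      refine measure_mono_null (t := {x | sn x = 1} ∪ {x | sn x = -1}) ?_
        (measure_union_null (null_level 1) (null_level (-1)))
      intro x hx
      simp only [Set.mem_setOf_eq] at hx
      have h2 := cs_sq_add x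
      rw [hx] at h2
      have h3 : (sn x - 1) * (sn x + 1) = 0 := by linarith
      rcases mul_eq_zero.1 h3 with h | h
      · exact Or.inl (by simp only [Set.mem_setOf_eq]; linarith)
      · exact Or.inr (by simp only [Set.mem_setOf_eq]; linarith)
    haveI hpr : IsProbabilityMeasure (volume : Measure UnitAddCircle) := ⟨by simp⟩
    have h2 : MeasurePreserving (Function.eval (Sum.inl i)) (volume : Measure (X (κ ⊕ κ)))
        (volume : Measure UnitAddCircle) :=
      measurePreserving_eval (fun _ : κ ⊕ κ => (volume : Measure UnitAddCircle)) (Sum.inl i)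
    have h3 : ∀ᵐ x : UnitAddCircle, cs x ≠ 0 := compl_mem_ae_iff.2 h1
    filter_upwards [h2.quasiMeasurePreserving.ae h3] with q hq
    unfold Th th
    exact mul_ne_zero (by positivity) hq
  have hlim : Tendsto (fun n : ℕ => ∫ q : X (κ ⊕ κ),
      ((1 / ((n:ℝ) + 1)) / (Th i q ^ 2 + 1 / ((n:ℝ) + 1))) ^ 2) atTop
      (𝓝 (∫ _q : X (κ ⊕ κ), (0:ℝ))) := by
    refine tendsto_integral_of_dominated_convergence (fun _ => (1:ℝ)) (fun n => ?_)
      (integrable_const 1) (fun n => Eventually.of_forall fun q => ?_) ?_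
    · have h1 := (Sm_Th i).measurable
      exact ((measurable_const.div ((h1.pow_const 2).add_const _)).pow_const 2).aestronglyMeasurable
    · have hp : (0:ℝ) < 1 / ((n:ℝ) + 1) := by positivity
      have h1 : 0 ≤ Th i q ^ 2 := sq_nonneg _
      rw [Real.norm_of_nonneg (sq_nonneg _), sq_le_one_iff₀ (by positivity),
        div_le_one (by positivity)]
      linarith
    · filter_upwards [hnull] with q hq
      have h1 : Tendsto (fun n : ℕ => 1 / ((n:ℝ) + 1)) atTop (𝓝 0) :=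
        tendsto_one_div_add_atTop_nhds_zero_nat
      have h2 : Tendsto (fun n : ℕ => Th i q ^ 2 + 1 / ((n:ℝ) + 1)) atTop (𝓝 (Th i q ^ 2 + 0)) :=
        tendsto_const_nhds.add h1
      have h3 := (h1.div h2 (by rw [add_zero]; positivity)).pow 2
      simpa using h3
  rw [integral_zero] at hlim
  have h2 : Tendsto (fun n : ℕ => nrm volume (fun q : X (κ ⊕ κ) =>
      (1 / ((n:ℝ) + 1)) / (Th i q ^ 2 + 1 / ((n:ℝ) + 1)))) atTop (𝓝 0) := by
    have := (Real.continuous_sqrt.tendsto 0).comp hlim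
    simpa [nrm, Function.comp_def] using this
  obtain ⟨n, hn⟩ := (h2.eventually_lt_const hε).exists
  exact ⟨1 / ((n:ℝ) + 1), by positivity, hn.le⟩

theorem D_of_inl (G : UnitAddCircle → ℝ) (i j : κ) (q : X (κ ⊕ κ)) :
    D (Sum.inr j) (fun q : X (κ ⊕ κ) => G (q (Sum.inl i))) q = 0 := by
  have : (fun t : ℝ => G ((sh (Sum.inr j) t q) (Sum.inl i))) = fun _ => G (q (Sum.inl i)) := by
    funext t
    unfold sh
    simp
  unfold D
  rw [this]
  exact deriv_const _ _

theorem lowA (i : κ) {f : ℕ → X (κ ⊕ κ) → ℝ} {s : ℕ → ℝ} {t0 : ℝ} (ht0 : 0 < t0)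
    (hs : ∀ n, t0 ≤ |s n|) (hf : ∀ n, L2 volume (f n)) (hf1 : ∀ n, nrm volume (f n) ≤ 1)
    (hinv : Tendsto (fun n => nrm volume (fun q => f n (WX (s n) q) - f n q)) atTop (𝓝 0))
    (m : κ ⊕ κ → ℤ) (hm : m (Sum.inr i) ≠ 0) (b : ℂ) :
    Tendsto (fun n => ∫ q, f n q * ch m b q) atTop (𝓝 0) := by
  rw [Metric.tendsto_atTop]
  intro ε hε
  obtain ⟨δ, hδ0, hδ⟩ := small_weight i (ε := ε / (4 * (‖b‖ + 1))) (by positivity)
  obtain ⟨b', hb'⟩ : ∃ b' : ℂ, b' = b / (2 * π * Complex.I * m (Sum.inr i)) := ⟨_, rfl⟩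
  have hbb : b' * (2 * π * Complex.I * m (Sum.inr i)) = b := by
    have h1 : (2 * π * Complex.I * m (Sum.inr i) : ℂ) ≠ 0 := by
      simp [Real.pi_ne_zero, hm]
    rw [hb']
    field_simp
  have hDE : ∀ q, D (Sum.inr i) (ch m b') q = ch m b q := by
    intro q
    unfold ch
    rw [D_TS]
    unfold TS PS
    simp only [Finset.sum_singleton]
    rw [hbb]
  have hpos : ∀ q : X (κ ⊕ κ), Th i q ^ 2 + δ ≠ 0 := fun q => by
    have := sq_nonneg (Th i q); positivity
  obtain ⟨φ, hφ⟩ : ∃ φ : X (κ ⊕ κ) → ℝ, φ = fun q => Th i q * (Th i q ^ 2 + δ)⁻¹ := ⟨_, rfl⟩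
  have hφS : Sm φ := by
    rw [hφ]
    exact (Sm_Th i).mul ((((Sm_Th i).pow 2).add (Sm.const δ)).inv hpos)
  have hDφ : ∀ q, D (Sum.inr i) φ q = 0 := by
    intro q
    rw [hφ]
    exact D_of_inl (fun x => th x * (th x ^ 2 + δ)⁻¹) i i q
  obtain ⟨w, hw⟩ : ∃ w : X (κ ⊕ κ) → ℝ, w = fun q => φ q * ch m b' q := ⟨_, rfl⟩
  have hwS : Sm w := by rw [hw]; exact hφS.mul (Sm_ch m b')
  have hDw : ∀ q, D (Sum.inr i) w q = φ q * ch m b q := by
    intro q
    rw [hw, D_mul hφS (Sm_ch m b'), hDφ, hDE]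
    ring
  have h1 := null_base i ht0 hs hf hf1 hinv (w := fun _ => w)
    (C := nrm volume w + ∑ c, nrm volume (D c w)) (fun _ => hwS)
    (fun _ => by
      have := Finset.sum_nonneg fun c (_ : c ∈ Finset.univ) => nrm_nonneg (μ := volume) (D c w)
      linarith)
    (fun _ c => by
      have := Finset.single_le_sum (f := fun c => nrm volume (D c w))
        (fun c _ => nrm_nonneg _) (Finset.mem_univ c)
      have := nrm_nonneg (μ := volume) w
      linarith)
  rw [Metric.tendsto_atTop] at h1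
  obtain ⟨N, hN⟩ := h1 (ε / 2) (by positivity)
  refine ⟨N, fun n hn => ?_⟩
  have h2 := hN n hn
  rw [Real.dist_eq, sub_zero] at h2 ⊢
  obtain ⟨om, hom⟩ : ∃ om : X (κ ⊕ κ) → ℝ, om = fun q => δ / (Th i q ^ 2 + δ) := ⟨_, rfl⟩
  have homS : Sm om := by
    rw [hom]
    simp only [div_eq_mul_inv]
    exact (Sm.const δ).mul ((((Sm_Th i).pow 2).add (Sm.const δ)).inv hpos)
  have e1 : ∀ q, f n q * ch m b q = f n q * (Th i q * D (Sum.inr i) w q) +
      f n q * (ch m b q * om q) := by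
    intro q
    rw [hDw, hφ, hom]
    have := hpos q
    field_simp
  simp only [e1]
  have s1 : Sm (fun q => Th i q * D (Sum.inr i) w q) := (Sm_Th i).mul (hwS.D _)
  have s2 : Sm (fun q => ch m b q * om q) := (Sm_ch m b).mul homS
  rw [integral_add (L2.int_mul (hf n) s1.L2) (L2.int_mul (hf n) s2.L2)]
  have h3 : |∫ q, f n q * (ch m b q * om q)| ≤ ε / 4 := by
    refine (cs_ineq (hf n) s2.L2).trans ?_
    have h4 : nrm volume (fun q => ch m b q * om q) ≤ ‖b‖ * nrm volume om :=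
      nrm_bmul homS.L2 (Sm_ch m b).measurable (norm_nonneg b) (ch_le m b)
    rw [← hom] at hδ
    have h5 : ‖b‖ * nrm volume om ≤ ‖b‖ * (ε / (4 * (‖b‖ + 1))) :=
      mul_le_mul_of_nonneg_left hδ (norm_nonneg b)
    have h6 : ‖b‖ * (ε / (4 * (‖b‖ + 1))) ≤ ε / 4 := by
      rw [mul_div_assoc', div_le_div_iff₀ (by positivity) (by norm_num)]
      nlinarith [norm_nonneg b]
    have h7 := mul_le_mul_of_nonneg_right (hf1 n) (nrm_nonneg (μ := volume)
      (fun q => ch m b q * om q))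
    linarith
  have h8 := abs_add_le (∫ q, f n q * (Th i q * D (Sum.inr i) w q))
    (∫ q, f n q * (ch m b q * om q))
  linarith

omit [DecidableEq κ] in
theorem ch_SXi (a : ℝ) (m : κ ⊕ κ → ℤ) (hm : ∀ i, m (Sum.inr i) = 0) (b : ℂ) (q : X (κ ⊕ κ)) :
    ch m b (SXi a q) = ch (Sum.elim (fun _ => 0) (fun i => m (Sum.inl i))) b q := by
  rw [ch_apply, ch_apply]
  congr 2
  have h1 : ∀ (m : κ ⊕ κ → ℤ) (q : X (κ ⊕ κ)), mFourier m q = ∏ e, fourier (m e) (q e) :=
    fun _ _ => rfl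
  rw [h1, h1, Fintype.prod_sum_type, Fintype.prod_sum_type]
  simp only [hm, SXi, Sum.elim_inl, Sum.elim_inr, fourier_zero, Finset.prod_const_one, mul_one,
    one_mul]

theorem lowB {f f' : ℕ → X (κ ⊕ κ) → ℝ} {a : ℕ → ℝ} (hf : ∀ n, L2 volume (f n))
    (hf' : ∀ n, L2 volume (f' n))
    (hff : Tendsto (fun n => nrm volume (fun q => f' n q - f n (SX (a n) q))) atTop (𝓝 0))
    (hlow : ∀ (m : κ ⊕ κ → ℤ) (i : κ), m (Sum.inr i) ≠ 0 → ∀ b : ℂ,
      Tendsto (fun n => ∫ q, f n q * ch m b q) atTop (𝓝 0))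
    (m : κ ⊕ κ → ℤ) (hm : ∀ i, m (Sum.inr i) = 0) (i : κ) (hi : m (Sum.inl i) ≠ 0) (b : ℂ) :
    Tendsto (fun n => ∫ q, f' n q * ch m b q) atTop (𝓝 0) := by
  have h1 := hlow (Sum.elim (fun _ => 0) (fun i => m (Sum.inl i))) i hi b
  have h2 : Tendsto (fun n => ∫ q, (f' n q - f n (SX (a n) q)) * ch m b q) atTop (𝓝 0) := by
    refine squeeze_zero_norm (fun n => ?_) (by simpa using hff.mul_const (nrm volume (ch m b)))
    rw [Real.norm_eq_abs]
    exact cs_ineq (L2.sub (hf' n) (L2.comp (hf n) (mp_SX (a n)))) (Sm_ch m b).L2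
  have h3 := h1.add h2
  rw [add_zero] at h3
  refine h3.congr fun n => ?_
  have e1 : ∫ q, f n q * ch (Sum.elim (fun _ => 0) (fun i => m (Sum.inl i))) b q =
      ∫ q, f n (SX (a n) q) * ch m b q := by
    rw [← int_comp (f := fun q => f n q * ch (Sum.elim (fun _ => 0) (fun i => m (Sum.inl i))) b q)
      ((hf n).1.mul (Sm_ch _ b).measurable) (mp_SX (a n))]
    congr 1
    funext q
    rw [← ch_SXi (a n) m hm b, SXi_SX]
  have hfc := L2.comp (hf n) (mp_SX (a n))
  rw [e1, ← integral_add (L2.int_mul hfc (Sm_ch m b).L2)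
    (L2.int_mul (L2.sub (hf' n) hfc) (Sm_ch m b).L2)]
  congr 1
  funext q
  ring

theorem fc_tendsto {f : ℕ → X (κ ⊕ κ) → ℝ} (hf : ∀ n, L2 volume (f n)) (m : κ ⊕ κ → ℤ)
    (h : ∀ b : ℂ, Tendsto (fun n => ∫ q, f n q * ch (-m) b q) atTop (𝓝 0)) :
    Tendsto (fun n => fc (f n) m) atTop (𝓝 0) := by
  have hint : ∀ n, Integrable (fun q : X (κ ⊕ κ) => mFourier (-m) q * (f n q : ℂ)) := by
    intro n
    have h3 : Integrable (fun q : X (κ ⊕ κ) => (f n q : ℂ)) :=
      (memLp_of_L2 (hf n)).integrable (by norm_num)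
    refine h3.bdd_mul (c := 1) (mFourier (-m)).continuous.aestronglyMeasurable
      (Eventually.of_forall fun q => ?_)
    have := (mFourier (-m)).norm_coe_le_norm q
    rwa [mFourier_norm] at this
  have hre : ∀ n, (fc (f n) m).re = ∫ q, f n q * ch (-m) 1 q := by
    intro n
    unfold fc
    rw [← Complex.reCLM_apply, ← ContinuousLinearMap.integral_comp_comm _ (hint n)]
    congr 1
    funext q
    rw [ch_apply]
    simp [mul_comm]
  have him : ∀ n, (fc (f n) m).im = ∫ q, f n q * ch (-m) (-Complex.I) q := by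
    intro n
    unfold fc
    rw [← Complex.imCLM_apply, ← ContinuousLinearMap.integral_comp_comm _ (hint n)]
    congr 1
    funext q
    rw [ch_apply]
    simp [mul_comm]
  rw [tendsto_zero_iff_norm_tendsto_zero]
  have h1 := (h 1).abs
  have h2 := (h (-Complex.I)).abs
  have h3 := h1.add h2
  rw [abs_zero, add_zero] at h3
  refine squeeze_zero (fun n => norm_nonneg _) (fun n => ?_) h3
  rw [← hre, ← him]
  exact Complex.norm_le_abs_re_add_abs_im _

end low

end Q69.SX
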