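import Pool.Agent.Q69.SX.Tor
import Pool.Agent.Q69.SM.Erg

/-!
Many points moved by the same standard map.
-/

set_option autoImplicit false

open MeasureTheory Filter Topology Real
open scoped ContDiff
open Q69.SM

namespace Q69.SX

variable {κ : Type*} [Fintype κ] [DecidableEq κ]

/-- the `i`-th point -/
def pr (i : κ) (q : X (κ ⊕ κ)) : Tor := (q (Sum.inl i), q (Sum.inr i))

/-- all points moved by the standard map -/
noncomputable def SX (a : ℝ) (q : X (κ ⊕ κ)) : X (κ ⊕ κ) :=
  Sum.elim (fun i => (S a (pr i q)).1) (fun i => (S a (pr i q)).2)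

/-- inverse of `SX a` -/
noncomputable def SXi (a : ℝ) (q : X (κ ⊕ κ)) : X (κ ⊕ κ) :=
  Sum.elim (fun i => q (Sum.inr i)) (fun i => q (Sum.inr i) + q (Sum.inr i) - q (Sum.inl i) +
    ((a * sn (q (Sum.inr i)) : ℝ) : UnitAddCircle))

/-- all points moved by the vertical shear -/
noncomputable def WX (s : ℝ) (q : X (κ ⊕ κ)) : X (κ ⊕ κ) :=
  Sum.elim (fun i => (V0 s (pr i q)).1) (fun i => (V0 s (pr i q)).2)

omit [Fintype κ] [DecidableEq κ] in
theorem pr_SX (a : ℝ) (i : κ) (q : X (κ ⊕ κ)) : pr i (SX a q) = S a (pr i q) := rfl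

omit [Fintype κ] [DecidableEq κ] in
theorem pr_WX (s : ℝ) (i : κ) (q : X (κ ⊕ κ)) : pr i (WX s q) = V0 s (pr i q) := rfl

omit [Fintype κ] [DecidableEq κ] in
theorem SX_SXi (a : ℝ) (q : X (κ ⊕ κ)) : SX a (SXi a q) = q := by
  funext e
  rcases e with i | i
  · simp only [SX, SXi, pr, S, Sum.elim_inl, Sum.elim_inr]
    abel
  · simp only [SX, SXi, pr, S, Sum.elim_inl, Sum.elim_inr]

omit [Fintype κ] [DecidableEq κ] in
theorem SXi_SX (a : ℝ) (q : X (κ ⊕ κ)) : SXi a (SX a q) = q := by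
  funext e
  rcases e with i | i
  · simp only [SX, SXi, pr, S, Sum.elim_inl, Sum.elim_inr]
  · simp only [SX, SXi, pr, S, Sum.elim_inl, Sum.elim_inr]
    abel

omit [Fintype κ] [DecidableEq κ] in
theorem SX_WX (a b : ℝ) (q : X (κ ⊕ κ)) : SX a (WX (b - a) q) = SX b q := by
  funext e
  rcases e with i | i
  · change (S a (V0 (b - a) (pr i q))).1 = (S b (pr i q)).1
    rw [S_V0]
  · change (S a (V0 (b - a) (pr i q))).2 = (S b (pr i q)).2
    rw [S_V0]

omit [Fintype κ] [DecidableEq κ] in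
theorem WX_zero (q : X (κ ⊕ κ)) : WX 0 q = q := by
  funext e
  rcases e with i | i <;> simp [WX, V0, pr]

omit [Fintype κ] [DecidableEq κ] in
theorem WX_WX (s t : ℝ) (q : X (κ ⊕ κ)) : WX s (WX t q) = WX (s + t) q := by
  funext e
  rcases e with i | i
  · simp [WX, V0, pr]
  · simp only [WX, V0, pr, Sum.elim_inl, Sum.elim_inr]
    rw [← add_assoc, ← AddCircle.coe_add]
    congr 2
    ring

/-- the derivative of `sin 2πx` -/
noncomputable def th (x : UnitAddCircle) : ℝ := 2 * π * cs x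

/-- `th` at the `i`-th point -/
noncomputable def Th (i : κ) (q : X (κ ⊕ κ)) : ℝ := th (q (Sum.inl i))

/-- lift of `SX a` -/
noncomputable def SL (a : ℝ) (p : κ ⊕ κ → ℝ) : κ ⊕ κ → ℝ :=
  Sum.elim (fun i => 2 * p (Sum.inl i) - p (Sum.inr i) + a * sin (2 * π * p (Sum.inl i)))
    (fun i => p (Sum.inl i))

/-- lift of `SXi a` -/
noncomputable def SLi (a : ℝ) (p : κ ⊕ κ → ℝ) : κ ⊕ κ → ℝ :=
  Sum.elim (fun i => p (Sum.inr i))
    (fun i => 2 * p (Sum.inr i) - p (Sum.inl i) + a * sin (2 * π * p (Sum.inr i)))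

/-- lift of `WX s` -/
noncomputable def WL (s : ℝ) (p : κ ⊕ κ → ℝ) : κ ⊕ κ → ℝ :=
  Sum.elim (fun i => p (Sum.inl i)) (fun i => p (Sum.inr i) - s * sin (2 * π * p (Sum.inl i)))

omit [Fintype κ] [DecidableEq κ] in
theorem cov_SL (a : ℝ) (p : κ ⊕ κ → ℝ) : cov (SL a p) = SX a (cov p) := by
  funext e
  rcases e with i | i
  · simp only [cov, SL, SX, S, pr, Sum.elim_inl, sn_coe]
    rw [← AddCircle.coe_add, ← AddCircle.coe_sub, ← AddCircle.coe_add]
    congr 1
    ring
  · rfl

omit [Fintype κ] [DecidableEq κ] in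
theorem cov_SLi (a : ℝ) (p : κ ⊕ κ → ℝ) : cov (SLi a p) = SXi a (cov p) := by
  funext e
  rcases e with i | i
  · rfl
  · simp only [cov, SLi, SXi, Sum.elim_inr, sn_coe]
    rw [← AddCircle.coe_add, ← AddCircle.coe_sub, ← AddCircle.coe_add]
    congr 1
    ring

omit [Fintype κ] [DecidableEq κ] in
theorem cov_WL (s : ℝ) (p : κ ⊕ κ → ℝ) : cov (WL s p) = WX s (cov p) := by
  funext e
  rcases e with i | i
  · rfl
  · simp only [cov, WL, WX, V0, pr, Sum.elim_inr, sn_coe]
    rw [← AddCircle.coe_add]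
    congr 1
    ring

omit [DecidableEq κ] in
theorem smooth_SL (a : ℝ) : ContDiff ℝ ∞ (SL (κ := κ) a) := by
  rw [contDiff_pi]
  rintro (i | i)
  · simp only [SL, Sum.elim_inl]
    fun_prop
  · simp only [SL, Sum.elim_inr]
    fun_prop

omit [DecidableEq κ] in
theorem smooth_SLi (a : ℝ) : ContDiff ℝ ∞ (SLi (κ := κ) a) := by
  rw [contDiff_pi]
  rintro (i | i)
  · simp only [SLi, Sum.elim_inl]
    fun_prop
  · simp only [SLi, Sum.elim_inr]
    fun_prop

omit [DecidableEq κ] in
theorem smooth_WL (s : ℝ) : ContDiff ℝ ∞ (WL (κ := κ) s) := by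
  rw [contDiff_pi]
  rintro (i | i)
  · simp only [WL, Sum.elim_inl]
    fun_prop
  · simp only [WL, Sum.elim_inr]
    fun_prop

omit [DecidableEq κ] in
theorem Sm.compS {G : X (κ ⊕ κ) → ℝ} (h : Sm G) (a : ℝ) : Sm (fun q => G (SX a q)) := by
  unfold Sm
  simp only [← cov_SL]
  have h' : ContDiff ℝ ∞ (fun p => G (cov p)) := h
  exact h'.comp (smooth_SL a)

omit [DecidableEq κ] in
theorem Sm.compSi {G : X (κ ⊕ κ) → ℝ} (h : Sm G) (a : ℝ) : Sm (fun q => G (SXi a q)) := by
  unfold Sm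
  simp only [← cov_SLi]
  have h' : ContDiff ℝ ∞ (fun p => G (cov p)) := h
  exact h'.comp (smooth_SLi a)

omit [DecidableEq κ] in
theorem Sm.compW {G : X (κ ⊕ κ) → ℝ} (h : Sm G) (s : ℝ) : Sm (fun q => G (WX s q)) := by
  unfold Sm
  simp only [← cov_WL]
  have h' : ContDiff ℝ ∞ (fun p => G (cov p)) := h
  exact h'.comp (smooth_WL s)

omit [DecidableEq κ] in
theorem Sm_Th (i : κ) : Sm (Th i) := by
  unfold Sm Th th cov
  simp only [cs_coe]
  fun_prop

/-- chain rule along a curve -/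
theorem chain {d : Type*} [Fintype d] [DecidableEq d] {G : X d → ℝ} (h : Sm G)
    {γ : ℝ → d → ℝ} {v : d → ℝ} (hγ : HasDerivAt γ v 0) :
    HasDerivAt (fun t => G (cov (γ t))) (fderiv ℝ (fun p => G (cov p)) (γ 0) v) 0 := by
  have h1 : HasFDerivAt (fun p => G (cov p)) (fderiv ℝ (fun p => G (cov p)) (γ 0)) (γ 0) :=
    ((ContDiff.differentiable h (by simp)) _).hasFDerivAt
  exact h1.comp_hasDerivAt (0:ℝ) hγ

theorem hasDerivAt_sin_line (x r : ℝ) :
    HasDerivAt (fun t : ℝ => sin (2 * π * (x + t * r))) (2 * π * r * cos (2 * π * x)) 0 := by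
  have h1 : HasDerivAt (fun t : ℝ => 2 * π * (x + t * r)) (2 * π * r) 0 := by
    have := (((hasDerivAt_id (0:ℝ)).mul_const r).const_add x).const_mul (2 * π)
    simpa using this
  have h2 := h1.sin
  refine h2.congr_deriv ?_
  rw [zero_mul, add_zero]
  ring

theorem D_S_x {G : X (κ ⊕ κ) → ℝ} (h : Sm G) (a : ℝ) (i : κ) (q : X (κ ⊕ κ)) :
    D (Sum.inl i) (fun q => G (SX a q)) q =
      (2 + a * Th i q) * D (Sum.inl i) G (SX a q) + D (Sum.inr i) G (SX a q) := by
  obtain ⟨p, rfl⟩ := cov_surj q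
  have h1 : HasDerivAt (fun t : ℝ => SL a (p + t • Pi.single (Sum.inl i) (1:ℝ)))
      ((2 + a * (2 * π * cos (2 * π * p (Sum.inl i)))) • Pi.single (Sum.inl i) (1:ℝ) +
        Pi.single (Sum.inr i) (1:ℝ)) 0 := by
    rw [hasDerivAt_pi]
    rintro (j | j)
    · simp only [SL, Sum.elim_inl, Pi.add_apply, Pi.smul_apply, smul_eq_mul]
      by_cases hj : j = i
      · subst hj
        have h2 := hasDerivAt_sin_line (p (Sum.inl j)) 1
        simp only [mul_one] at h2
        have h3 : HasDerivAt (fun t : ℝ => 2 * (p (Sum.inl j) + t)) 2 0 := by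
          have := ((hasDerivAt_id (0:ℝ)).const_add (p (Sum.inl j))).const_mul 2
          simpa using this
        have h4 := (h3.sub_const (p (Sum.inr j))).add (h2.const_mul a)
        simp only [Pi.single_eq_same, mul_one, ne_eq, reduceCtorEq, not_false_eq_true,
          Pi.single_eq_of_ne, mul_zero, add_zero]
        refine h4.congr_deriv ?_
        ring
      · have e1 : (Pi.single (Sum.inl i) (1:ℝ) : κ ⊕ κ → ℝ) (Sum.inl j) = 0 :=
          Pi.single_eq_of_ne (fun h => hj (Sum.inl_injective h)) _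
        simp only [e1, mul_zero, add_zero, ne_eq, reduceCtorEq, not_false_eq_true,
          Pi.single_eq_of_ne]
        exact hasDerivAt_const _ _
    · simp only [SL, Sum.elim_inr, Pi.add_apply, Pi.smul_apply, smul_eq_mul]
      by_cases hj : j = i
      · subst hj
        simp only [Pi.single_eq_same, mul_one, ne_eq, reduceCtorEq, not_false_eq_true,
          Pi.single_eq_of_ne, mul_zero, zero_add]
        have := (hasDerivAt_id (0:ℝ)).const_add (p (Sum.inl j))
        simpa using this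
      · have e1 : (Pi.single (Sum.inl i) (1:ℝ) : κ ⊕ κ → ℝ) (Sum.inl j) = 0 :=
          Pi.single_eq_of_ne (fun h => hj (Sum.inl_injective h)) _
        have e2 : (Pi.single (Sum.inr i) (1:ℝ) : κ ⊕ κ → ℝ) (Sum.inr j) = 0 :=
          Pi.single_eq_of_ne (fun h => hj (Sum.inr_injective h)) _
        simp only [e1, e2, mul_zero, add_zero, ne_eq, reduceCtorEq, not_false_eq_true,
          Pi.single_eq_of_ne]
        exact hasDerivAt_const _ _
  have h2 := chain h h1
  have h3 : (fun t : ℝ => G (SX a (sh (Sum.inl i) t (cov p)))) =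
      fun t : ℝ => G (cov (SL a (p + t • Pi.single (Sum.inl i) (1:ℝ)))) := by
    funext t
    rw [sh_cov, cov_SL]
  change deriv (fun t : ℝ => G (SX a (sh (Sum.inl i) t (cov p)))) 0 = _
  rw [h3, h2.deriv, zero_smul, add_zero, map_add, map_smul, ← D_cov h, ← D_cov h, cov_SL]
  simp only [Th, th, cov, cs_coe, smul_eq_mul]

theorem D_S_y {G : X (κ ⊕ κ) → ℝ} (h : Sm G) (a : ℝ) (i : κ) (q : X (κ ⊕ κ)) :
    D (Sum.inr i) (fun q => G (SX a q)) q = - D (Sum.inl i) G (SX a q) := by
  obtain ⟨p, rfl⟩ := cov_surj q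
  have h1 : HasDerivAt (fun t : ℝ => SL a (p + t • Pi.single (Sum.inr i) (1:ℝ)))
      ((-1 : ℝ) • Pi.single (Sum.inl i) (1:ℝ)) 0 := by
    rw [hasDerivAt_pi]
    rintro (j | j)
    · simp only [SL, Sum.elim_inl, Pi.add_apply, Pi.smul_apply, smul_eq_mul]
      by_cases hj : j = i
      · subst hj
        simp only [Pi.single_eq_same, mul_one, ne_eq, reduceCtorEq, not_false_eq_true,
          Pi.single_eq_of_ne, mul_zero, add_zero]
        have h3 := ((hasDerivAt_id (0:ℝ)).const_add (p (Sum.inr j))).const_sub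
          (2 * p (Sum.inl j))
        have h4 := h3.add_const (a * sin (2 * π * p (Sum.inl j)))
        simpa using h4
      · have e1 : (Pi.single (Sum.inr i) (1:ℝ) : κ ⊕ κ → ℝ) (Sum.inr j) = 0 :=
          Pi.single_eq_of_ne (fun h => hj (Sum.inr_injective h)) _
        have e2 : (Pi.single (Sum.inl i) (1:ℝ) : κ ⊕ κ → ℝ) (Sum.inl j) = 0 :=
          Pi.single_eq_of_ne (fun h => hj (Sum.inl_injective h)) _
        simp only [e1, e2, mul_zero, add_zero, ne_eq, reduceCtorEq, not_false_eq_true,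
          Pi.single_eq_of_ne]
        exact hasDerivAt_const _ _
    · simp only [SL, Sum.elim_inr, Pi.add_apply, Pi.smul_apply, smul_eq_mul, ne_eq, reduceCtorEq,
        not_false_eq_true, Pi.single_eq_of_ne, mul_zero, add_zero]
      exact hasDerivAt_const _ _
  have h2 := chain h h1
  have h3 : (fun t : ℝ => G (SX a (sh (Sum.inr i) t (cov p)))) =
      fun t : ℝ => G (cov (SL a (p + t • Pi.single (Sum.inr i) (1:ℝ)))) := by
    funext t
    rw [sh_cov, cov_SL]
  change deriv (fun t : ℝ => G (SX a (sh (Sum.inr i) t (cov p)))) 0 = _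
  rw [h3, h2.deriv, zero_smul, add_zero, map_smul, ← D_cov h, cov_SL]
  simp

theorem D_W_x {G : X (κ ⊕ κ) → ℝ} (h : Sm G) (s : ℝ) (i : κ) (q : X (κ ⊕ κ)) :
    D (Sum.inl i) (fun q => G (WX s q)) q =
      D (Sum.inl i) G (WX s q) - s * Th i q * D (Sum.inr i) G (WX s q) := by
  obtain ⟨p, rfl⟩ := cov_surj q
  have h1 : HasDerivAt (fun t : ℝ => WL s (p + t • Pi.single (Sum.inl i) (1:ℝ)))
      (Pi.single (Sum.inl i) (1:ℝ) +
        (-(s * (2 * π * cos (2 * π * p (Sum.inl i))))) • Pi.single (Sum.inr i) (1:ℝ)) 0 := by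
    rw [hasDerivAt_pi]
    rintro (j | j)
    · simp only [WL, Sum.elim_inl, Pi.add_apply, Pi.smul_apply, smul_eq_mul, ne_eq, reduceCtorEq,
        not_false_eq_true, Pi.single_eq_of_ne, mul_zero, add_zero]
      have := ((hasDerivAt_id (0:ℝ)).mul_const ((Pi.single (Sum.inl i) (1:ℝ) : κ ⊕ κ → ℝ)
        (Sum.inl j))).const_add (p (Sum.inl j))
      simpa using this
    · simp only [WL, Sum.elim_inr, Pi.add_apply, Pi.smul_apply, smul_eq_mul]
      by_cases hj : j = i
      · subst hj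
        have h2 := hasDerivAt_sin_line (p (Sum.inl j)) 1
        simp only [mul_one] at h2
        simp only [Pi.single_eq_same, mul_one, ne_eq, reduceCtorEq, not_false_eq_true,
          Pi.single_eq_of_ne, mul_zero, add_zero, zero_add]
        have h4 := (h2.const_mul s).const_sub (p (Sum.inr j))
        refine h4.congr_deriv ?_
        ring
      · have e1 : (Pi.single (Sum.inl i) (1:ℝ) : κ ⊕ κ → ℝ) (Sum.inl j) = 0 :=
          Pi.single_eq_of_ne (fun h => hj (Sum.inl_injective h)) _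
        have e2 : (Pi.single (Sum.inr i) (1:ℝ) : κ ⊕ κ → ℝ) (Sum.inr j) = 0 :=
          Pi.single_eq_of_ne (fun h => hj (Sum.inr_injective h)) _
        simp only [e1, e2, mul_zero, add_zero, ne_eq, reduceCtorEq, not_false_eq_true,
          Pi.single_eq_of_ne]
        exact hasDerivAt_const _ _
  have h2 := chain h h1
  have h3 : (fun t : ℝ => G (WX s (sh (Sum.inl i) t (cov p)))) =
      fun t : ℝ => G (cov (WL s (p + t • Pi.single (Sum.inl i) (1:ℝ)))) := by
    funext t
    rw [sh_cov, cov_WL]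
  change deriv (fun t : ℝ => G (WX s (sh (Sum.inl i) t (cov p)))) 0 = _
  rw [h3, h2.deriv, zero_smul, add_zero, map_add, map_smul, ← D_cov h, ← D_cov h, cov_WL]
  simp only [Th, th, cov, cs_coe, smul_eq_mul]
  ring

theorem D_W_y {G : X (κ ⊕ κ) → ℝ} (h : Sm G) (s : ℝ) (i : κ) (q : X (κ ⊕ κ)) :
    D (Sum.inr i) (fun q => G (WX s q)) q = D (Sum.inr i) G (WX s q) := by
  obtain ⟨p, rfl⟩ := cov_surj q
  have h1 : HasDerivAt (fun t : ℝ => WL s (p + t • Pi.single (Sum.inr i) (1:ℝ)))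
      (Pi.single (Sum.inr i) (1:ℝ)) 0 := by
    rw [hasDerivAt_pi]
    rintro (j | j)
    · simp only [WL, Sum.elim_inl, Pi.add_apply, Pi.smul_apply, smul_eq_mul, ne_eq, reduceCtorEq,
        not_false_eq_true, Pi.single_eq_of_ne, mul_zero, add_zero]
      exact hasDerivAt_const _ _
    · simp only [WL, Sum.elim_inr, Pi.add_apply, Pi.smul_apply, smul_eq_mul, ne_eq, reduceCtorEq,
        not_false_eq_true, Pi.single_eq_of_ne, mul_zero, add_zero]
      have := (((hasDerivAt_id (0:ℝ)).mul_const ((Pi.single (Sum.inr i) (1:ℝ) : κ ⊕ κ → ℝ)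
        (Sum.inr j))).const_add (p (Sum.inr j))).sub_const (s * sin (2 * π * p (Sum.inl j)))
      simpa using this
  have h2 := chain h h1
  have h3 : (fun t : ℝ => G (WX s (sh (Sum.inr i) t (cov p)))) =
      fun t : ℝ => G (cov (WL s (p + t • Pi.single (Sum.inr i) (1:ℝ)))) := by
    funext t
    rw [sh_cov, cov_WL]
  change deriv (fun t : ℝ => G (WX s (sh (Sum.inr i) t (cov p)))) 0 = _
  rw [h3, h2.deriv, zero_smul, add_zero, ← D_cov h, cov_WL]

theorem D_Th_y (i j : κ) (q : X (κ ⊕ κ)) : D (Sum.inr j) (Th i) q = 0 := by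
  have : (fun t : ℝ => Th i (sh (Sum.inr j) t q)) = fun _ => Th i q := by
    funext t
    unfold Th sh
    simp
  unfold D
  rw [this]
  exact deriv_const _ _

omit [Fintype κ] [DecidableEq κ] in
theorem Th_W (i : κ) (s : ℝ) (q : X (κ ⊕ κ)) : Th i (WX s q) = Th i q := rfl

/-- the torus as a space of points -/
noncomputable def EX (κ : Type*) : X (κ ⊕ κ) ≃ᵐ (κ → Tor) :=
  (MeasurableEquiv.sumPiEquivProdPi (fun _ : κ ⊕ κ => UnitAddCircle)).trans
    (MeasurableEquiv.arrowProdEquivProdArrow UnitAddCircle UnitAddCircle κ).symm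

omit [Fintype κ] [DecidableEq κ] in
theorem EX_apply (q : X (κ ⊕ κ)) : EX κ q = fun i => pr i q := rfl

omit [DecidableEq κ] in
theorem mp_EX : MeasurePreserving (EX κ) (volume : Measure (X (κ ⊕ κ))) volume := by
  have h1 := volume_measurePreserving_sumPiEquivProdPi (fun _ : κ ⊕ κ => UnitAddCircle)
  have h2 := volume_measurePreserving_arrowProdEquivProdArrow UnitAddCircle UnitAddCircle κ
  exact (h2.symm _).comp h1

omit [DecidableEq κ] in
theorem mp_of_pi {f : Tor → Tor} (hf : MeasurePreserving f volume volume)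
    {F : X (κ ⊕ κ) → X (κ ⊕ κ)} (hF : ∀ i q, pr i (F q) = f (pr i q)) :
    MeasurePreserving F (volume : Measure (X (κ ⊕ κ))) volume := by
  have h1 : MeasurePreserving (fun (P : κ → Tor) (i : κ) => f (P i))
      (volume : Measure (κ → Tor)) volume := measurePreserving_pi _ _ (fun _ => hf)
  have h2 : F = (EX κ).symm ∘ (fun (P : κ → Tor) (i : κ) => f (P i)) ∘ (EX κ) := by
    funext q
    apply (EX κ).injective
    rw [Function.comp, MeasurableEquiv.apply_symm_apply]
    funext i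
    exact hF i q
  rw [h2]
  exact (mp_EX.symm _).comp (h1.comp mp_EX)

omit [DecidableEq κ] in
theorem mp_SX (a : ℝ) : MeasurePreserving (SX a) (volume : Measure (X (κ ⊕ κ))) volume :=
  mp_of_pi (mp_S a) fun _ _ => rfl

omit [DecidableEq κ] in
theorem mp_WX (s : ℝ) : MeasurePreserving (WX s) (volume : Measure (X (κ ⊕ κ))) volume :=
  mp_of_pi (mp_V0 s) fun _ _ => rfl

omit [DecidableEq κ] in
theorem mp_SXi (a : ℝ) : MeasurePreserving (SXi a) (volume : Measure (X (κ ⊕ κ))) volume := by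
  have hm : Measurable (SXi (κ := κ) a) := by
    refine measurable_pi_lambda _ ?_
    rintro (i | i)
    · simp only [SXi, Sum.elim_inl]
      exact measurable_pi_apply _
    · simp only [SXi, Sum.elim_inr]
      have h1 : Continuous (fun x : UnitAddCircle => ((a * sn x : ℝ) : UnitAddCircle)) :=
        continuous_coe.comp (continuous_const.mul continuous_sn)
      have h2 : Continuous (fun q : X (κ ⊕ κ) => q (Sum.inr i) + q (Sum.inr i) - q (Sum.inl i) +
          ((a * sn (q (Sum.inr i)) : ℝ) : UnitAddCircle)) :=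
        (by fun_prop : Continuous (fun q : X (κ ⊕ κ) => q (Sum.inr i) + q (Sum.inr i) -
          q (Sum.inl i))).add (h1.comp (continuous_apply _))
      exact h2.measurable
  refine ⟨hm, ?_⟩
  have h1 := (mp_SX (κ := κ) a).map_eq
  conv_lhs => rw [← h1]
  rw [Measure.map_map hm (mp_SX a).measurable]
  have : SXi a ∘ SX a = (id : X (κ ⊕ κ) → X (κ ⊕ κ)) := by
    funext q
    exact SXi_SX a q
  rw [this, Measure.map_id]

end Q69.SX
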