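import Pool.Agent.Q69.SX.Decay

/-!
Vector fields which are not seen by an almost invariant sequence of functions.
-/

set_option autoImplicit false

open MeasureTheory Filter Topology Real
open scoped ContDiff
open Q69.SM

namespace Q69.SX

variable {κ : Type*} [Fintype κ] [DecidableEq κ]

/-- bounded sequences of smooth functions -/
def BS (φ : ℕ → X (κ ⊕ κ) → ℝ) : Prop :=
  (∀ n, Sm (φ n)) ∧ ∃ C : ℝ, 0 ≤ C ∧ (∀ n q, |φ n q| ≤ C) ∧ ∀ n c q, |D c (φ n) q| ≤ C

theorem BS.of_sm {G : X (κ ⊕ κ) → ℝ} (h : Sm G) : BS (fun _ => G) := by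
  refine ⟨fun _ => h, ?_⟩
  obtain ⟨C, hC, hC1⟩ := h.bound
  have h2 : ∀ c : κ ⊕ κ, ∃ M : ℝ, 0 ≤ M ∧ ∀ q, |D c G q| ≤ M := fun c => (h.D c).bound
  choose M hM hM1 using h2
  refine ⟨C + ∑ c, M c, by have := Finset.sum_nonneg fun c (_ : c ∈ Finset.univ) => hM c; linarith,
    fun n q => ?_, fun n c q => ?_⟩
  · have := Finset.sum_nonneg fun c (_ : c ∈ Finset.univ) => hM c
    linarith [hC1 q]
  · have := Finset.single_le_sum (fun c _ => hM c) (Finset.mem_univ c)
    linarith [hM1 c q]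

theorem BS.add {φ ψ : ℕ → X (κ ⊕ κ) → ℝ} (h : BS φ) (h' : BS ψ) :
    BS (fun n q => φ n q + ψ n q) := by
  obtain ⟨h1, C, hC, h2, h3⟩ := h
  obtain ⟨h1', C', hC', h2', h3'⟩ := h'
  refine ⟨fun n => (h1 n).add (h1' n), C + C', by linarith, fun n q => ?_, fun n c q => ?_⟩
  · exact (abs_add_le _ _).trans (add_le_add (h2 n q) (h2' n q))
  · rw [D_add (h1 n) (h1' n)]
    exact (abs_add_le _ _).trans (add_le_add (h3 n c q) (h3' n c q))

theorem BS.mul {φ ψ : ℕ → X (κ ⊕ κ) → ℝ} (h : BS φ) (h' : BS ψ) :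
    BS (fun n q => φ n q * ψ n q) := by
  obtain ⟨h1, C, hC, h2, h3⟩ := h
  obtain ⟨h1', C', hC', h2', h3'⟩ := h'
  refine ⟨fun n => (h1 n).mul (h1' n), 2 * (C * C'), by positivity, fun n q => ?_,
    fun n c q => ?_⟩
  · rw [abs_mul]
    have := mul_le_mul (h2 n q) (h2' n q) (abs_nonneg _) hC
    have h0 : 0 ≤ C * C' := by positivity
    linarith
  · rw [D_mul (h1 n) (h1' n)]
    refine (abs_add_le _ _).trans ?_
    rw [abs_mul, abs_mul]
    have g1 := mul_le_mul (h3 n c q) (h2' n q) (abs_nonneg _) hC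
    have g2 := mul_le_mul (h2 n q) (h3' n c q) (abs_nonneg _) hC
    linarith

theorem BS.cmul {φ : ℕ → X (κ ⊕ κ) → ℝ} (h : BS φ) {r : ℕ → ℝ} {R : ℝ} (hr : ∀ n, |r n| ≤ R) :
    BS (fun n q => r n * φ n q) := by
  obtain ⟨h1, C, hC, h2, h3⟩ := h
  have hR : 0 ≤ R := (abs_nonneg _).trans (hr 0)
  refine ⟨fun n => (Sm.const (r n)).mul (h1 n), R * C, by positivity, fun n q => ?_,
    fun n c q => ?_⟩
  · rw [abs_mul]
    exact mul_le_mul (hr n) (h2 n q) (abs_nonneg _) hR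
  · rw [D_const_mul (r n) (h1 n), abs_mul]
    exact mul_le_mul (hr n) (h3 n c q) (abs_nonneg _) hR

theorem BS.neg {φ : ℕ → X (κ ⊕ κ) → ℝ} (h : BS φ) : BS (fun n q => - φ n q) := by
  have := h.cmul (r := fun _ => -1) (R := 1) (fun _ => by simp)
  simpa using this

theorem BS.sub {φ ψ : ℕ → X (κ ⊕ κ) → ℝ} (h : BS φ) (h' : BS ψ) :
    BS (fun n q => φ n q - ψ n q) := by
  have := h.add h'.neg
  simpa only [sub_eq_add_neg] using this

theorem BS.compS {φ : ℕ → X (κ ⊕ κ) → ℝ} (h : BS φ) {a : ℕ → ℝ} {R : ℝ} (ha : ∀ n, |a n| ≤ R) :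
    BS (fun n q => φ n (SX (a n) q)) := by
  obtain ⟨h1, C, hC, h2, h3⟩ := h
  have hR : 0 ≤ R := (abs_nonneg _).trans (ha 0)
  have hT : ∀ i : κ, ∃ M : ℝ, 0 ≤ M ∧ ∀ q, |Th i q| ≤ M := fun i => (Sm_Th i).bound
  choose M hM hM1 using hT
  have hS : 0 ≤ ∑ i, M i := Finset.sum_nonneg fun i _ => hM i
  refine ⟨fun n => (h1 n).compS (a n), (3 + R * ∑ i, M i) * C, by positivity, fun n q => ?_,
    fun n c q => ?_⟩
  · have := h2 n (SX (a n) q)
    have h0 : 0 ≤ (R * ∑ i, M i) * C := by positivity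
    nlinarith
  · rcases c with i | i
    · rw [D_S_x (h1 n)]
      refine (abs_add_le _ _).trans ?_
      rw [abs_mul]
      have g1 : |2 + a n * Th i q| ≤ 2 + R * ∑ i, M i := by
        refine (abs_add_le _ _).trans ?_
        rw [abs_mul, abs_of_pos (two_pos : (0:ℝ) < 2)]
        have g3 := Finset.single_le_sum (fun i _ => hM i) (Finset.mem_univ i)
        have g2 := mul_le_mul (ha n) ((hM1 i q).trans g3) (abs_nonneg _) hR
        linarith
      have g4 := mul_le_mul g1 (h3 n (Sum.inl i) (SX (a n) q)) (abs_nonneg _) (by positivity)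
      have g5 := h3 n (Sum.inr i) (SX (a n) q)
      linarith
    · rw [D_S_y (h1 n), abs_neg]
      have := h3 n (Sum.inl i) (SX (a n) q)
      have h0 : 0 ≤ (R * ∑ i, M i) * C := by positivity
      nlinarith

theorem BS.sum {τ : Type*} (s : Finset τ) {φ : τ → ℕ → X (κ ⊕ κ) → ℝ} (h : ∀ k ∈ s, BS (φ k)) :
    BS (fun n q => ∑ k ∈ s, φ k n q) := by
  classical
  induction s using Finset.induction_on with
  | empty =>
    simp only [Finset.sum_empty]
    exact BS.of_sm (Sm.const 0)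
  | insert a s ha ih =>
    simp only [Finset.sum_insert ha]
    exact (h a (Finset.mem_insert_self a s)).add
      (ih fun k hk => h k (Finset.mem_insert_of_mem hk))

theorem BS.prod {τ : Type*} (s : Finset τ) {φ : τ → ℕ → X (κ ⊕ κ) → ℝ} (h : ∀ k ∈ s, BS (φ k)) :
    BS (fun n q => ∏ k ∈ s, φ k n q) := by
  classical
  induction s using Finset.induction_on with
  | empty =>
    simp only [Finset.prod_empty]
    exact BS.of_sm (Sm.const 1)
  | insert a s ha ih =>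
    simp only [Finset.prod_insert ha]
    exact (h a (Finset.mem_insert_self a s)).mul
      (ih fun k hk => h k (Finset.mem_insert_of_mem hk))

omit [DecidableEq κ] in
/-- pairing with a bounded sequence -/
theorem pair_tendsto {f g : ℕ → X (κ ⊕ κ) → ℝ} (hf : ∀ n, L2 volume (f n))
    (hf1 : ∀ n, nrm volume (f n) ≤ 1) (hg : ∀ n, L2 volume (g n))
    (hg0 : Tendsto (fun n => nrm volume (g n)) atTop (𝓝 0)) :
    Tendsto (fun n => ∫ q, f n q * g n q) atTop (𝓝 0) := by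
  refine squeeze_zero_norm (fun n => ?_) hg0
  rw [Real.norm_eq_abs]
  refine (cs_ineq (hf n) (hg n)).trans ?_
  have := mul_le_mul_of_nonneg_right (hf1 n) (nrm_nonneg (μ := volume) (g n))
  linarith

/-- the sequence `f` does not see the vector fields `A n ∂x_i + B n ∂y_i` -/
def Nul (f : ℕ → X (κ ⊕ κ) → ℝ) (i : κ) (A B : ℕ → X (κ ⊕ κ) → ℝ) : Prop :=
  ∀ (w : ℕ → X (κ ⊕ κ) → ℝ) (C : ℝ), (∀ n, Sm (w n)) → (∀ n c, nrm volume (D c (w n)) ≤ C) →
    Tendsto (fun n => nrm volume (w n)) atTop (𝓝 0) →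
    Tendsto (fun n => ∫ q, f n q *
      (A n q * D (Sum.inl i) (w n) q + B n q * D (Sum.inr i) (w n) q)) atTop (𝓝 0)

omit [DecidableEq κ] in
theorem bdd_of_tendsto {u : ℕ → ℝ} (h : Tendsto u atTop (𝓝 0)) : ∃ B : ℝ, 0 ≤ B ∧ ∀ n, u n ≤ B := by
  obtain ⟨B, hB⟩ := h.bddAbove_range
  refine ⟨max B 0, le_max_right _ _, fun n => ?_⟩
  exact (hB (Set.mem_range_self n)).trans (le_max_left _ _)

theorem Nul.mul {f : ℕ → X (κ ⊕ κ) → ℝ} {i : κ} {A B φ : ℕ → X (κ ⊕ κ) → ℝ}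
    (hf : ∀ n, L2 volume (f n)) (hf1 : ∀ n, nrm volume (f n) ≤ 1) (h : Nul f i A B) (hA : BS A)
    (hB : BS B) (hφ : BS φ) :
    Nul f i (fun n q => φ n q * A n q) (fun n q => φ n q * B n q) := by
  intro w C hw hC hw0
  obtain ⟨b, hb0, hb⟩ := bdd_of_tendsto hw0
  obtain ⟨hφS, c, hc0, hφ1, hφ2⟩ := hφ
  have hC0 : 0 ≤ C := (nrm_nonneg _).trans (hC 0 (Sum.inl i))
  have h1 := h (fun n q => φ n q * w n q) (c * b + c * C) (fun n => (hφS n).mul (hw n)) ?_ ?_
  · obtain ⟨hAS, ca, hca0, hA1, -⟩ := hA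
    obtain ⟨hBS, cb, hcb0, hB1, -⟩ := hB
    have h2 : Tendsto (fun n => ∫ q, f n q * ((A n q * D (Sum.inl i) (φ n) q +
        B n q * D (Sum.inr i) (φ n) q) * w n q)) atTop (𝓝 0) := by
      refine pair_tendsto hf hf1 (fun n => ?_) ?_
      · exact ((((hAS n).mul ((hφS n).D _)).add ((hBS n).mul ((hφS n).D _))).mul (hw n)).L2
      · refine squeeze_zero (fun n => nrm_nonneg _) (fun n => ?_)
          (by simpa using hw0.const_mul (ca * c + cb * c))
        refine nrm_bmul (hw n).L2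
          (((hAS n).mul ((hφS n).D _)).add ((hBS n).mul ((hφS n).D _))).measurable
          (by positivity) fun q => ?_
        refine (abs_add_le _ _).trans ?_
        rw [abs_mul, abs_mul]
        exact add_le_add (mul_le_mul (hA1 n q) (hφ2 n _ q) (abs_nonneg _) hca0)
          (mul_le_mul (hB1 n q) (hφ2 n _ q) (abs_nonneg _) hcb0)
    have h3 := h1.sub h2
    rw [sub_zero] at h3
    refine h3.congr fun n => ?_
    have s1 : Sm (fun q => A n q * D (Sum.inl i) (fun q => φ n q * w n q) q +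
        B n q * D (Sum.inr i) (fun q => φ n q * w n q) q) :=
      ((hAS n).mul (((hφS n).mul (hw n)).D _)).add ((hBS n).mul (((hφS n).mul (hw n)).D _))
    have s2 : Sm (fun q => (A n q * D (Sum.inl i) (φ n) q +
        B n q * D (Sum.inr i) (φ n) q) * w n q) :=
      (((hAS n).mul ((hφS n).D _)).add ((hBS n).mul ((hφS n).D _))).mul (hw n)
    rw [← integral_sub (L2.int_mul (hf n) s1.L2) (L2.int_mul (hf n) s2.L2)]
    congr 1
    funext q
    rw [D_mul (hφS n) (hw n), D_mul (hφS n) (hw n)]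
    ring
  · intro n e
    have h2 : (D e fun q => φ n q * w n q) = fun q => D e (φ n) q * w n q + φ n q * D e (w n) q := by
      funext q
      rw [D_mul (hφS n) (hw n)]
    rw [h2]
    have i1 := L2.bmul (hw n).L2 ((hφS n).D e).measurable (fun q => hφ2 n e q)
    have i2 := L2.bmul ((hw n).D e).L2 (hφS n).measurable (fun q => hφ1 n q)
    refine (nrm_add_le i1 i2).trans (add_le_add ?_ ?_)
    · exact (nrm_bmul (hw n).L2 ((hφS n).D e).measurable hc0 (fun q => hφ2 n e q)).trans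
        (mul_le_mul_of_nonneg_left (hb n) hc0)
    · exact (nrm_bmul ((hw n).D e).L2 (hφS n).measurable hc0 (fun q => hφ1 n q)).trans
        (mul_le_mul_of_nonneg_left (hC n e) hc0)
  · refine squeeze_zero (fun n => nrm_nonneg _) (fun n => ?_) (by simpa using hw0.const_mul c)
    exact nrm_bmul (hw n).L2 (hφS n).measurable hc0 (fun q => hφ1 n q)

theorem Nul.add {f : ℕ → X (κ ⊕ κ) → ℝ} {i : κ} {A B A' B' : ℕ → X (κ ⊕ κ) → ℝ}
    (hf : ∀ n, L2 volume (f n)) (h : Nul f i A B) (h' : Nul f i A' B') (hA : BS A)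
    (hB : BS B) (hA' : BS A') (hB' : BS B') :
    Nul f i (fun n q => A n q + A' n q) (fun n q => B n q + B' n q) := by
  intro w C hw hC hw0
  have h1 := (h w C hw hC hw0).add (h' w C hw hC hw0)
  rw [add_zero] at h1
  refine h1.congr fun n => ?_
  have s1 := ((hA.1 n).mul ((hw n).D (Sum.inl i))).add ((hB.1 n).mul ((hw n).D (Sum.inr i)))
  have s2 := ((hA'.1 n).mul ((hw n).D (Sum.inl i))).add ((hB'.1 n).mul ((hw n).D (Sum.inr i)))
  rw [← integral_add (L2.int_mul (hf n) s1.L2) (L2.int_mul (hf n) s2.L2)]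
  congr 1
  funext q
  ring

theorem Nul.congr {f : ℕ → X (κ ⊕ κ) → ℝ} {i : κ} {A B A' B' : ℕ → X (κ ⊕ κ) → ℝ}
    (h : Nul f i A B) (hA : ∀ n q, A n q = A' n q) (hB : ∀ n q, B n q = B' n q) :
    Nul f i A' B' := by
  have e1 : A = A' := by funext n q; exact hA n q
  have e2 : B = B' := by funext n q; exact hB n q
  rwa [e1, e2] at h

theorem Nul.cramer {f : ℕ → X (κ ⊕ κ) → ℝ} {i : κ} {A B A' B' : ℕ → X (κ ⊕ κ) → ℝ}
    (hf : ∀ n, L2 volume (f n)) (hf1 : ∀ n, nrm volume (f n) ≤ 1) (h : Nul f i A B)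
    (h' : Nul f i A' B') (hA : BS A) (hB : BS B) (hA' : BS A') (hB' : BS B') :
    Nul f i (fun n q => (A n q * B' n q - A' n q * B n q) ^ 2) (fun _ _ => 0) ∧
    Nul f i (fun _ _ => 0) (fun n q => (A n q * B' n q - A' n q * B n q) ^ 2) := by
  have hΔ : BS (fun n q => A n q * B' n q - A' n q * B n q) := (hA.mul hB').sub (hA'.mul hB)
  have m1 := Nul.mul hf hf1 h hA hB (hΔ.mul hB')
  have m2 := Nul.mul hf hf1 h' hA' hB' (hΔ.mul hB).neg
  have m3 := Nul.mul hf hf1 h' hA' hB' (hΔ.mul hA)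
  have m4 := Nul.mul hf hf1 h hA hB (hΔ.mul hA').neg
  constructor
  · refine (Nul.add hf m1 m2 ((hΔ.mul hB').mul hA) ((hΔ.mul hB').mul hB)
      ((hΔ.mul hB).neg.mul hA') ((hΔ.mul hB).neg.mul hB')).congr (fun n q => ?_) (fun n q => ?_)
    · ring
    · ring
  · refine (Nul.add hf m3 m4 ((hΔ.mul hA).mul hA') ((hΔ.mul hA).mul hB')
      ((hΔ.mul hA').neg.mul hA) ((hΔ.mul hA').neg.mul hB)).congr (fun n q => ?_) (fun n q => ?_)
    · ring
    · ring

theorem Nul.transport {f f' : ℕ → X (κ ⊕ κ) → ℝ} {i : κ} {A B : ℕ → X (κ ⊕ κ) → ℝ}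
    {a : ℕ → ℝ} {R : ℝ} (ha : ∀ n, |a n| ≤ R) (hf : ∀ n, L2 volume (f n))
    (hf' : ∀ n, L2 volume (f' n)) (h : Nul f i A B) (hA : BS A) (hB : BS B)
    (hff : Tendsto (fun n => nrm volume (fun q => f' n q - f n (SX (a n) q))) atTop (𝓝 0)) :
    Nul f' i (fun n q => B n (SX (a n) q))
      (fun n q => -A n (SX (a n) q) + (2 + a n * Th i q) * B n (SX (a n) q)) := by
  intro w C hw hC hw0
  have hR : 0 ≤ R := (abs_nonneg _).trans (ha 0)
  have hC0 : 0 ≤ C := (nrm_nonneg _).trans (hC 0 (Sum.inl i))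
  have hT : ∀ i : κ, ∃ M : ℝ, 0 ≤ M ∧ ∀ q, |Th i q| ≤ M := fun i => (Sm_Th i).bound
  choose M hM hM1 using hT
  have hS : 0 ≤ ∑ i, M i := Finset.sum_nonneg fun i _ => hM i
  have hMle : ∀ (i : κ) q, |Th i q| ≤ ∑ i, M i := fun i q =>
    (hM1 i q).trans (Finset.single_le_sum (fun i _ => hM i) (Finset.mem_univ i))
  obtain ⟨v, hv⟩ : ∃ v : ℕ → X (κ ⊕ κ) → ℝ, v = fun n q => w n (SXi (a n) q) := ⟨_, rfl⟩
  have hvS : ∀ n, Sm (v n) := fun n => by rw [hv]; exact (hw n).compSi (a n)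
  have hwv : ∀ n, w n = fun q => v n (SX (a n) q) := fun n => by
    rw [hv]
    funext q
    simp only [SXi_SX]
  have hDy : ∀ n (j : κ) q, D (Sum.inl j) (v n) (SX (a n) q) = - D (Sum.inr j) (w n) q := by
    intro n j q
    have h1 := D_S_y (hvS n) (a n) j q
    rw [← hwv n] at h1
    linarith
  have hDx : ∀ n (j : κ) q, D (Sum.inr j) (v n) (SX (a n) q) =
      D (Sum.inl j) (w n) q + (2 + a n * Th j q) * D (Sum.inr j) (w n) q := by
    intro n j q
    have h1 := D_S_x (hvS n) (a n) j q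
    rw [← hwv n, hDy] at h1
    linarith
  obtain ⟨C', hC'⟩ : ∃ C' : ℝ, C' = C + (2 + R * ∑ i, M i) * C := ⟨_, rfl⟩
  have hvC : ∀ n c, nrm volume (D c (v n)) ≤ C' := by
    intro n c
    rw [← nrm_comp ((hvS n).D c).L2 (mp_SX (a n))]
    rcases c with j | j
    · have e1 : (fun q => D (Sum.inl j) (v n) (SX (a n) q)) = fun q => - D (Sum.inr j) (w n) q := by
        funext q; exact hDy n j q
      rw [e1, nrm_neg]
      have h0 : 0 ≤ (2 + R * ∑ i, M i) * C := by positivity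
      linarith [hC n (Sum.inr j)]
    · have e1 : (fun q => D (Sum.inr j) (v n) (SX (a n) q)) = fun q => D (Sum.inl j) (w n) q +
          (2 + a n * Th j q) * D (Sum.inr j) (w n) q := by
        funext q; exact hDx n j q
      rw [e1]
      have hmeas : Sm (fun q => 2 + a n * Th j q) :=
        (Sm.const 2).add ((Sm.const (a n)).mul (Sm_Th j))
      have hb : ∀ q, |2 + a n * Th j q| ≤ 2 + R * ∑ i, M i := by
        intro q
        refine (abs_add_le _ _).trans ?_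
        rw [abs_mul, abs_of_pos (two_pos : (0:ℝ) < 2)]
        have g2 := mul_le_mul (ha n) (hMle j q) (abs_nonneg _) hR
        linarith
      refine (nrm_add_le ((hw n).D _).L2 (hmeas.mul ((hw n).D _)).L2).trans ?_
      rw [hC']
      refine add_le_add (hC n _) ?_
      refine (nrm_bmul ((hw n).D _).L2 hmeas.measurable (by positivity) hb).trans ?_
      exact mul_le_mul_of_nonneg_left (hC n _) (by positivity)
  have hv0 : Tendsto (fun n => nrm volume (v n)) atTop (𝓝 0) := by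
    refine hw0.congr fun n => ?_
    rw [hv]
    exact (nrm_comp (hw n).L2 (mp_SXi (a n))).symm
  have h1 := h v C' hvS hvC hv0
  obtain ⟨hAS, ca, hca0, hA1, -⟩ := hA
  obtain ⟨hBS, cb, hcb0, hB1, -⟩ := hB
  obtain ⟨G, hG⟩ : ∃ G : ℕ → X (κ ⊕ κ) → ℝ, G = fun n q =>
    A n q * D (Sum.inl i) (v n) q + B n q * D (Sum.inr i) (v n) q := ⟨_, rfl⟩
  have hGS : ∀ n, Sm (G n) := fun n => by
    rw [hG]
    exact ((hAS n).mul ((hvS n).D _)).add ((hBS n).mul ((hvS n).D _))
  have hC'0 : 0 ≤ C' := (nrm_nonneg _).trans (hvC 0 (Sum.inl i))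
  have hGn : ∀ n, nrm volume (G n) ≤ ca * C' + cb * C' := by
    intro n
    rw [hG]
    refine (nrm_add_le ((hAS n).mul ((hvS n).D _)).L2 ((hBS n).mul ((hvS n).D _)).L2).trans ?_
    refine add_le_add ?_ ?_
    · exact (nrm_bmul ((hvS n).D _).L2 (hAS n).measurable hca0 (hA1 n)).trans
        (mul_le_mul_of_nonneg_left (hvC n _) hca0)
    · exact (nrm_bmul ((hvS n).D _).L2 (hBS n).measurable hcb0 (hB1 n)).trans
        (mul_le_mul_of_nonneg_left (hvC n _) hcb0)
  have h2 : Tendsto (fun n => ∫ q, (f' n q - f n (SX (a n) q)) * G n (SX (a n) q)) atTop (𝓝 0) := by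
    refine squeeze_zero_norm (fun n => ?_) (by simpa using hff.mul_const (ca * C' + cb * C'))
    rw [Real.norm_eq_abs]
    refine (cs_ineq (L2.sub (hf' n) (L2.comp (hf n) (mp_SX (a n))))
      (L2.comp (hGS n).L2 (mp_SX (a n)))).trans ?_
    rw [nrm_comp (hGS n).L2 (mp_SX (a n))]
    exact mul_le_mul_of_nonneg_left (hGn n) (nrm_nonneg _)
  have h3 := h1.add h2
  rw [add_zero] at h3
  refine h3.congr fun n => ?_
  have e1 : ∫ q, f n q * (A n q * D (Sum.inl i) (v n) q + B n q * D (Sum.inr i) (v n) q) =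
      ∫ q, f n (SX (a n) q) * G n (SX (a n) q) := by
    rw [int_comp (f := fun q => f n q * G n q) ((hf n).1.mul (hGS n).measurable) (mp_SX (a n)), hG]
  have hGc := L2.comp (hGS n).L2 (mp_SX (a n))
  have hfc := L2.comp (hf n) (mp_SX (a n))
  rw [e1, ← integral_add (L2.int_mul hfc hGc) (L2.int_mul (L2.sub (hf' n) hfc) hGc)]
  congr 1
  funext q
  have e2 : G n (SX (a n) q) = B n (SX (a n) q) * D (Sum.inl i) (w n) q +
      (-A n (SX (a n) q) + (2 + a n * Th i q) * B n (SX (a n) q)) * D (Sum.inr i) (w n) q := by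
    rw [hG]
    simp only
    rw [hDy, hDx]
    ring
  rw [← e2]
  ring

end Q69.SX
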