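import Pool.Agent.Q69.SX.KM

/-!
Correlations of all smooth functions at the same time.
-/

set_option autoImplicit false

open MeasureTheory Filter Topology Real
open Q69.SM

namespace Q69.SX

/-- the Green function of `1 + d/dt` on the circle -/
noncomputable def g1 (x : UnitAddCircle) : ℝ :=
  exp (-((AddCircle.equivIoc (1:ℝ) 0 x : Set.Ioc (0:ℝ) (0 + 1)) : ℝ)) / (1 - exp (-1))

theorem g1_coe {t : ℝ} (ht : t ∈ Set.Ioc (0:ℝ) (0 + 1)) :
    g1 (t : UnitAddCircle) = exp (-t) / (1 - exp (-1)) := by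
  unfold g1
  rw [AddCircle.equivIoc_coe_of_mem ht]

theorem g1_meas : Measurable g1 := by
  unfold g1
  have h1 : Measurable (fun x : UnitAddCircle =>
      ((AddCircle.equivIoc (1:ℝ) 0 x : Set.Ioc (0:ℝ) (0 + 1)) : ℝ)) :=
    measurable_subtype_coe.comp (AddCircle.measurableEquivIoc (1:ℝ) 0).measurable
  exact (Real.measurable_exp.comp h1.neg).div_const _

theorem den_pos : 1 / 2 < 1 - exp (-1) := by
  have h1 := Real.exp_one_gt_d9
  have h2 : exp (-1) * exp 1 = 1 := by rw [← Real.exp_add]; simp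
  have h3 : exp (-1) < 1 / 2 := by
    by_contra hcon
    push Not at hcon
    nlinarith
  linarith

theorem g1_le (x : UnitAddCircle) : |g1 x| ≤ 2 := by
  have h1 := den_pos
  have h2 : 0 < ((AddCircle.equivIoc (1:ℝ) 0 x : Set.Ioc (0:ℝ) (0 + 1)) : ℝ) :=
    (AddCircle.equivIoc (1:ℝ) 0 x).2.1
  unfold g1
  rw [abs_div, abs_of_pos (exp_pos _), abs_of_pos (by linarith), div_le_iff₀ (by linarith)]
  have h3 : exp (-((AddCircle.equivIoc (1:ℝ) 0 x : Set.Ioc (0:ℝ) (0 + 1)) : ℝ)) ≤ 1 := by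
    rw [exp_le_one_iff]
    linarith
  linarith

theorem repr1 {u v : UnitAddCircle → ℝ} (hu : Continuous u) (hv : Continuous v)
    (h : ∀ (x : UnitAddCircle) (t : ℝ), HasDerivAt (fun t : ℝ => u (x + (t : UnitAddCircle)))
      (v (x + (t : UnitAddCircle))) t) (x : UnitAddCircle) :
    ∫ s, g1 (x - s) * (u s + v s) = u x := by
  have e1 : ∫ s, g1 (x - s) * (u s + v s) = ∫ s, g1 s * (u (x - s) + v (x - s)) := by
    rw [← integral_sub_left_eq_self (fun s => g1 s * (u (x - s) + v (x - s))) volume x]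
    congr 1
    funext s
    simp only [sub_sub_cancel]
  rw [e1, ← UnitAddCircle.integral_preimage 0]
  have hd := den_pos
  have e2 : ∫ t in Set.Ioc (0:ℝ) (0 + 1), g1 (t : UnitAddCircle) *
      (u (x - (t : UnitAddCircle)) + v (x - (t : UnitAddCircle))) =
      ∫ t in Set.Ioc (0:ℝ) (0 + 1), (1 / (1 - exp (-1))) * (exp (-t) *
      (u (x - (t : UnitAddCircle)) + v (x - (t : UnitAddCircle)))) := by
    refine setIntegral_congr_fun measurableSet_Ioc fun t ht => ?_
    change g1 (t : UnitAddCircle) * (u (x - (t : UnitAddCircle)) + v (x - (t : UnitAddCircle))) =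
      (1 / (1 - exp (-1))) * (exp (-t) *
      (u (x - (t : UnitAddCircle)) + v (x - (t : UnitAddCircle))))
    rw [g1_coe ht]
    ring
  rw [e2, integral_const_mul, ← intervalIntegral.integral_of_le (by norm_num)]
  have hcoe : Continuous (fun t : ℝ => x - (t : UnitAddCircle)) :=
    continuous_const.sub (AddCircle.continuous_mk' 1)
  have hder : ∀ t : ℝ, HasDerivAt (fun t : ℝ => -(exp (-t) * u (x - (t : UnitAddCircle))))
      (exp (-t) * (u (x - (t : UnitAddCircle)) + v (x - (t : UnitAddCircle)))) t := by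
    intro t
    have h1 : HasDerivAt (fun t : ℝ => u (x - (t : UnitAddCircle)))
        (v (x - (t : UnitAddCircle)) * (-1)) t := by
      have h2 := (h x (-t)).comp t (hasDerivAt_neg t)
      have e3 : ((fun t : ℝ => u (x + (t : UnitAddCircle))) ∘ Neg.neg) =
          fun t : ℝ => u (x - (t : UnitAddCircle)) := by
        funext r
        simp only [Function.comp, AddCircle.coe_neg, sub_eq_add_neg]
      rw [e3] at h2
      simpa only [AddCircle.coe_neg, ← sub_eq_add_neg] using h2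
    have h3 : HasDerivAt (fun t : ℝ => exp (-t)) (exp (-t) * (-1)) t :=
      (Real.hasDerivAt_exp (-t)).comp t (hasDerivAt_neg t)
    have h4 := (h3.mul h1).neg
    have e4 : -(exp (-t) * -1 * u (x - (t : UnitAddCircle)) +
        exp (-t) * (v (x - (t : UnitAddCircle)) * -1)) =
        exp (-t) * (u (x - (t : UnitAddCircle)) + v (x - (t : UnitAddCircle))) := by ring
    rw [← e4]
    exact h4
  have hcont : Continuous (fun t : ℝ => exp (-t) *
      (u (x - (t : UnitAddCircle)) + v (x - (t : UnitAddCircle)))) :=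
    (Real.continuous_exp.comp continuous_neg).mul ((hu.comp hcoe).add (hv.comp hcoe))
  rw [intervalIntegral.integral_eq_sub_of_hasDerivAt (fun t _ => hder t)
    (hcont.intervalIntegrable _ _)]
  have e5 : ((0 + 1 : ℝ) : UnitAddCircle) = 0 := by
    rw [zero_add]
    exact AddCircle.coe_period 1
  rw [e5]
  simp only [QuotientAddGroup.mk_zero, sub_zero, zero_add, neg_zero, exp_zero, one_mul]
  field_simp
  ring

/-- the product kernel -/
noncomputable def G2 (p : Tor) : ℝ := g1 p.1 * g1 p.2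

theorem G2_meas : Measurable G2 := (g1_meas.comp measurable_fst).mul (g1_meas.comp measurable_snd)

theorem G2_le (p : Tor) : |G2 p| ≤ 4 := by
  unfold G2
  rw [abs_mul]
  have h1 := mul_le_mul (g1_le p.1) (g1_le p.2) (abs_nonneg _) two_pos.le
  linarith

theorem int_bdd {Y : Type*} [MeasurableSpace Y] {μ : Measure Y} [IsProbabilityMeasure μ]
    {f : Y → ℝ} (hm : Measurable f) {C : ℝ} (hb : ∀ y, |f y| ≤ C) : Integrable f μ :=
  (integrable_const C).mono' hm.aestronglyMeasurable (Eventually.of_forall hb)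

theorem abs_int_bdd {Y : Type*} [MeasurableSpace Y] {μ : Measure Y} [IsProbabilityMeasure μ]
    {f : Y → ℝ} {C : ℝ} (hb : ∀ y, |f y| ≤ C) : |∫ y, f y ∂μ| ≤ C := by
  have h := norm_integral_le_of_norm_le_const (μ := μ) (f := f) (C := C)
    (Eventually.of_forall hb)
  simpa using h

theorem g1_int (x : UnitAddCircle) : ∫ s, g1 (s - x) = 1 := by
  rw [integral_sub_right_eq_self (fun s => g1 s) x]
  have h := repr1 (u := fun _ => 1) (v := fun _ => 0) continuous_const continuous_const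
    (fun x t => hasDerivAt_const t 1) 0
  refine Eq.trans ?_ h
  rw [← integral_sub_left_eq_self (fun s => g1 s) volume 0]
  congr 1
  funext s
  simp

theorem G2_int (x : Tor) : ∫ p, G2 (p - x) = 1 := by
  unfold G2
  have h := integral_prod_mul (μ := (volume : Measure UnitAddCircle))
    (ν := (volume : Measure UnitAddCircle)) (fun s => g1 (s - x.1)) (fun s => g1 (s - x.2))
  rw [g1_int, g1_int, one_mul] at h
  exact h

/-- `φ` has continuous derivatives `φ_x`, `φ_y`, `φ_xy`, all bounded by `M` -/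
def Cmix (φ : Tor → ℝ) (M : ℝ) : Prop :=
  ∃ φ₁ φ₂ φ₁₂ : Tor → ℝ, Continuous φ ∧ Continuous φ₁ ∧ Continuous φ₂ ∧ Continuous φ₁₂ ∧
    (∀ (x y : UnitAddCircle) (t : ℝ), HasDerivAt (fun t : ℝ => φ (x + (t : UnitAddCircle), y))
      (φ₁ (x + (t : UnitAddCircle), y)) t) ∧
    (∀ (x y : UnitAddCircle) (t : ℝ), HasDerivAt (fun t : ℝ => φ (x, y + (t : UnitAddCircle)))
      (φ₂ (x, y + (t : UnitAddCircle))) t) ∧
    (∀ (x y : UnitAddCircle) (t : ℝ), HasDerivAt (fun t : ℝ => φ₁ (x, y + (t : UnitAddCircle)))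
      (φ₁₂ (x, y + (t : UnitAddCircle))) t) ∧
    ∀ p, |φ p| ≤ M ∧ |φ₁ p| ≤ M ∧ |φ₂ p| ≤ M ∧ |φ₁₂ p| ≤ M

theorem repr2 {φ : Tor → ℝ} {M : ℝ} (h : Cmix φ M) :
    ∃ Φ : Tor → ℝ, Measurable Φ ∧ (∀ p, |Φ p| ≤ 4 * M) ∧ ∀ p, φ p = ∫ q, G2 (p - q) * Φ q := by
  obtain ⟨φ₁, φ₂, φ₁₂, c0, c1, c2, c3, h1, h2, h3, hM⟩ := h
  have hc : Continuous (fun p => φ p + φ₁ p + (φ₂ p + φ₁₂ p)) := (c0.add c1).add (c2.add c3)
  have hb : ∀ p, |φ p + φ₁ p + (φ₂ p + φ₁₂ p)| ≤ 4 * M := by
    intro p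
    obtain ⟨m1, m2, m3, m4⟩ := hM p
    rw [abs_le] at m1 m2 m3 m4 ⊢
    constructor <;> linarith [m1.1, m1.2, m2.1, m2.2, m3.1, m3.2, m4.1, m4.2]
  refine ⟨fun p => φ p + φ₁ p + (φ₂ p + φ₁₂ p), hc.measurable, hb, fun p => ?_⟩
  obtain ⟨x, y⟩ := p
  have e1 := repr1 (u := fun s => φ (s, y)) (v := fun s => φ₁ (s, y)) (by fun_prop) (by fun_prop)
    (fun x t => h1 x y t) x
  have e2 : ∀ s, ∫ t, g1 (y - t) * (φ (s, t) + φ₁ (s, t) + (φ₂ (s, t) + φ₁₂ (s, t))) =
      φ (s, y) + φ₁ (s, y) := fun s =>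
    repr1 (u := fun t => φ (s, t) + φ₁ (s, t)) (v := fun t => φ₂ (s, t) + φ₁₂ (s, t))
      (by fun_prop) (by fun_prop) (fun y t => (h2 s y t).add (h3 s y t)) y
  change _ = φ (x, y) at e1
  rw [← e1]
  simp only [← e2]
  have hint : Integrable (fun q : Tor => G2 ((x, y) - q) *
      (φ q + φ₁ q + (φ₂ q + φ₁₂ q))) ((volume : Measure UnitAddCircle).prod volume) := by
    refine int_bdd (C := 4 * (4 * M)) ((G2_meas.comp (measurable_const.sub measurable_id)).mul
      hc.measurable) fun q => ?_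
    rw [abs_mul]
    exact mul_le_mul (G2_le _) (hb q) (abs_nonneg _) (by norm_num)
  rw [Measure.volume_eq_prod, integral_prod _ hint]
  congr 1
  funext s
  rw [← integral_const_mul]
  congr 1
  funext t
  unfold G2
  simp only [Prod.mk_sub_mk]
  ring

/-- Borel–Cantelli -/
theorem bc {Ω : Type*} [MeasurableSpace Ω] {P : Measure Ω} [IsProbabilityMeasure P]
    {Z : ℕ → Ω → ℝ} {A c : ℝ} (hA : 0 ≤ A) (hc : 0 < c) (hZ0 : ∀ n o, 0 ≤ Z n o)
    (hZi : ∀ n, Integrable (Z n) P) (hZ : ∀ n : ℕ, ∫ o, Z n o ∂P ≤ A * exp (-(c * n))) :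
    ∀ᵐ o ∂P, ∀ᶠ n : ℕ in atTop, Z n o ≤ exp (-(c / 2 * n)) := by
  have hb : ∀ n : ℕ, P {o | exp (-(c / 2 * n)) < Z n o} ≤
      ENNReal.ofReal (A * exp (-(c / 2 * n))) := by
    intro n
    obtain ⟨t, ht⟩ : ∃ t, t = exp (-(c / 2 * n)) := ⟨_, rfl⟩
    have ht0 : 0 < t := by rw [ht]; exact exp_pos _
    have h3 := mul_meas_ge_le_integral_of_nonneg (μ := P)
      (Eventually.of_forall fun o => hZ0 n o) (hZi n) t
    have h5 : P.real {o | t ≤ Z n o} ≤ A * exp (-(c / 2 * n)) := by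
      have h6 := h3.trans (hZ n)
      have h7 : A * exp (-(c * n)) = t * (A * exp (-(c / 2 * n))) := by
        have : exp (-(c * n)) = t * exp (-(c / 2 * n)) := by
          rw [ht, ← Real.exp_add]
          congr 1
          ring
        rw [this]
        ring
      rw [h7] at h6
      exact le_of_mul_le_mul_left h6 ht0
    rw [← ht]
    rw [← ht] at h5
    have hsub : {o | t < Z n o} ⊆ {o | t ≤ Z n o} := by
      intro o ho
      simp only [Set.mem_ofPred_eq] at ho ⊢
      exact ho.le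
    refine (measure_mono hsub).trans ?_
    rw [← ofReal_measureReal (measure_ne_top _ _)]
    exact ENNReal.ofReal_le_ofReal h5
  have hsum : ∑' n : ℕ, ENNReal.ofReal (A * exp (-(c / 2 * n))) ≠ ⊤ := by
    have hs : Summable (fun n : ℕ => A * exp (-(c / 2 * n))) := by
      refine Summable.mul_left A ?_
      have e : (fun n : ℕ => exp (-(c / 2 * n))) = fun n : ℕ => (exp (-(c / 2))) ^ n := by
        funext n
        rw [← exp_nat_mul]
        congr 1; ring
      rw [e]
      exact summable_geometric_of_lt_one (exp_pos _).le (by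
        rw [exp_lt_one_iff]; linarith)
    rw [← ENNReal.ofReal_tsum_of_nonneg (fun n => by positivity) hs]
    exact ENNReal.ofReal_ne_top
  have hbc := ae_eventually_notMem (μ := P)
    (ne_top_of_le_ne_top hsum (ENNReal.tsum_le_tsum hb))
  filter_upwards [hbc] with w hw
  filter_upwards [hw] with n hn
  exact not_lt.1 hn

/-- all smooth functions at the same time -/
theorem quenched_all (ν : Measure ℝ) [IsProbabilityMeasure ν] (h1 : ∀ a, ν {a} ≠ 1)
    (h2 : ν {a | sin (2 * π * a) ≠ 0} ≠ 0) :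
    ∃ c : ℝ, 0 < c ∧ ∀ᵐ w ∂(law ν), ∀ᶠ n : ℕ in atTop, ∀ (φ ψ : Tor → ℝ) (M N : ℝ),
      Cmix φ M → Cmix ψ N →
        |(∫ p, φ (orbY S w n p) * ψ p) - (∫ p, φ p) * ∫ p, ψ p| ≤
          16 * exp (-(c * n)) * (M * N) := by
  obtain ⟨c, hc, h⟩ := quenched ν h1 h2
  refine ⟨c / 4, by positivity, ?_⟩
  have hS : Measurable (Function.uncurry S) := continuous_S.measurable
  have hGx : ∀ x : Tor, Measurable (fun p => G2 (p - x)) := fun x =>
    G2_meas.comp (measurable_id.sub_const x)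
  have hGL : ∀ x : Tor, L2 volume (fun p => G2 (p - x)) := by
    intro x
    refine ⟨hGx x, int_bdd (C := 16) ((hGx x).pow_const 2) fun p => ?_⟩
    rw [abs_pow]
    have := pow_le_pow_left₀ (abs_nonneg _) (G2_le (p - x)) 2
    linarith
  have hG16 : ∀ x : Tor, ∫ p, G2 (p - x) ^ 2 ≤ 16 := by
    intro x
    refine (le_abs_self _).trans (abs_int_bdd fun p => ?_)
    rw [abs_pow]
    have := pow_le_pow_left₀ (abs_nonneg _) (G2_le (p - x)) 2
    linarith
  obtain ⟨H, hH⟩ : ∃ H : ℕ → (ℕ → ℝ) → Tor × Tor → ℝ, H = fun n w z =>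
    (∫ p, G2 (orbY S w n p - z.1) * G2 (p - z.2)) - 1 := ⟨_, rfl⟩
  have hmeas5 : ∀ n : ℕ, Measurable (fun t : ((ℕ → ℝ) × (Tor × Tor)) × Tor =>
      G2 (orbY S t.1.1 n t.2 - t.1.2.1) * G2 (t.2 - t.1.2.2)) := by
    intro n
    have m1 : Measurable (fun t : ((ℕ → ℝ) × (Tor × Tor)) × Tor => orbY S t.1.1 n t.2) :=
      (meas_orbY hS n).comp ((measurable_fst.comp measurable_fst).prodMk measurable_snd)
    have m2 : Measurable (fun t : ((ℕ → ℝ) × (Tor × Tor)) × Tor => t.1.2.1) := by fun_prop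
    have m3 : Measurable (fun t : ((ℕ → ℝ) × (Tor × Tor)) × Tor => t.1.2.2) := by fun_prop
    exact (G2_meas.comp (m1.sub m2)).mul (G2_meas.comp (measurable_snd.sub m3))
  have hHm : ∀ n, Measurable (fun t : (ℕ → ℝ) × (Tor × Tor) => H n t.1 t.2) := by
    intro n
    rw [hH]
    exact ((hmeas5 n).stronglyMeasurable.integral_prod_right (ν := volume)).measurable.sub_const _
  have hHb : ∀ n w z, |H n w z| ≤ 17 := by
    intro n w z
    rw [hH]
    refine (abs_sub _ _).trans ?_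
    have h3 : |∫ p, G2 (orbY S w n p - z.1) * G2 (p - z.2)| ≤ 16 := by
      refine abs_int_bdd fun p => ?_
      rw [abs_mul]
      have := mul_le_mul (G2_le (orbY S w n p - z.1)) (G2_le (p - z.2)) (abs_nonneg _)
        (by norm_num)
      linarith
    rw [abs_one]
    linarith
  have hH2 : ∀ n w z, |H n w z ^ 2| ≤ 289 := by
    intro n w z
    rw [abs_pow]
    have := pow_le_pow_left₀ (abs_nonneg _) (hHb n w z) 2
    linarith
  -- the mean of the squares
  have hmean : ∀ n z, ∫ w, H n w z ^ 2 ∂(law ν) ≤ 512 * exp (-(c * n)) := by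
    intro n z
    have h3 := (h (fun p => G2 (p - z.1)) (fun p => G2 (p - z.2)) (hGL _) (hGL _)).1 n
    simp only [G2_int, one_mul] at h3
    rw [hH]
    refine h3.trans ?_
    have h4 := mul_le_mul (hG16 z.1) (hG16 z.2) (integral_nonneg fun p => sq_nonneg _)
      (by norm_num)
    have h5 := mul_le_mul_of_nonneg_left h4 (by positivity : (0:ℝ) ≤ 2 * exp (-(c * n)))
    linarith
  obtain ⟨Z, hZ⟩ : ∃ Z : ℕ → (ℕ → ℝ) → ℝ, Z = fun n w => ∫ z, H n w z ^ 2 := ⟨_, rfl⟩
  have hZi : ∀ n, Integrable (Z n) (law ν) := by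
    intro n
    rw [hZ]
    refine int_bdd (C := 289) ?_ fun w => abs_int_bdd fun z => hH2 n w z
    exact (((hHm n).pow_const 2).stronglyMeasurable.integral_prod_right (ν := volume)).measurable
  have hZm : ∀ n : ℕ, ∫ w, Z n w ∂(law ν) ≤ 512 * exp (-(c * n)) := by
    intro n
    rw [hZ]
    simp only
    have hint : Integrable (fun t : (ℕ → ℝ) × (Tor × Tor) => H n t.1 t.2 ^ 2)
        ((law ν).prod volume) := int_bdd (C := 289) ((hHm n).pow_const 2) fun t => hH2 n _ _
    rw [integral_integral_swap hint]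
    have h3 : ∫ z : Tor × Tor, ∫ w, H n w z ^ 2 ∂(law ν) ≤
        ∫ _z : Tor × Tor, 512 * exp (-(c * n)) := by
      refine integral_mono ?_ (integrable_const _) fun z => hmean n z
      exact hint.integral_prod_right
    refine h3.trans (le_of_eq ?_)
    simp
  have hZ0 : ∀ n w, 0 ≤ Z n w := by
    intro n w
    rw [hZ]
    exact integral_nonneg fun z => sq_nonneg _
  have hbc := bc (by norm_num : (0:ℝ) ≤ 512) hc hZ0 hZi hZm
  filter_upwards [hbc] with w hw
  filter_upwards [hw] with n hn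
  intro φ ψ M N hφ hψ
  obtain ⟨Φ, hΦm, hΦb, hΦ⟩ := repr2 hφ
  obtain ⟨Ψ, hΨm, hΨb, hΨ⟩ := repr2 hψ
  have hM : 0 ≤ 4 * M := (abs_nonneg _).trans (hΦb 0)
  have hN : 0 ≤ 4 * N := (abs_nonneg _).trans (hΨb 0)
  have hmo := (mp_orbY_w mp_S w n).measurable
  -- integral of `φ`
  have hone : ∀ (F : Tor → ℝ) (F' : Tor → ℝ) (B : ℝ), Measurable F → (∀ p, |F p| ≤ B) →
      (∀ p, F' p = ∫ q, G2 (p - q) * F q) → ∫ p, F' p = ∫ p, F p := by
    intro F F' B hF hB hFF
    simp only [hFF]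
    have hi : Integrable (fun t : Tor × Tor => G2 (t.1 - t.2) * F t.2) (volume.prod volume) := by
      refine int_bdd (C := 4 * B) ((G2_meas.comp (measurable_fst.sub measurable_snd)).mul
        (hF.comp measurable_snd)) fun t => ?_
      rw [abs_mul]
      exact mul_le_mul (G2_le _) (hB _) (abs_nonneg _) (by norm_num)
    rw [integral_integral_swap hi]
    congr 1
    funext q
    rw [integral_mul_const, G2_int, one_mul]
  have eφ := hone Φ φ (4 * M) hΦm hΦb hΦ
  have eψ := hone Ψ ψ (4 * N) hΨm hΨb hΨ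
  -- the correlation
  have e1 : ∫ p, φ (orbY S w n p) * ψ p =
      ∫ z : Tor × Tor, (Φ z.1 * Ψ z.2) * (H n w z + 1) := by
    have e2 : ∀ p, φ (orbY S w n p) * ψ p = ∫ z : Tor × Tor,
        (G2 (orbY S w n p - z.1) * Φ z.1) * (G2 (p - z.2) * Ψ z.2) := by
      intro p
      rw [hΦ, hΨ, Measure.volume_eq_prod Tor Tor]
      exact (integral_prod_mul (fun q => G2 (orbY S w n p - q) * Φ q)
        (fun q => G2 (p - q) * Ψ q)).symm
    simp only [e2]
    have hi : Integrable (fun t : Tor × (Tor × Tor) =>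
        (G2 (orbY S w n t.1 - t.2.1) * Φ t.2.1) * (G2 (t.1 - t.2.2) * Ψ t.2.2))
        (volume.prod volume) := by
      refine int_bdd (C := (4 * (4 * M)) * (4 * (4 * N))) ?_ fun t => ?_
      · have m2 : Measurable (fun t : Tor × (Tor × Tor) => t.2.1) := by fun_prop
        have m3 : Measurable (fun t : Tor × (Tor × Tor) => t.2.2) := by fun_prop
        exact ((G2_meas.comp ((hmo.comp measurable_fst).sub m2)).mul (hΦm.comp m2)).mul
          ((G2_meas.comp (measurable_fst.sub m3)).mul (hΨm.comp m3))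
      · rw [abs_mul, abs_mul, abs_mul]
        refine mul_le_mul ?_ ?_ (by positivity) (by positivity)
        · exact mul_le_mul (G2_le _) (hΦb _) (abs_nonneg _) (by norm_num)
        · exact mul_le_mul (G2_le _) (hΨb _) (abs_nonneg _) (by norm_num)
    rw [integral_integral_swap hi]
    congr 1
    funext z
    rw [hH]
    simp only
    rw [sub_add_cancel, ← integral_const_mul]
    congr 1
    funext p
    ring
  have e3 : (∫ p, φ p) * ∫ p, ψ p = ∫ z : Tor × Tor, Φ z.1 * Ψ z.2 := by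
    rw [eφ, eψ, Measure.volume_eq_prod Tor Tor]
    exact (integral_prod_mul Φ Ψ).symm
  have hΦΨm : Measurable (fun z : Tor × Tor => Φ z.1 * Ψ z.2) :=
    (hΦm.comp measurable_fst).mul (hΨm.comp measurable_snd)
  have hΦΨb : ∀ z : Tor × Tor, |Φ z.1 * Ψ z.2| ≤ 4 * M * (4 * N) := by
    intro z
    rw [abs_mul]
    exact mul_le_mul (hΦb _) (hΨb _) (abs_nonneg _) hM
  have hHzm : Measurable (H n w) := (hHm n).comp (measurable_const.prodMk measurable_id)
  rw [e1, e3, ← integral_sub]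
  · have e4 : ∀ z : Tor × Tor, Φ z.1 * Ψ z.2 * (H n w z + 1) - Φ z.1 * Ψ z.2 =
        (Φ z.1 * Ψ z.2) * H n w z := fun z => by ring
    simp only [e4]
    have hL1 : L2 (volume : Measure (Tor × Tor)) (fun z => Φ z.1 * Ψ z.2) := by
      refine ⟨hΦΨm, int_bdd (C := (4 * M * (4 * N)) ^ 2) (hΦΨm.pow_const 2) fun z => ?_⟩
      rw [abs_pow]
      exact pow_le_pow_left₀ (abs_nonneg _) (hΦΨb z) 2
    have hL2 : L2 (volume : Measure (Tor × Tor)) (H n w) :=
      ⟨hHzm, int_bdd (C := 289) (hHzm.pow_const 2) fun z => hH2 n w z⟩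
    refine (cs_ineq hL1 hL2).trans ?_
    have h5 : nrm (volume : Measure (Tor × Tor)) (fun z => Φ z.1 * Ψ z.2) ≤ 4 * M * (4 * N) := by
      refine Real.sqrt_le_iff.2 ⟨mul_nonneg hM hN, ?_⟩
      refine (le_abs_self _).trans (abs_int_bdd fun z => ?_)
      rw [abs_pow]
      exact pow_le_pow_left₀ (abs_nonneg _) (hΦΨb z) 2
    have h6 : nrm (volume : Measure (Tor × Tor)) (H n w) ≤ exp (-(c / 4 * n)) := by
      refine Real.sqrt_le_iff.2 ⟨(exp_pos _).le, ?_⟩
      rw [hZ] at hn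
      refine hn.trans (le_of_eq ?_)
      rw [← Real.exp_nat_mul]
      congr 1
      push_cast
      ring
    refine (mul_le_mul h5 h6 (nrm_nonneg _) (mul_nonneg hM hN)).trans (le_of_eq ?_)
    ring
  · refine int_bdd (C := 4 * M * (4 * N) * 18) (hΦΨm.mul (hHzm.add_const 1)) fun z => ?_
    rw [abs_mul]
    refine mul_le_mul (hΦΨb z) ?_ (abs_nonneg _) (mul_nonneg hM hN)
    refine (abs_add_le _ _).trans ?_
    rw [abs_one]
    linarith [hHb n w z]
  · exact int_bdd hΦΨm hΦΨb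

end Q69.SX
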