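import Mathlib

/-!
Calculus on a torus of dimension `|d|`.
-/

set_option autoImplicit false

open MeasureTheory Filter Topology
open scoped ContDiff

namespace Q69.SX

variable {d : Type*} [Fintype d] [DecidableEq d]

/-- the torus -/
abbrev X (d : Type*) := d → UnitAddCircle

/-- the covering map -/
def cov (p : d → ℝ) : X d := fun c => (p c : UnitAddCircle)

omit [Fintype d] [DecidableEq d] in
theorem cov_surj : Function.Surjective (cov (d := d)) := by
  intro q
  have h : ∀ c, ∃ r : ℝ, (r : UnitAddCircle) = q c := fun c => QuotientAddGroup.mk_surjective (q c)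
  choose p hp using h
  exact ⟨p, funext hp⟩

omit [DecidableEq d] in
theorem quot_cov : IsOpenQuotientMap (cov (d := d)) := by
  have h : ∀ _c : d, IsOpenQuotientMap (fun r : ℝ => (r : UnitAddCircle)) := fun _ =>
    QuotientAddGroup.isOpenQuotientMap_mk
  exact IsOpenQuotientMap.piMap h

/-- smooth functions on the torus -/
def Sm (G : X d → ℝ) : Prop := ContDiff ℝ ∞ (fun p => G (cov p))

omit [DecidableEq d] in
theorem Sm.continuous {G : X d → ℝ} (h : Sm G) : Continuous G :=
  (quot_cov.continuous_comp_iff).1 (ContDiff.continuous h)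

omit [DecidableEq d] in
theorem Sm.measurable {G : X d → ℝ} (h : Sm G) : Measurable G := h.continuous.measurable

omit [DecidableEq d] in
theorem Sm.add {G H : X d → ℝ} (h : Sm G) (h' : Sm H) : Sm (fun q => G q + H q) :=
  ContDiff.add h h'

omit [DecidableEq d] in
theorem Sm.sub {G H : X d → ℝ} (h : Sm G) (h' : Sm H) : Sm (fun q => G q - H q) :=
  ContDiff.sub h h'

omit [DecidableEq d] in
theorem Sm.mul {G H : X d → ℝ} (h : Sm G) (h' : Sm H) : Sm (fun q => G q * H q) :=
  ContDiff.mul h h'

omit [DecidableEq d] in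
theorem Sm.neg {G : X d → ℝ} (h : Sm G) : Sm (fun q => - G q) := ContDiff.neg h

omit [DecidableEq d] in
theorem Sm.const (r : ℝ) : Sm (fun _ : X d => r) := contDiff_const

omit [DecidableEq d] in
theorem Sm.inv {G : X d → ℝ} (h : Sm G) (h0 : ∀ q, G q ≠ 0) : Sm (fun q => (G q)⁻¹) :=
  ContDiff.inv h fun p => h0 (cov p)

omit [DecidableEq d] in
theorem Sm.sum {κ : Type*} (s : Finset κ) {G : κ → X d → ℝ} (h : ∀ k ∈ s, Sm (G k)) :
    Sm (fun q => ∑ k ∈ s, G k q) := by
  have := ContDiff.sum (𝕜 := ℝ) (n := ∞) (f := fun k p => G k (cov p)) (s := s) h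
  exact this

omit [DecidableEq d] in
theorem Sm.prod {κ : Type*} (s : Finset κ) {G : κ → X d → ℝ} (h : ∀ k ∈ s, Sm (G k)) :
    Sm (fun q => ∏ k ∈ s, G k q) := by
  exact contDiff_prod (𝕜 := ℝ) (n := ∞) (f := fun k p => G k (cov p)) (t := s) h

omit [DecidableEq d] in
theorem Sm.pow {G : X d → ℝ} (h : Sm G) (n : ℕ) : Sm (fun q => G q ^ n) := ContDiff.pow h n

/-- translation in one coordinate -/
noncomputable def sh (c : d) (t : ℝ) (q : X d) : X d := q + Pi.single c (t : UnitAddCircle)

/-- the derivative in one coordinate -/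
noncomputable def D (c : d) (G : X d → ℝ) (q : X d) : ℝ := deriv (fun t : ℝ => G (sh c t q)) 0

omit [Fintype d] in
theorem sh_cov (c : d) (t : ℝ) (p : d → ℝ) : sh c t (cov p) = cov (p + t • Pi.single c 1) := by
  funext e
  unfold sh cov
  by_cases h : e = c
  · subst h
    simp
  · simp [Pi.single_eq_of_ne h]

omit [Fintype d] in
theorem sh_sh (c : d) (s t : ℝ) (q : X d) : sh c s (sh c t q) = sh c (t + s) q := by
  unfold sh
  rw [add_assoc, ← Pi.single_add, ← AddCircle.coe_add]

omit [Fintype d] in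
theorem sh_zero (c : d) (q : X d) : sh c 0 q = q := by
  unfold sh
  simp

theorem hasDerivAt_cov {G : X d → ℝ} (h : Sm G) (c : d) (p : d → ℝ) :
    HasDerivAt (fun t : ℝ => G (sh c t (cov p)))
      (fderiv ℝ (fun p => G (cov p)) p (Pi.single c 1)) 0 := by
  simp only [sh_cov]
  have h1 : HasFDerivAt (fun p => G (cov p)) (fderiv ℝ (fun p => G (cov p)) (p + (0:ℝ) • Pi.single c 1))
      (p + (0:ℝ) • Pi.single c 1) :=
    ((ContDiff.differentiable h (by simp)) _).hasFDerivAt
  have h2 : HasDerivAt (fun t : ℝ => p + t • (Pi.single c 1 : d → ℝ)) (Pi.single c 1) 0 := by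
    have := ((hasDerivAt_id (0:ℝ)).smul_const (Pi.single c 1 : d → ℝ)).const_add p
    simpa using this
  have h3 := h1.comp_hasDerivAt (0:ℝ) h2
  rw [zero_smul, add_zero] at h3
  exact h3

theorem D_cov {G : X d → ℝ} (h : Sm G) (c : d) (p : d → ℝ) :
    D c G (cov p) = fderiv ℝ (fun p => G (cov p)) p (Pi.single c 1) :=
  (hasDerivAt_cov h c p).deriv

theorem Sm.D {G : X d → ℝ} (h : Sm G) (c : d) : Sm (D c G) := by
  unfold Sm
  simp only [D_cov h]
  exact (contDiff_infty_iff_fderiv.1 h).2.clm_apply contDiff_const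

theorem hasDerivAt_sh {G : X d → ℝ} (h : Sm G) (c : d) (t : ℝ) (q : X d) :
    HasDerivAt (fun t : ℝ => G (sh c t q)) (D c G (sh c t q)) t := by
  obtain ⟨p, hp⟩ := cov_surj (sh c t q)
  have h1 := hasDerivAt_cov h c p
  rw [← D_cov h, hp] at h1
  have h2 : HasDerivAt (fun s : ℝ => s - t) 1 t := by
    simpa using (hasDerivAt_id t).sub_const t
  have h4 : HasDerivAt (fun s : ℝ => G (sh c s (sh c t q))) (D c G (sh c t q)) (t - t) := by
    rw [sub_self]; exact h1
  have h5 : HasDerivAt ((fun s : ℝ => G (sh c s (sh c t q))) ∘ (fun s : ℝ => s - t))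
      (D c G (sh c t q) * 1) t := HasDerivAt.comp t h4 h2
  rw [mul_one] at h5
  refine h5.congr_of_eventuallyEq (Eventually.of_forall fun s => ?_)
  simp only [Function.comp, sh_sh]
  congr 2
  ring

theorem hasDerivAt_zero {G : X d → ℝ} (h : Sm G) (c : d) (q : X d) :
    HasDerivAt (fun t : ℝ => G (sh c t q)) (D c G q) 0 := by
  have := hasDerivAt_sh h c 0 q
  rwa [sh_zero] at this

theorem D_add {G H : X d → ℝ} (h : Sm G) (h' : Sm H) (c : d) (q : X d) :
    D c (fun q => G q + H q) q = D c G q + D c H q :=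
  ((hasDerivAt_zero h c q).add (hasDerivAt_zero h' c q)).deriv

theorem D_sub {G H : X d → ℝ} (h : Sm G) (h' : Sm H) (c : d) (q : X d) :
    D c (fun q => G q - H q) q = D c G q - D c H q :=
  ((hasDerivAt_zero h c q).sub (hasDerivAt_zero h' c q)).deriv

theorem D_neg {G : X d → ℝ} (h : Sm G) (c : d) (q : X d) :
    D c (fun q => - G q) q = - D c G q :=
  (hasDerivAt_zero h c q).neg.deriv

theorem D_mul {G H : X d → ℝ} (h : Sm G) (h' : Sm H) (c : d) (q : X d) :
    D c (fun q => G q * H q) q = D c G q * H q + G q * D c H q := by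
  have := ((hasDerivAt_zero h c q).mul (hasDerivAt_zero h' c q)).deriv
  rw [sh_zero] at this
  exact this

omit [Fintype d] in
theorem D_const (r : ℝ) (c : d) (q : X d) : D c (fun _ => r) q = 0 := by
  unfold D
  exact deriv_const 0 r

theorem D_const_mul {G : X d → ℝ} (r : ℝ) (h : Sm G) (c : d) (q : X d) :
    D c (fun q => r * G q) q = r * D c G q :=
  ((hasDerivAt_zero h c q).const_mul r).deriv

theorem D_sum {κ : Type*} (s : Finset κ) {G : κ → X d → ℝ} (h : ∀ k ∈ s, Sm (G k)) (c : d)
    (q : X d) : D c (fun q => ∑ k ∈ s, G k q) q = ∑ k ∈ s, D c (G k) q :=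
  (HasDerivAt.fun_sum fun k hk => hasDerivAt_zero (h k hk) c q).deriv

theorem D_comm {G : X d → ℝ} (h : Sm G) (c e : d) (q : X d) :
    D c (D e G) q = D e (D c G) q := by
  obtain ⟨p, rfl⟩ := cov_surj q
  have key : ∀ c e : d, D c (D e G) (cov p) =
      fderiv ℝ (fderiv ℝ (fun p => G (cov p))) p (Pi.single c 1) (Pi.single e 1) := by
    intro c e
    rw [D_cov (h.D e)]
    simp only [D_cov h]
    have h1 : DifferentiableAt ℝ (fderiv ℝ (fun p => G (cov p))) p :=
      ((contDiff_infty_iff_fderiv.1 h).2.differentiable (by simp)) p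
    rw [fderiv_clm_apply h1 (differentiableAt_const _)]
    simp
  rw [key c e, key e c]
  have h2 : ContDiffAt ℝ ∞ (fun p => G (cov p)) p := ContDiff.contDiffAt h
  have h3 := h2.isSymmSndFDerivAt (by
    simp only [minSmoothness_of_isRCLikeNormedField]
    exact WithTop.coe_le_coe.2 (le_top : (2 : ℕ∞) ≤ ⊤))
  exact h3 _ _

omit [DecidableEq d] in
theorem Sm.bound {G : X d → ℝ} (h : Sm G) : ∃ M : ℝ, 0 ≤ M ∧ ∀ q, |G q| ≤ M := by
  obtain ⟨M, hM⟩ := isCompact_univ.exists_bound_of_continuousOn h.continuous.continuousOn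
  refine ⟨max M 0, le_max_right _ _, fun q => ?_⟩
  exact (hM q (Set.mem_univ q)).trans (le_max_left _ _)

omit [DecidableEq d] in
theorem Sm.integrable {G : X d → ℝ} (h : Sm G) : Integrable G (volume : Measure (X d)) := by
  obtain ⟨M, -, hM⟩ := h.bound
  exact (integrable_const M).mono' h.measurable.aestronglyMeasurable
    (Eventually.of_forall fun q => hM q)

theorem mp_sh (c : d) (t : ℝ) : MeasurePreserving (sh c t) (volume : Measure (X d)) volume := by
  change MeasurePreserving (fun q : X d => q + Pi.single c (t : UnitAddCircle)) volume volume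
  exact measurePreserving_add_right (volume : Measure (X d)) _

theorem int_D {G : X d → ℝ} (h : Sm G) (c : d) : ∫ q, D c G q = 0 := by
  obtain ⟨M, hM0, hM⟩ := (h.D c).bound
  have h1 := hasDerivAt_integral_of_dominated_loc_of_deriv_le (μ := (volume : Measure (X d)))
    (F := fun t q => G (sh c t q)) (F' := fun t q => D c G (sh c t q)) (x₀ := (0:ℝ))
    (s := Set.univ) (bound := fun _ => M) Filter.univ_mem
    (Eventually.of_forall fun t => (h.measurable.comp (mp_sh c t).measurable).aestronglyMeasurable)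
    (by simp only [sh_zero]; exact h.integrable)
    (((h.D c).measurable.comp (mp_sh c 0).measurable).aestronglyMeasurable)
    (Eventually.of_forall fun q t _ => hM _) (integrable_const M)
    (Eventually.of_forall fun q t _ => hasDerivAt_sh h c t q)
  have h2 : (fun t : ℝ => ∫ q, G (sh c t q)) = fun _ => ∫ q, G q := by
    funext t
    have h3 := (mp_sh (d := d) c t)
    conv_rhs => rw [← h3.map_eq]
    rw [integral_map h3.measurable.aemeasurable h.measurable.aestronglyMeasurable]
  have h4 := h1.2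
  rw [h2] at h4
  have h5 := h4.unique (hasDerivAt_const (0:ℝ) (∫ q, G q))
  simpa only [sh_zero] using h5

theorem ibp {G H : X d → ℝ} (h : Sm G) (h' : Sm H) (c : d) :
    ∫ q, D c G q * H q = - ∫ q, G q * D c H q := by
  have h1 := int_D (h.mul h') c
  simp only [D_mul h h'] at h1
  rw [integral_add ((h.D c).mul h').integrable (h.mul (h'.D c)).integrable] at h1
  linarith

end Q69.SX
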